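import Pool.Agent.H295R2.MK.Defs

set_option autoImplicit false

/-! Task A3 of helper295's project MK: the local sums. -/

namespace Pool.Agent.H757R2.MKA3

open Finset Filter Topology
open Pool.Agent.H306R2 H295MK

noncomputable section

/-- the index set: `m` and two splittings of `m` -/
abbrev IS : Type := Σ m : ℕ, (↥(antidiagonal m) × ↥(antidiagonal m))

/-- the vector attached to `a + b = c + d` -/
def gv (s : IS) : Fin 4 → ℕ :=
  ![s.2.1.1.1 - s.2.2.1.1, s.2.2.1.1 - s.2.1.1.1, min s.2.1.1.1 s.2.2.1.1, min s.2.1.1.2 s.2.2.1.2]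

lemma gv_rel (s : IS) :
    gv s 0 + gv s 2 = s.2.1.1.1 ∧ gv s 1 + gv s 2 = s.2.2.1.1 ∧ gv s 0 + gv s 3 = s.2.2.1.2 ∧
      gv s 1 + gv s 3 = s.2.1.1.2 ∧ (gv s 0 = 0 ∨ gv s 1 = 0) ∧
      gv s 0 + gv s 1 + gv s 2 + gv s 3 = s.1 := by
  rcases s with ⟨m, ⟨⟨a, b⟩, h1⟩, ⟨⟨c, d⟩, h2⟩⟩
  rw [HasAntidiagonal.mem_antidiagonal] at h1 h2
  simp only [gv, Matrix.cons_val_zero, Matrix.cons_val_one, Matrix.cons_val]
  dsimp only at h1 h2 ⊢
  omega

lemma gv_inj : Function.Injective gv := by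
  intro s s' h
  have r := gv_rel s
  have r' := gv_rel s'
  rw [h] at r
  rcases s with ⟨m, ⟨⟨a, b⟩, h1⟩, ⟨⟨c, d⟩, h2⟩⟩
  rcases s' with ⟨m', ⟨⟨a', b'⟩, h1'⟩, ⟨⟨c', d'⟩, h2'⟩⟩
  dsimp only at r r'
  obtain ⟨e1, e2, e3, e4, -, e5⟩ := r
  obtain ⟨e1', e2', e3', e4', -, e5'⟩ := r'
  have x1 : a = a' := by omega
  have x2 : c = c' := by omega
  have x3 : d = d' := by omega
  have x4 : b = b' := by omega
  have x5 : m = m' := by omega
  subst x1 x2 x3 x4 x5
  rfl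

lemma gv_range (j p : ℕ) : Function.support (lam4 j p) ⊆ Set.range gv := by
  intro v hv
  have h0 : v 0 = 0 ∨ v 1 = 0 := by
    by_contra hne
    exact hv (by unfold lam4; rw [if_neg hne])
  refine ⟨⟨v 0 + v 1 + v 2 + v 3, ⟨(v 0 + v 2, v 1 + v 3), ?_⟩, ⟨(v 1 + v 2, v 0 + v 3), ?_⟩⟩, ?_⟩
  · rw [HasAntidiagonal.mem_antidiagonal]; dsimp only; omega
  · rw [HasAntidiagonal.mem_antidiagonal]; dsimp only; omega
  · funext i
    fin_cases i <;> simp only [gv, Matrix.cons_val_zero, Matrix.cons_val_one, Matrix.cons_val,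
      Fin.zero_eta, Fin.mk_one, Fin.reduceFinMk] <;> omega

/-- the summand over the index set -/
def fs (j p : ℕ) (s : IS) : ℝ :=
  lc j s.2.1.1.1 * lc j s.2.1.1.2 * (lc j s.2.2.1.1 * lc j s.2.2.1.2) * (1 / (p : ℝ)) ^ s.1

lemma lam_gv (j p : ℕ) (s : IS) : lam4 j p (gv s) = fs j p s := by
  obtain ⟨e1, e2, e3, e4, e5, e6⟩ := gv_rel s
  unfold lam4 fs
  rw [if_pos e5, e1, e2, e3, e4, e6]
  ring

lemma fiber (j p m : ℕ) : ∑' y : (↥(antidiagonal m) × ↥(antidiagonal m)), fs j p ⟨m, y⟩ =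
    lc (2 * j) m ^ 2 * (1 / (p : ℝ)) ^ m := by
  have h1 := lc_conv (j : ℝ) (j : ℝ) m
  have h2 : (∑ x : ↥(antidiagonal m), lc (j : ℝ) x.1.1 * lc (j : ℝ) x.1.2) = lc (2 * j) m := by
    rw [Finset.sum_coe_sort (antidiagonal m) (fun x => lc (j : ℝ) x.1 * lc (j : ℝ) x.2), h1, two_mul]
  rw [tsum_fintype, Fintype.sum_prod_type]
  unfold fs
  dsimp only
  simp_rw [← sum_mul, ← mul_sum, ← sum_mul]
  rw [h2]
  ring

lemma fs_nonneg (j p : ℕ) (s : IS) : 0 ≤ fs j p s := by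
  unfold fs
  have h := fun m => lc_nonneg (α := (j : ℝ)) (by positivity) m
  have := h s.2.1.1.1
  have := h s.2.1.1.2
  have := h s.2.2.1.1
  have := h s.2.2.1.2
  positivity

lemma sum_lc (j p : ℕ) (hj : 1 ≤ j) (hp : p.Prime) :
    Summable (fun m : ℕ => lc (2 * j) m ^ 2 * (1 / (p : ℝ)) ^ m) := by
  have hj' : (0 : ℝ) < 2 * j := by positivity
  have hp2 : (2 : ℝ) ≤ p := by exact_mod_cast hp.two_le
  have hx : (0 : ℝ) < 1 / p := by positivity
  have hx1 : 1 / (p : ℝ) < 1 := by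
    rw [div_lt_one (by linarith)]
    linarith
  refine Summable.of_nonneg_of_le (fun m => by positivity) (fun m => ?_)
    (lc_summable (α := (2 * (j : ℝ)) ^ 2) (by positivity) hx hx1)
  exact mul_le_mul_of_nonneg_right (lc_sq_le hj'.le m) (by positivity)

lemma fs_summable (j p : ℕ) (hj : 1 ≤ j) (hp : p.Prime) : Summable (fs j p) := by
  rw [summable_sigma_of_nonneg (fs_nonneg j p)]
  refine ⟨fun m => (hasSum_fintype _).summable, ?_⟩
  simp_rw [fiber]
  exact sum_lc j p hj hp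

/-- the local weights are summable -/
theorem lam4_summable (j p : ℕ) (hj : 1 ≤ j) (hp : p.Prime) : Summable (lam4 j p) := by
  rw [← gv_inj.summable_iff (f := lam4 j p)]
  · refine (fs_summable j p hj hp).congr fun s => ?_
    exact (lam_gv j p s).symm
  · intro v hv
    by_contra hne
    exact hv (gv_range j p hne)

/-- task A3 -/
theorem loc4 : Loc4 := by
  intro j p hj hp
  rw [← gv_inj.tsum_eq (gv_range j p)]
  simp_rw [lam_gv]
  rw [(fs_summable j p hj hp).tsum_sigma' (fun m => (hasSum_fintype _).summable)]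
  simp_rw [fiber]

end

end Pool.Agent.H757R2.MKA3
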