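import Mathlib

set_option autoImplicit false

/-!
ROOM CARDY, part (D): the tail of the beta-binomial law with parameters `1/3, 1/3` converges to
Cardy's integral.
-/

namespace Pool.Agent.H757R2.CardyLimit

open Finset Filter Topology MeasureTheory

noncomputable section

/-- rising factorial -/
def poch (s : ℝ) (k : ℕ) : ℝ := ∏ i ∈ range k, (s + i)

lemma poch_pos {s : ℝ} (hs : 0 < s) (k : ℕ) : 0 < poch s k :=
  prod_pos fun i _ => by positivity

lemma gamma_poch {s : ℝ} (hs : 0 < s) (k : ℕ) :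
    Real.Gamma (k + s) = poch s k * Real.Gamma s := by
  induction k with
  | zero => simp [poch]
  | succ k ih =>
    have h1 : (k : ℝ) + s ≠ 0 := by positivity
    have h2 : ((k + 1 : ℕ) : ℝ) + s = ((k : ℝ) + s) + 1 := by push_cast; ring
    rw [h2, Real.Gamma_add_one h1, ih]
    unfold poch
    rw [prod_range_succ]
    ring

lemma beta_int {α β : ℝ} (hα : 0 < α) (hβ : 0 < β) :
    IntervalIntegrable (fun t : ℝ => t ^ (α - 1) * (1 - t) ^ (β - 1)) volume 0 1 ∧
    ∫ t in (0:ℝ)..1, t ^ (α - 1) * (1 - t) ^ (β - 1) =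
      Real.Gamma α * Real.Gamma β / Real.Gamma (α + β) := by
  have hc := Complex.betaIntegral_convergent (u := (α : ℂ)) (v := (β : ℂ)) (by simpa) (by simpa)
  have he : ∀ x ∈ Set.uIcc (0:ℝ) 1, (x : ℂ) ^ ((α : ℂ) - 1) * (1 - (x : ℂ)) ^ ((β : ℂ) - 1) =
      ((x ^ (α - 1) * (1 - x) ^ (β - 1) : ℝ) : ℂ) := by
    intro x hx
    rw [Set.uIcc_of_le zero_le_one] at hx
    have h1 : 0 ≤ 1 - x := by linarith [hx.2]
    rw [Complex.ofReal_mul, Complex.ofReal_cpow hx.1, Complex.ofReal_cpow h1]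
    push_cast
    rfl
  have hr : IntervalIntegrable (fun t : ℝ => ((t ^ (α - 1) * (1 - t) ^ (β - 1) : ℝ) : ℂ))
      volume 0 1 := by
    refine hc.congr ?_
    intro x hx
    exact he x (Set.uIoc_subset_uIcc hx)
  constructor
  · have h2 := hr.norm
    have h3 : IntervalIntegrable (fun t : ℝ => (((t ^ (α - 1) * (1 - t) ^ (β - 1) : ℝ) : ℂ)).re)
        volume 0 1 := by
      constructor
      · exact hr.1.re
      · exact hr.2.re
    simpa using h3
  · have h1 := ProbabilityTheory.beta_eq_betaIntegralReal α β hα hβ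
    unfold ProbabilityTheory.beta at h1
    rw [h1]
    unfold Complex.betaIntegral
    rw [intervalIntegral.integral_congr (g := fun t : ℝ =>
      ((t ^ (α - 1) * (1 - t) ^ (β - 1) : ℝ) : ℂ)) he]
    rw [intervalIntegral.integral_ofReal, Complex.ofReal_re]

/-- Cardy's density -/
def gd (t : ℝ) : ℝ := (t * (1 - t)) ^ (-(2/3) : ℝ)

lemma gd_nonneg {t : ℝ} (h : t ∈ Set.Icc (0:ℝ) 1) : 0 ≤ gd t :=
  Real.rpow_nonneg (mul_nonneg h.1 (by linarith [h.2])) _

/-- Bernstein polynomials -/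
def bt (L k : ℕ) (t : ℝ) : ℝ := (L.choose k : ℝ) * t ^ k * (1 - t) ^ (L - k)

lemma bt_nonneg (L k : ℕ) {t : ℝ} (h : t ∈ Set.Icc (0:ℝ) 1) : 0 ≤ bt L k t := by
  have h1 : 0 ≤ 1 - t := by linarith [h.2]
  have h2 := h.1
  unfold bt
  positivity

lemma sum_bt (L : ℕ) (t : ℝ) : ∑ k ∈ range (L + 1), bt L k t = 1 := by
  have h := bernsteinPolynomial.sum ℝ L
  have h2 := congrArg (Polynomial.eval t) h
  rw [Polynomial.eval_finsetSum] at h2
  simpa [bernsteinPolynomial, bt] using h2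

lemma var_bt (L : ℕ) (t : ℝ) :
    ∑ k ∈ range (L + 1), ((L : ℝ) * t - k) ^ 2 * bt L k t = L * (t * (1 - t)) := by
  have h := bernsteinPolynomial.variance ℝ L
  have h2 := congrArg (Polynomial.eval t) h
  rw [Polynomial.eval_finsetSum] at h2
  simp only [bernsteinPolynomial, nsmul_eq_mul, Polynomial.eval_mul, Polynomial.eval_pow,
    Polynomial.eval_sub, Polynomial.eval_natCast, Polynomial.eval_X, Polynomial.eval_one] at h2
  rw [← mul_assoc, ← h2]
  rfl

/-- the upper tail -/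
def U (a L : ℕ) (t : ℝ) : ℝ := ∑ k ∈ Icc (a + 1) L, bt L k t

lemma U_nonneg (a L : ℕ) {t : ℝ} (h : t ∈ Set.Icc (0:ℝ) 1) : 0 ≤ U a L t :=
  sum_nonneg fun k _ => bt_nonneg L k h

lemma Icc_sub (a L : ℕ) : Icc (a + 1) L ⊆ range (L + 1) := by
  intro k hk
  rw [mem_Icc] at hk
  rw [mem_range]
  omega

lemma U_le_one (a L : ℕ) {t : ℝ} (h : t ∈ Set.Icc (0:ℝ) 1) : U a L t ≤ 1 := by
  rw [← sum_bt L t]
  exact sum_le_sum_of_subset_of_nonneg (Icc_sub a L) fun k _ _ => bt_nonneg L k h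

lemma t_bd {t : ℝ} : t * (1 - t) ≤ 1 / 4 := by nlinarith [sq_nonneg (t - 1/2)]

lemma U_small {a L : ℕ} {t δ : ℝ} (hL : 0 < L) (hδ : 0 < δ) (h : t ∈ Set.Icc (0:ℝ) 1)
    (ht : t + δ ≤ (a : ℝ) / L) : U a L t ≤ 1 / (δ ^ 2 * L) := by
  have hL' : (0:ℝ) < L := by exact_mod_cast hL
  have h1 : (L : ℝ) * (t + δ) ≤ a := by
    rw [le_div_iff₀ hL'] at ht
    linarith
  have h2 : (δ * L) ^ 2 * U a L t ≤ L * (t * (1 - t)) := by
    rw [← var_bt L t]
    unfold U
    rw [mul_sum]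
    refine le_trans (sum_le_sum (g := fun k => ((L : ℝ) * t - k) ^ 2 * bt L k t) ?_)
      (sum_le_sum_of_subset_of_nonneg (Icc_sub a L) fun k _ _ =>
        mul_nonneg (sq_nonneg _) (bt_nonneg L k h))
    intro k hk
    rw [mem_Icc] at hk
    refine mul_le_mul_of_nonneg_right ?_ (bt_nonneg L k h)
    have h3 : ((a : ℝ) + 1) ≤ k := by exact_mod_cast hk.1
    have h4 : δ * L ≤ (k : ℝ) - L * t := by nlinarith
    have h5 : 0 ≤ δ * L := by positivity
    nlinarith
  have h3 : (L : ℝ) * (t * (1 - t)) ≤ L := by nlinarith [t_bd (t := t)]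
  rw [le_div_iff₀ (by positivity)]
  have h4 : (δ * L) ^ 2 * U a L t = L * (U a L t * (δ ^ 2 * L)) := by ring
  rw [h4] at h2
  have h5 : (L : ℝ) * (U a L t * (δ ^ 2 * L)) ≤ L * 1 := by linarith
  exact le_of_mul_le_mul_left h5 hL'

lemma U_large {a L : ℕ} {t δ : ℝ} (hL : 0 < L) (hδ : 0 < δ) (h : t ∈ Set.Icc (0:ℝ) 1)
    (ht : (a : ℝ) / L + δ ≤ t) : 1 - 1 / (δ ^ 2 * L) ≤ U a L t := by
  have hL' : (0:ℝ) < L := by exact_mod_cast hL
  have h1 : (a : ℝ) ≤ L * (t - δ) := by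
    have : (a : ℝ) / L ≤ t - δ := by linarith
    rw [div_le_iff₀ hL'] at this
    linarith
  have hs : 1 - U a L t = ∑ k ∈ range (L + 1) \ Icc (a + 1) L, bt L k t := by
    rw [← sum_bt L t, ← sum_sdiff (Icc_sub a L)]
    unfold U
    ring
  have h2 : (δ * L) ^ 2 * (1 - U a L t) ≤ L * (t * (1 - t)) := by
    rw [← var_bt L t, hs, mul_sum]
    refine le_trans (sum_le_sum (g := fun k => ((L : ℝ) * t - k) ^ 2 * bt L k t) ?_)
      (sum_le_sum_of_subset_of_nonneg sdiff_subset fun k _ _ =>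
        mul_nonneg (sq_nonneg _) (bt_nonneg L k h))
    intro k hk
    rw [Finset.mem_sdiff, mem_range, mem_Icc] at hk
    refine mul_le_mul_of_nonneg_right ?_ (bt_nonneg L k h)
    have hk' : k ≤ a := by omega
    have h3 : (k : ℝ) ≤ a := by exact_mod_cast hk'
    have h4 : δ * L ≤ (L : ℝ) * t - k := by nlinarith
    have h5 : 0 ≤ δ * L := by positivity
    nlinarith
  have h3 : (L : ℝ) * (t * (1 - t)) ≤ L := by nlinarith [t_bd (t := t)]
  have h6 : 1 - U a L t ≤ 1 / (δ ^ 2 * L) := by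
    rw [le_div_iff₀ (by positivity)]
    have h4 : (δ * L) ^ 2 * (1 - U a L t) = L * ((1 - U a L t) * (δ ^ 2 * L)) := by ring
    rw [h4] at h2
    have h5 : (L : ℝ) * ((1 - U a L t) * (δ ^ 2 * L)) ≤ L * 1 := by linarith
    exact le_of_mul_le_mul_left h5 hL'
  linarith

/-- the beta-binomial tail -/
def tail (a L : ℕ) : ℝ :=
  ∑ k ∈ Icc (a + 1) L, (L.choose k : ℝ) * poch (1/3) k * poch (1/3) (L - k) / poch (2/3) L

lemma gd_eq {t : ℝ} (h : t ∈ Set.Ioo (0:ℝ) 1) (p q : ℕ) :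
    t ^ p * (1 - t) ^ q * gd t =
      t ^ (((p : ℝ) + 1/3) - 1) * (1 - t) ^ (((q : ℝ) + 1/3) - 1) := by
  have h1 : 0 < t := h.1
  have h2 : 0 < 1 - t := by linarith [h.2]
  have e1 : ((p : ℝ) + 1/3) - 1 = p + (-(2/3)) := by ring
  have e2 : ((q : ℝ) + 1/3) - 1 = q + (-(2/3)) := by ring
  rw [e1, e2, Real.rpow_add h1, Real.rpow_add h2, Real.rpow_natCast, Real.rpow_natCast]
  unfold gd
  rw [Real.mul_rpow h1.le h2.le]
  ring

lemma int_pq (p q : ℕ) :
    IntervalIntegrable (fun t : ℝ => t ^ p * (1 - t) ^ q * gd t) volume 0 1 ∧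
    ∫ t in (0:ℝ)..1, t ^ p * (1 - t) ^ q * gd t =
      poch (1/3) p * poch (1/3) q / poch (2/3) (p + q) *
        (Real.Gamma (1/3) ^ 2 / Real.Gamma (2/3)) := by
  have hb := beta_int (α := (p : ℝ) + 1/3) (β := (q : ℝ) + 1/3) (by positivity) (by positivity)
  have hae : ∀ᵐ t : ℝ, t ∈ Set.uIoc (0:ℝ) 1 →
      t ^ (((p : ℝ) + 1/3) - 1) * (1 - t) ^ (((q : ℝ) + 1/3) - 1) =
        t ^ p * (1 - t) ^ q * gd t := by
    have h1 : ∀ᵐ t : ℝ, t ≠ 1 := by
      rw [ae_iff]
      simp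
    filter_upwards [h1] with t ht ht2
    rw [Set.uIoc_of_le zero_le_one] at ht2
    exact (gd_eq ⟨ht2.1, lt_of_le_of_ne ht2.2 ht⟩ p q).symm
  constructor
  · refine hb.1.congr_ae ?_
    rw [EventuallyEq, ae_restrict_iff' measurableSet_uIoc]
    exact hae
  · rw [← intervalIntegral.integral_congr_ae hae, hb.2, gamma_poch (by norm_num),
      gamma_poch (by norm_num)]
    have e : (p : ℝ) + 1/3 + (q + 1/3) = ((p + q : ℕ) : ℝ) + 2/3 := by push_cast; ring
    rw [e, gamma_poch (by norm_num)]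
    have := (poch_pos (s := 2/3) (by norm_num) (p + q)).ne'
    have := (Real.Gamma_pos_of_pos (s := 2/3) (by norm_num)).ne'
    field_simp

lemma int_gd : IntervalIntegrable gd volume 0 1 ∧
    ∫ t in (0:ℝ)..1, gd t = Real.Gamma (1/3) ^ 2 / Real.Gamma (2/3) := by
  have h := int_pq 0 0
  simpa [poch] using h

lemma int_gd_pos : 0 < ∫ t in (0:ℝ)..1, gd t := by
  rw [int_gd.2]
  have h1 := Real.Gamma_pos_of_pos (s := 1/3) (by norm_num)
  have h2 := Real.Gamma_pos_of_pos (s := 2/3) (by norm_num)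
  positivity

/-- the tail as an integral -/
lemma tail_eq (a L : ℕ) :
    tail a L = (∫ t in (0:ℝ)..1, U a L t * gd t) / ∫ t in (0:ℝ)..1, gd t := by
  rw [eq_div_iff int_gd_pos.ne']
  have h1 : ∀ t : ℝ, U a L t * gd t = ∑ k ∈ Icc (a + 1) L,
      (L.choose k : ℝ) * (t ^ k * (1 - t) ^ (L - k) * gd t) := by
    intro t
    unfold U bt
    rw [sum_mul]
    refine sum_congr rfl fun k _ => ?_
    ring
  simp_rw [h1]
  rw [intervalIntegral.integral_finsetSum fun k _ => (int_pq k (L - k)).1.const_mul _]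
  unfold tail
  rw [sum_mul]
  refine sum_congr rfl fun k hk => ?_
  rw [intervalIntegral.integral_const_mul, (int_pq k (L - k)).2, int_gd.2]
  rw [mem_Icc] at hk
  have e : k + (L - k) = L := by omega
  rw [e]
  ring

lemma U_meas (a L : ℕ) : Continuous (U a L) := by
  unfold U bt
  fun_prop

/-- **Limit of the beta-binomial tail.** -/
theorem tail_tendsto (a L : ℕ → ℕ) (x : ℝ) (hx : x ∈ Set.Icc (0:ℝ) 1)
    (hL : Tendsto L atTop atTop) (hr : Tendsto (fun n => (a n : ℝ) / L n) atTop (𝓝 x)) :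
    Tendsto (fun n => tail (a n) (L n)) atTop
      (𝓝 ((∫ t in x..1, gd t) / ∫ t in (0:ℝ)..1, gd t)) := by
  simp_rw [tail_eq]
  refine Tendsto.div_const ?_ _
  have hlim : ∫ t in x..1, gd t = ∫ t in (0:ℝ)..1, (Set.Ioc x 1).indicator gd t := by
    rw [intervalIntegral.integral_of_le hx.2, intervalIntegral.integral_of_le zero_le_one,
      setIntegral_indicator measurableSet_Ioc]
    congr 2
    ext t
    simp only [Set.mem_Ioc, Set.mem_inter_iff]
    constructor
    · intro h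
      exact ⟨⟨lt_of_le_of_lt hx.1 h.1, h.2⟩, h⟩
    · intro h
      exact h.2
  rw [hlim]
  refine intervalIntegral.tendsto_integral_filter_of_dominated_convergence gd ?_ ?_ int_gd.1 ?_
  · refine Eventually.of_forall fun n => ?_
    refine ((U_meas (a n) (L n)).aestronglyMeasurable).mul ?_
    have := int_gd.1.aestronglyMeasurable
    rwa [Set.uIoc_of_le zero_le_one]
  · refine Eventually.of_forall fun n => Eventually.of_forall fun t ht => ?_
    rw [Set.uIoc_of_le zero_le_one] at ht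
    have ht' : t ∈ Set.Icc (0:ℝ) 1 := ⟨ht.1.le, ht.2⟩
    have h1 := U_nonneg (a n) (L n) ht'
    have h2 := U_le_one (a n) (L n) ht'
    have h3 := gd_nonneg ht'
    rw [norm_mul, Real.norm_of_nonneg h1, Real.norm_of_nonneg h3]
    nlinarith
  · have h1 : ∀ᵐ t : ℝ, t ≠ x := by
      rw [ae_iff]
      simp
    filter_upwards [h1] with t htx ht
    rw [Set.uIoc_of_le zero_le_one] at ht
    have ht' : t ∈ Set.Icc (0:ℝ) 1 := ⟨ht.1.le, ht.2⟩
    have hLpos : ∀ᶠ n in atTop, 0 < L n := hL.eventually_gt_atTop 0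
    have hz : ∀ δ : ℝ, 0 < δ → Tendsto (fun n => 1 / (δ ^ 2 * (L n : ℝ))) atTop (𝓝 0) := by
      intro δ hδ
      have h2 : Tendsto (fun n => δ ^ 2 * (L n : ℝ)) atTop atTop :=
        (tendsto_natCast_atTop_atTop.comp hL).const_mul_atTop (by positivity)
      exact h2.const_div_atTop 1
    rcases lt_or_gt_of_ne htx with hlt | hgt
    · have h2 : (Set.Ioc x 1).indicator gd t = 0 := by
        rw [Set.indicator_of_notMem]
        intro h
        exact absurd h.1 (not_lt.mpr hlt.le)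
      rw [h2]
      have hδ : 0 < (x - t) / 2 := by linarith
      have hev : ∀ᶠ n in atTop, t + (x - t) / 2 < (a n : ℝ) / L n :=
        hr.eventually (lt_mem_nhds (by linarith))
      have h3 : Tendsto (fun n => U (a n) (L n) t) atTop (𝓝 0) := by
        refine squeeze_zero' (Eventually.of_forall fun n => U_nonneg _ _ ht') ?_ (hz _ hδ)
        filter_upwards [hLpos, hev] with n hn1 hn2
        exact U_small hn1 hδ ht' hn2.le
      simpa using h3.mul_const (gd t)
    · have h2 : (Set.Ioc x 1).indicator gd t = gd t := by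
        rw [Set.indicator_of_mem]
        exact ⟨hgt, ht.2⟩
      rw [h2]
      have hδ : 0 < (t - x) / 2 := by linarith
      have hev : ∀ᶠ n in atTop, (a n : ℝ) / L n < t - (t - x) / 2 :=
        hr.eventually (gt_mem_nhds (by linarith))
      have h3 : Tendsto (fun n => U (a n) (L n) t) atTop (𝓝 1) := by
        have h4 : Tendsto (fun n => 1 - 1 / (((t - x) / 2) ^ 2 * (L n : ℝ))) atTop (𝓝 1) := by
          simpa using (hz _ hδ).const_sub 1
        refine tendsto_of_tendsto_of_tendsto_of_le_of_le' h4 tendsto_const_nhds ?_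
          (Eventually.of_forall fun n => U_le_one _ _ ht')
        filter_upwards [hLpos, hev] with n hn1 hn2
        exact U_large hn1 hδ ht' (by linarith)
      simpa using h3.mul_const (gd t)

/-- **Part (D) of ROOM CARDY.** -/
theorem cardy_limit (a b : ℕ → ℕ) (x : ℝ) (hx : x ∈ Set.Icc (0:ℝ) 1)
    (hL : Tendsto (fun n => a n + b n) atTop atTop)
    (hr : Tendsto (fun n => (a n : ℝ) / ((a n : ℝ) + b n)) atTop (𝓝 x)) :
    Tendsto (fun n => ∑ k ∈ Icc (a n + 1) (a n + b n + 1),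
        ((a n + b n + 1).choose k : ℝ) * poch (1/3) k * poch (1/3) (a n + b n + 1 - k) /
          poch (2/3) (a n + b n + 1)) atTop
      (𝓝 ((∫ t in x..1, (t * (1 - t)) ^ (-(2/3) : ℝ)) /
        ∫ t in (0:ℝ)..1, (t * (1 - t)) ^ (-(2/3) : ℝ))) := by
  refine tail_tendsto a (fun n => a n + b n + 1) x hx ?_ ?_
  · exact tendsto_atTop_mono (fun n => Nat.le_succ _) hL
  · have hc : Tendsto (fun n => ((a n + b n : ℕ) : ℝ)) atTop atTop :=
      tendsto_natCast_atTop_atTop.comp hL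
    have h1 : Tendsto (fun n => 1 / (((a n + b n : ℕ) : ℝ) + 1)) atTop (𝓝 0) :=
      (tendsto_atTop_add_const_right _ 1 hc).const_div_atTop 1
    have h2 : Tendsto (fun n => (a n : ℝ) / ((a n : ℝ) + b n) *
        (1 - 1 / (((a n + b n : ℕ) : ℝ) + 1))) atTop (𝓝 (x * (1 - 0))) :=
      hr.mul (h1.const_sub 1)
    rw [sub_zero, mul_one] at h2
    refine h2.congr' ?_
    filter_upwards [hL.eventually_gt_atTop 0] with n hn
    have hn' : (0:ℝ) < (a n : ℝ) + b n := by exact_mod_cast hn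
    push_cast
    field_simp
    ring

end

end Pool.Agent.H757R2.CardyLimit
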