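import Pool.Agent.H31C.Stubs
import Pool.Agent.H757R2.CardyLimit

set_option autoImplicit false

/-! ROOM CARDY, block D in the form `S_D` of `Pool.Agent.H31C.Stubs`. -/

namespace Pool.Agent.H757R2.CardySD

open Finset Filter Topology MeasureTheory Pool.Agent.H757R2.CardyLimit

noncomputable section

lemma ris_eq (s : ℝ) (k : ℕ) : Pool.Agent.H31C.ris s k = poch s k := rfl

/-- partial sums of the law as integrals -/
lemma part_eq (L : ℕ) (s : Finset ℕ) (hs : s ⊆ range (L + 1)) :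
    ∑ k ∈ s, Pool.Agent.H31C.bw L k =
      (∫ t in (0:ℝ)..1, (∑ k ∈ s, bt L k t) * gd t) / ∫ t in (0:ℝ)..1, gd t := by
  rw [eq_div_iff int_gd_pos.ne']
  have h1 : ∀ t : ℝ, (∑ k ∈ s, bt L k t) * gd t = ∑ k ∈ s,
      (L.choose k : ℝ) * (t ^ k * (1 - t) ^ (L - k) * gd t) := by
    intro t
    unfold bt
    rw [sum_mul]
    refine sum_congr rfl fun k _ => ?_
    ring
  simp_rw [h1]
  rw [intervalIntegral.integral_finsetSum fun k _ => (int_pq k (L - k)).1.const_mul _, sum_mul]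
  refine sum_congr rfl fun k hk => ?_
  rw [intervalIntegral.integral_const_mul, (int_pq k (L - k)).2, int_gd.2]
  have h2 := hs hk
  rw [mem_range] at h2
  have e : k + (L - k) = L := by omega
  rw [e]
  unfold Pool.Agent.H31C.bw
  rw [ris_eq, ris_eq, ris_eq]
  ring

lemma total (L : ℕ) : ∑ k ∈ range (L + 1), Pool.Agent.H31C.bw L k = 1 := by
  rw [part_eq L _ (Subset.refl _)]
  simp_rw [sum_bt, one_mul]
  exact div_self int_gd_pos.ne'

lemma tail_bw (a L : ℕ) : tail a L = ∑ k ∈ Icc (a + 1) L, Pool.Agent.H31C.bw L k := rfl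

lemma lower (a L : ℕ) (h : a ≤ L) :
    ∑ k ∈ range (a + 1), Pool.Agent.H31C.bw L k = 1 - tail a L := by
  rw [tail_bw, ← total L, eq_sub_iff_add_eq]
  have e : Icc (a + 1) L = Ico (a + 1) (L + 1) := by
    ext k
    simp only [mem_Icc, mem_Ico]
    omega
  rw [e]
  exact Finset.sum_range_add_sum_Ico _ (by omega)

/-- **block D** -/
theorem s_D : Pool.Agent.H31C.S_D := by
  intro a b x hx hL hr
  have hL' : Tendsto (fun n => a n + b n) atTop atTop := by
    rw [← tendsto_natCast_atTop_iff (R := ℝ)]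
    refine hL.congr fun n => ?_
    push_cast
    rfl
  have h := cardy_limit a b x hx hL' hr
  have h1 := h.const_sub 1
  have e : ∀ t : ℝ, (t * (1 - t)) ^ (-(2:ℝ)/3) = gd t := by
    intro t
    unfold gd
    congr 1
    ring
  have hint : IntervalIntegrable gd volume 0 1 := int_gd.1
  have h2 : 1 - (∫ t in x..1, (t * (1 - t)) ^ (-(2/3) : ℝ)) / ∫ t in (0:ℝ)..1, (t * (1 - t)) ^ (-(2/3) : ℝ) =
      (∫ t in (0:ℝ)..x, (t*(1-t))^(-(2:ℝ)/3)) / ∫ t in (0:ℝ)..1, (t*(1-t))^(-(2:ℝ)/3) := by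
    simp_rw [e]
    change 1 - (∫ t in x..1, gd t) / ∫ t in (0:ℝ)..1, gd t = _
    have h3 : (∫ t in (0:ℝ)..x, gd t) + ∫ t in x..1, gd t = ∫ t in (0:ℝ)..1, gd t := by
      refine intervalIntegral.integral_add_adjacent_intervals ?_ ?_
      · refine hint.mono_set ?_
        rw [Set.uIcc_of_le hx.1, Set.uIcc_of_le zero_le_one]
        exact Set.Icc_subset_Icc_right hx.2
      · refine hint.mono_set ?_
        rw [Set.uIcc_of_le hx.2, Set.uIcc_of_le zero_le_one]
        exact Set.Icc_subset_Icc_left hx.1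
    have h4 := int_gd_pos.ne'
    rw [eq_div_iff h4, sub_mul, div_mul_cancel₀ _ h4]
    linarith
  rw [h2] at h1
  refine h1.congr fun n => ?_
  rw [lower (a n) (a n + b n + 1) (by omega)]
  rfl

end

end Pool.Agent.H757R2.CardySD
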