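import Mathlib

/-!
# Pretty good state transfer: the analytic criterion (TEAM-PGST, task ANALYTIC)
-/

namespace Pool.Agent.H757R2.PgstA

open Filter Topology Finset

/-- Mean value of an exponential. -/
lemma mean_exp (μ : ℝ) :
    Tendsto (fun T : ℝ => (T : ℂ)⁻¹ * ∫ t in (0:ℝ)..T, Complex.exp ((μ * Complex.I) * t)) atTop
      (𝓝 (if μ = 0 then 1 else 0)) := by
  by_cases h : μ = 0
  · subst h
    simp only [if_true]
    apply tendsto_const_nhds.congr'
    filter_upwards [eventually_gt_atTop 0] with T hT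
    have : (T : ℂ) ≠ 0 := by exact_mod_cast hT.ne'
    simp [this]
  · simp only [h, if_false]
    have hc : (μ * Complex.I : ℂ) ≠ 0 := by
      simp [h]
    have hb : ∀ T : ℝ, ‖∫ t in (0:ℝ)..T, Complex.exp ((μ * Complex.I) * t)‖ ≤ 2 / |μ| := by
      intro T
      rw [integral_exp_mul_complex hc]
      rw [norm_div]
      have h1 : ‖(μ * Complex.I : ℂ)‖ = |μ| := by simp
      rw [h1]
      gcongr
      calc ‖Complex.exp (μ * Complex.I * T) - Complex.exp (μ * Complex.I * (0:ℝ))‖
          ≤ ‖Complex.exp (μ * Complex.I * T)‖ + ‖Complex.exp (μ * Complex.I * (0:ℝ))‖ :=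
            norm_sub_le _ _
        _ = 2 := by
            have : ∀ x : ℝ, ‖Complex.exp (μ * Complex.I * x)‖ = 1 := by
              intro x
              rw [Complex.norm_exp]
              simp
            rw [this, this]; norm_num
    have h0 : Tendsto (fun T : ℝ => |T|⁻¹ * (2 / |μ|)) atTop (𝓝 0) := by
      have : Tendsto (fun T : ℝ => |T|⁻¹) atTop (𝓝 0) :=
        tendsto_inv_atTop_zero.comp tendsto_abs_atTop_atTop
      simpa using this.mul_const (2 / |μ|)
    apply squeeze_zero_norm _ h0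
    intro T
    rw [norm_mul, norm_inv, Complex.norm_real, Real.norm_eq_abs]
    gcongr
    exact hb T

/-- If a trigonometric polynomial is bounded by `M`, so is its mean value. -/
lemma mean_bound {J : Type*} [Fintype J] (c : J → ℂ) (μ : J → ℝ) (M : ℝ)
    (h : ∀ t : ℝ, ‖∑ j, c j * Complex.exp ((μ j * Complex.I) * t)‖ ≤ M) :
    ‖∑ j, (if μ j = 0 then c j else 0)‖ ≤ M := by
  have h1 : Tendsto (fun T : ℝ => (T : ℂ)⁻¹ *
      ∫ t in (0:ℝ)..T, ∑ j, c j * Complex.exp ((μ j * Complex.I) * t)) atTop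
      (𝓝 (∑ j, (if μ j = 0 then c j else 0))) := by
    have h2 : ∀ T : ℝ, (T : ℂ)⁻¹ *
      ∫ t in (0:ℝ)..T, ∑ j, c j * Complex.exp ((μ j * Complex.I) * t) =
      ∑ j, c j * ((T : ℂ)⁻¹ * ∫ t in (0:ℝ)..T, Complex.exp ((μ j * Complex.I) * t)) := by
      intro T
      rw [intervalIntegral.integral_finsetSum]
      · rw [Finset.mul_sum]
        apply Finset.sum_congr rfl
        intro j _
        rw [intervalIntegral.integral_const_mul]
        ring
      · intro j _
        apply Continuous.intervalIntegrable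
        fun_prop
    simp_rw [h2]
    apply tendsto_finsetSum
    intro j _
    have := (mean_exp (μ j)).const_mul (c j)
    convert this using 2
    split_ifs <;> simp
  refine le_of_tendsto h1.norm ?_
  filter_upwards [eventually_gt_atTop 0] with T hT
  rw [norm_mul, norm_inv, Complex.norm_real, Real.norm_eq_abs, abs_of_pos hT]
  have h3 := intervalIntegral.norm_integral_le_of_norm_le_const
    (f := fun t : ℝ => ∑ j, c j * Complex.exp ((μ j * Complex.I) * t)) (a := 0) (b := T) (C := M)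
    (fun t _ => h t)
  rw [sub_zero, abs_of_pos hT] at h3
  calc T⁻¹ * _ ≤ T⁻¹ * (M * T) := by gcongr
    _ = M := by field_simp

/-- counting function of a word -/
def cnt {ι : Type*} [DecidableEq ι] {k : ℕ} (a : Fin k → ι) (i : ι) : ℕ :=
  (univ.filter fun j => a j = i).card

lemma cnt_le {ι : Type*} [DecidableEq ι] {k : ℕ} (a : Fin k → ι) (i : ι) : cnt a i ≤ k := by
  unfold cnt
  calc _ ≤ (univ : Finset (Fin k)).card := card_filter_le _ _
    _ = k := by simp

lemma sum_cnt {ι : Type*} [Fintype ι] [DecidableEq ι] {k : ℕ} (a : Fin k → ι)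
    {R : Type*} [CommRing R] (g : ι → R) :
    ∑ i, (cnt a i : R) * g i = ∑ j, g (a j) := by
  unfold cnt
  have : ∀ i, (((univ.filter fun j => a j = i).card : ℕ) : R) * g i
      = ∑ j, if a j = i then g i else 0 := by
    intro i
    rw [← Finset.sum_filter, Finset.sum_const, nsmul_eq_mul]
  simp_rw [this]
  rw [Finset.sum_comm]
  simp

/-- The `⇐` direction, abstractly. -/
theorem crit_mpr {ι : Type*} [Fintype ι] [DecidableEq ι] (w : ι → ℝ) (hw : ∀ i, 0 < w i)
    (hw1 : ∑ i, w i = 1) (s : ι → ℤ) (θ : ι → ℝ)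
    (H : ∀ l : ι → ℤ, ∑ i, l i = 0 → ∑ i, (l i : ℝ) * θ i = 0 → Even (∑ i, l i * s i))
    (ε : ℝ) (hε : 0 < ε) : ∃ t : ℝ,
      1 - ε < ‖∑ i, ((w i : ℂ) * (-1) ^ (s i)) * Complex.exp ((θ i * Complex.I) * t)‖ := by
  by_contra hcon
  push Not at hcon
  set f : ℝ → ℂ := fun t => ∑ i, ((w i : ℂ) * (-1) ^ (s i)) * Complex.exp ((θ i * Complex.I) * t)
    with hf
  have hρ : ∃ ρ : ℝ, 0 < ρ ∧ ρ < 1 ∧ ∀ t, ‖f t‖ ≤ ρ := by
    refine ⟨max (1 - ε) (1/2), by positivity, ?_, fun t => (hcon t).trans (le_max_left _ _)⟩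
    apply max_lt <;> linarith
  obtain ⟨ρ, hρ0, hρ1, hfρ⟩ := hρ
  -- main inequality
  have main : ∀ k : ℕ, 1 ≤ ((k : ℝ) + 1) ^ (Fintype.card ι) * (ρ ^ 2) ^ k := by
    intro k
    -- coefficients
    let W : (Fin k → ι) → ℝ := fun a => ∏ j, w (a j)
    let C : (Fin k → ι) → ℂ := fun a => ∏ j, ((w (a j) : ℂ) * (-1) ^ (s (a j)))
    let Λ : (Fin k → ι) → ℝ := fun a => ∑ j, θ (a j)
    have hpow : ∀ t, f t ^ k = ∑ a, C a * Complex.exp ((Λ a * Complex.I) * t) := by
      intro t
      simp only [hf]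
      rw [Fintype.sum_pow]
      apply Finset.sum_congr rfl
      intro a _
      rw [Finset.prod_mul_distrib, ← Complex.exp_sum]
      congr 2
      simp only [Λ]
      push_cast
      rw [Finset.sum_mul, Finset.sum_mul]
    have hconjC : ∀ a, (starRingEnd ℂ) (C a) = C a := by
      intro a
      simp only [C, map_prod, map_mul, Complex.conj_ofReal, map_zpow₀, map_neg, map_one]
    have hconj : ∀ t, (starRingEnd ℂ) (f t ^ k)
        = ∑ b, C b * Complex.exp (((-Λ b : ℝ) * Complex.I) * t) := by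
      intro t
      rw [hpow, map_sum]
      apply Finset.sum_congr rfl
      intro b _
      rw [map_mul, hconjC, ← Complex.exp_conj]
      congr 2
      simp only [map_mul, Complex.conj_ofReal, Complex.conj_I]
      push_cast
      ring
    have hprod : ∀ t, f t ^ k * (starRingEnd ℂ) (f t ^ k) =
        ∑ p : (Fin k → ι) × (Fin k → ι), (C p.1 * C p.2) *
          Complex.exp (((Λ p.1 - Λ p.2 : ℝ) * Complex.I) * t) := by
      intro t
      rw [hconj, hpow, Finset.sum_mul_sum, Fintype.sum_prod_type]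
      apply Finset.sum_congr rfl
      intro a _
      apply Finset.sum_congr rfl
      intro b _
      have : Complex.exp (((Λ a - Λ b : ℝ) * Complex.I) * t) =
          Complex.exp ((Λ a * Complex.I) * t) * Complex.exp (((-Λ b : ℝ) * Complex.I) * t) := by
        rw [← Complex.exp_add]
        congr 1
        push_cast
        ring
      simp only [this]
      ring
    have hb := mean_bound (fun p : (Fin k → ι) × (Fin k → ι) => C p.1 * C p.2)
      (fun p => Λ p.1 - Λ p.2) ((ρ ^ 2) ^ k) (by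
        intro t
        rw [← hprod, norm_mul, RCLike.norm_conj, norm_pow, ← mul_pow, ← sq]
        have := hfρ t
        gcongr)
    -- identify the coefficients
    have hcoef : ∀ p : (Fin k → ι) × (Fin k → ι), Λ p.1 - Λ p.2 = 0 →
        C p.1 * C p.2 = ((W p.1 * W p.2 : ℝ) : ℂ) := by
      rintro ⟨a, b⟩ hab
      simp only at hab ⊢
      have hl := H (fun i => (cnt a i : ℤ) - cnt b i) (by
          have h1 := sum_cnt a (fun _ => (1 : ℤ))
          have h2 := sum_cnt b (fun _ => (1 : ℤ))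
          simp only [mul_one] at h1 h2
          rw [Finset.sum_sub_distrib, h1, h2]; simp) (by
          have h1 := sum_cnt a θ
          have h2 := sum_cnt b θ
          push_cast
          simp only [sub_mul]
          rw [Finset.sum_sub_distrib, h1, h2]; exact hab)
      have h1 := sum_cnt a s
      have h2 := sum_cnt b s
      simp only [sub_mul] at hl
      rw [Finset.sum_sub_distrib] at hl
      rw [h1, h2] at hl
      have hCa : ∀ a, C a = (W a : ℂ) * (-1) ^ (∑ j, s (a j)) := by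
        intro a
        simp only [C, W]
        rw [Finset.prod_mul_distrib]
        push_cast
        congr 1
        induction (univ : Finset (Fin k)) using Finset.induction_on with
        | empty => simp
        | insert x S hx ih =>
          rw [Finset.prod_insert hx, Finset.sum_insert hx, ih, zpow_add₀ (by norm_num)]
      rw [hCa, hCa]
      have hev : Even (∑ j, s (a j) + ∑ j, s (b j)) := by
        have : ∑ j, s (a j) + ∑ j, s (b j)
          = (∑ j, s (a j) - ∑ j, s (b j)) + (∑ j, s (b j) + ∑ j, s (b j)) := by ring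
        rw [this]
        exact hl.add (Even.add_self _)
      have : ((-1 : ℂ)) ^ (∑ j, s (a j)) * (-1) ^ (∑ j, s (b j)) = 1 := by
        rw [← zpow_add₀ (by norm_num)]
        exact hev.neg_one_zpow
      calc (W a : ℂ) * (-1) ^ (∑ j, s (a j)) * ((W b : ℂ) * (-1) ^ (∑ j, s (b j)))
          = (W a * W b : ℂ) * ((-1) ^ (∑ j, s (a j)) * (-1) ^ (∑ j, s (b j))) := by ring
        _ = _ := by rw [this]; push_cast; ring
    have hsum : (∑ p : (Fin k → ι) × (Fin k → ι), if Λ p.1 - Λ p.2 = 0 then C p.1 * C p.2 else 0)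
        = ((∑ p : (Fin k → ι) × (Fin k → ι), if Λ p.1 - Λ p.2 = 0 then W p.1 * W p.2 else 0 : ℝ)
          : ℂ) := by
      rw [Complex.ofReal_sum]
      apply Finset.sum_congr rfl
      intro p _
      split_ifs with h
      · exact hcoef p h
      · simp
    have hWpos : ∀ a, 0 < W a := fun a => Finset.prod_pos fun j _ => hw _
    rw [hsum, Complex.norm_real, Real.norm_eq_abs] at hb
    have hb2 := (le_abs_self _).trans hb
    -- lower bound
    let c : (Fin k → ι) → (ι → Fin (k + 1)) := fun a i => ⟨cnt a i, Nat.lt_succ_of_le (cnt_le a i)⟩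
    have hcΛ : ∀ a b, c a = c b → Λ a = Λ b := by
      intro a b hab
      have : ∀ i, cnt a i = cnt b i := by
        intro i
        have := congrFun hab i
        simpa [c] using this
      simp only [Λ]
      rw [← sum_cnt a θ, ← sum_cnt b θ]
      simp [this]
    have hWsum : ∑ a, W a = 1 := by
      have := (Fintype.sum_pow w k)
      rw [hw1, one_pow] at this
      exact this.symm
    have hfib : ∑ a, W a = ∑ x : ι → Fin (k + 1), ∑ a ∈ univ.filter (fun a => c a = x), W a := by
      rw [Finset.sum_fiberwise]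
    have hCS : (1 : ℝ) ≤ ((k : ℝ) + 1) ^ (Fintype.card ι) *
        ∑ x : ι → Fin (k + 1), (∑ a ∈ univ.filter (fun a => c a = x), W a) ^ 2 := by
      have := sq_sum_le_card_mul_sum_sq (s := (univ : Finset (ι → Fin (k + 1))))
        (f := fun x => ∑ a ∈ univ.filter (fun a => c a = x), W a)
      rw [← hfib, hWsum, one_pow] at this
      simpa using this
    have hlow : ∑ x : ι → Fin (k + 1), (∑ a ∈ univ.filter (fun a => c a = x), W a) ^ 2 ≤
        ∑ p : (Fin k → ι) × (Fin k → ι), (if Λ p.1 - Λ p.2 = 0 then W p.1 * W p.2 else 0) := by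
      have h1 : ∑ x : ι → Fin (k + 1), (∑ a ∈ univ.filter (fun a => c a = x), W a) ^ 2 =
          ∑ p : (Fin k → ι) × (Fin k → ι), (if c p.1 = c p.2 then W p.1 * W p.2 else 0) := by
        rw [Fintype.sum_prod_type]
        simp_rw [sq, Finset.sum_mul_sum]
        simp_rw [Finset.sum_filter]
        rw [Finset.sum_comm]
        apply Finset.sum_congr rfl
        intro a _
        simp only [Finset.sum_ite_eq, Finset.mem_univ, if_true]
        apply Finset.sum_congr rfl
        intro b _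
        simp [eq_comm]
      rw [h1]
      apply Finset.sum_le_sum
      intro p _
      have hpp : 0 < W p.1 * W p.2 := mul_pos (hWpos _) (hWpos _)
      split_ifs with h2 h3 h3
      · exact le_rfl
      · exact absurd (sub_eq_zero.mpr (hcΛ _ _ h2)) h3
      · exact hpp.le
      · exact le_rfl
    calc (1 : ℝ) ≤ _ := hCS
      _ ≤ _ := by
        gcongr
        exact hlow.trans hb2
  -- contradiction
  have hlim := tendsto_pow_const_mul_const_pow_of_abs_lt_one (Fintype.card ι) (r := ρ ^ 2) (by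
    rw [abs_of_pos (by positivity)]
    nlinarith)
  have hlim2 := (tendsto_add_atTop_iff_nat 1).mpr hlim
  have hge : ∀ k : ℕ, ρ ^ 2 ≤ ((k + 1 : ℕ) : ℝ) ^ (Fintype.card ι) * (ρ ^ 2) ^ (k + 1) := by
    intro k
    have := main k
    push_cast
    calc ρ ^ 2 = 1 * ρ ^ 2 := by ring
      _ ≤ (((k : ℝ) + 1) ^ (Fintype.card ι) * (ρ ^ 2) ^ k) * ρ ^ 2 := by gcongr
      _ = _ := by ring
  have := ge_of_tendsto' hlim2 hge
  nlinarith [sq_pos_of_pos hρ0]

/-- The `⇒` direction, abstractly. -/
theorem crit_mp {ι : Type*} [Fintype ι] [DecidableEq ι] (w : ι → ℝ) (hw : ∀ i, 0 < w i)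
    (hw1 : ∑ i, w i = 1) (s : ι → ℤ) (θ : ι → ℝ)
    (H : ∀ ε : ℝ, 0 < ε → ∃ t : ℝ,
      1 - ε < ‖∑ i, ((w i : ℂ) * (-1) ^ (s i)) * Complex.exp ((θ i * Complex.I) * t)‖)
    (l : ι → ℤ) (hl : ∑ i, l i = 0) (hlθ : ∑ i, (l i : ℝ) * θ i = 0) :
    Even (∑ i, l i * s i) := by
  choose t ht using fun k : ℕ => H (1 / (k + 1)) (by positivity)
  set f : ℝ → ℂ := fun t => ∑ i, ((w i : ℂ) * (-1) ^ (s i)) * Complex.exp ((θ i * Complex.I) * t)
    with hf
  let ζ : ι → ℕ → ℂ := fun i k => (-1) ^ (s i) * Complex.exp ((θ i * Complex.I) * t k)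
  have hζ : ∀ i k, ‖ζ i k‖ = 1 := by
    intro i k
    simp only [ζ]
    rw [norm_mul, norm_zpow, norm_neg, norm_one, one_zpow, one_mul, Complex.norm_exp]
    simp
  let u : ℕ → ℂ := fun k => if f (t k) = 0 then 1 else f (t k) / ‖f (t k)‖
  have hu : ∀ k, ‖u k‖ = 1 := by
    intro k
    simp only [u]
    split_ifs with h
    · simp
    · rw [norm_div]
      simp [h]
  have huf : ∀ k, (starRingEnd ℂ) (u k) * f (t k) = ‖f (t k)‖ := by
    intro k
    simp only [u]
    split_ifs with h
    · simp [h]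
    · rw [map_div₀, Complex.conj_ofReal, div_mul_eq_mul_div, mul_comm, Complex.mul_conj,
        Complex.normSq_eq_norm_sq]
      have : (‖f (t k)‖ : ℂ) ≠ 0 := by simpa using h
      push_cast
      field_simp
  -- the real parts
  have hre : ∀ k, ∑ i, w i * (1 - ((starRingEnd ℂ) (u k) * ζ i k).re) = 1 - ‖f (t k)‖ := by
    intro k
    have h1 : ((starRingEnd ℂ) (u k) * f (t k)).re = ∑ i, w i * ((starRingEnd ℂ) (u k) * ζ i k).re := by
      simp only [hf, Finset.mul_sum, Complex.re_sum]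
      apply Finset.sum_congr rfl
      intro i _
      have : (starRingEnd ℂ) (u k) * ((w i : ℂ) * (-1) ^ (s i) *
          Complex.exp ((θ i * Complex.I) * t k))
          = (w i : ℂ) * ((starRingEnd ℂ) (u k) * ζ i k) := by
        simp only [ζ]; ring
      rw [this, Complex.re_ofReal_mul]
    rw [huf, Complex.ofReal_re] at h1
    simp_rw [mul_sub]
    rw [Finset.sum_sub_distrib, ← h1]
    simp [hw1]
  have hre1 : ∀ i k, ((starRingEnd ℂ) (u k) * ζ i k).re ≤ 1 := by
    intro i k
    calc _ ≤ ‖(starRingEnd ℂ) (u k) * ζ i k‖ := Complex.re_le_norm _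
      _ = 1 := by rw [norm_mul, RCLike.norm_conj, hu, hζ]; norm_num
  have hterm : ∀ i k, w i * (1 - ((starRingEnd ℂ) (u k) * ζ i k).re) ≤ 1 / ((k : ℝ) + 1) := by
    intro i k
    have h1 : w i * (1 - ((starRingEnd ℂ) (u k) * ζ i k).re)
        ≤ ∑ i, w i * (1 - ((starRingEnd ℂ) (u k) * ζ i k).re) := by
      apply Finset.single_le_sum (f := fun i => w i * (1 - ((starRingEnd ℂ) (u k) * ζ i k).re))
        _ (Finset.mem_univ i)
      intro j _
      exact mul_nonneg (hw j).le (sub_nonneg.mpr (hre1 j k))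
    rw [hre] at h1
    have h2 : 1 - 1 / ((k : ℝ) + 1) < ‖f (t k)‖ := ht k
    linarith
  have hquot : ∀ i, Tendsto (fun k => ζ i k / u k) atTop (𝓝 1) := by
    intro i
    rw [tendsto_iff_norm_sub_tendsto_zero]
    have hsq : ∀ k, ‖ζ i k / u k - 1‖ ^ 2 = 2 * (1 - ((starRingEnd ℂ) (u k) * ζ i k).re) := by
      intro k
      have hinv : (u k)⁻¹ = (starRingEnd ℂ) (u k) := by
        rw [Complex.inv_def, Complex.normSq_eq_norm_sq, hu]; simp
      rw [div_eq_mul_inv, hinv, mul_comm (ζ i k)]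
      set x := (starRingEnd ℂ) (u k) * ζ i k with hx
      have hx1 : ‖x‖ = 1 := by rw [hx, norm_mul, RCLike.norm_conj, hu, hζ]; norm_num
      rw [← Complex.normSq_eq_norm_sq, Complex.normSq_sub, Complex.normSq_eq_norm_sq, hx1]
      simp
      ring
    have hle : ∀ k, ‖ζ i k / u k - 1‖ ^ 2 ≤ (2 / w i) * (1 / ((k : ℝ) + 1)) := by
      intro k
      rw [hsq]
      have := hterm i k
      have hwi := hw i
      rw [div_mul_eq_mul_div, le_div_iff₀ hwi]
      nlinarith
    have h0 : Tendsto (fun k : ℕ => (2 / w i) * (1 / ((k : ℝ) + 1))) atTop (𝓝 0) := by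
      simpa using tendsto_one_div_add_atTop_nhds_zero_nat.const_mul (2 / w i)
    have hs0 : Tendsto (fun k => ‖ζ i k / u k - 1‖ ^ 2) atTop (𝓝 0) :=
      squeeze_zero (fun k => by positivity) hle h0
    have := (Real.continuous_sqrt.tendsto 0).comp hs0
    simpa [Function.comp_def, Real.sqrt_sq] using this
  -- product
  have hprod : Tendsto (fun k => ∏ i, (ζ i k / u k) ^ (l i)) atTop (𝓝 (∏ i : ι, (1 : ℂ) ^ (l i))) := by
    apply tendsto_finsetProd
    intro i _
    exact (hquot i).zpow₀ _ (Or.inl one_ne_zero)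
  have hval : ∀ k, ∏ i, (ζ i k / u k) ^ (l i) = (-1) ^ (∑ i, l i * s i) := by
    intro k
    have hu0 : u k ≠ 0 := by
      intro h; have := hu k; rw [h] at this; simp at this
    simp_rw [div_zpow]
    rw [Finset.prod_div_distrib]
    have h1 : ∏ i, u k ^ (l i) = 1 := by
      have : ∀ S : Finset ι, ∏ i ∈ S, u k ^ (l i) = u k ^ (∑ i ∈ S, l i) := by
        intro S
        induction S using Finset.induction_on with
        | empty => simp
        | insert x S hx ih => rw [Finset.prod_insert hx, Finset.sum_insert hx, ih, zpow_add₀ hu0]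
      rw [this, hl, zpow_zero]
    rw [h1, div_one]
    simp only [ζ]
    simp_rw [mul_zpow]
    rw [Finset.prod_mul_distrib]
    have h2 : ∏ i, Complex.exp ((θ i * Complex.I) * t k) ^ (l i) = 1 := by
      simp_rw [← Complex.exp_int_mul]
      rw [← Complex.exp_sum]
      have : ∑ i, (l i : ℂ) * ((θ i * Complex.I) * t k)
          = ((∑ i, (l i : ℝ) * θ i : ℝ) : ℂ) * (Complex.I * t k) := by
        push_cast
        rw [Finset.sum_mul]
        apply Finset.sum_congr rfl
        intro i _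
        ring
      rw [this, hlθ]
      simp
    rw [h2, mul_one]
    have : ∀ S : Finset ι, ∏ i ∈ S, ((-1 : ℂ) ^ (s i)) ^ (l i) = (-1) ^ (∑ i ∈ S, l i * s i) := by
      intro S
      induction S using Finset.induction_on with
      | empty => simp
      | insert x S hx ih =>
        rw [Finset.prod_insert hx, Finset.sum_insert hx, ih, zpow_add₀ (by norm_num), ← zpow_mul,
          mul_comm (s x)]
    exact this univ
  simp_rw [hval] at hprod
  have h1 : (1 : ℂ) = (-1) ^ (∑ i, l i * s i) := by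
    have := tendsto_nhds_unique hprod tendsto_const_nhds
    simpa using this
  by_contra hodd
  rw [Int.not_even_iff_odd] at hodd
  rw [hodd.neg_one_zpow] at h1
  norm_num at h1

/-- Matrix exponential on an eigenvector. -/
lemma exp_mulVec_eig {n : ℕ} (M : Matrix (Fin n) (Fin n) ℂ) (w : Fin n → ℂ) (c : ℂ)
    (h : M.mulVec w = c • w) : (NormedSpace.exp M).mulVec w = Complex.exp c • w := by
  open scoped Matrix.Norms.Operator in
  have hpow : ∀ k : ℕ, (M ^ k).mulVec w = c ^ k • w := by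
    intro k
    induction k with
    | zero => simp
    | succ k ih =>
      rw [pow_succ, ← Matrix.mulVec_mulVec, h, Matrix.mulVec_smul, ih, smul_smul, pow_succ, mul_comm]
  open scoped Matrix.Norms.Operator in
  have hs := NormedSpace.exp_series_hasSum_exp' (𝕂 := ℂ) M
  let L : Matrix (Fin n) (Fin n) ℂ →ₗ[ℂ] (Fin n → ℂ) :=
    { toFun := fun N => N.mulVec w
      map_add' := fun a b => Matrix.add_mulVec a b w
      map_smul' := fun a b => by simp [Matrix.smul_mulVec] }
  have hL : Continuous L := LinearMap.continuous_of_finiteDimensional L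
  have h1 := hs.map L hL
  have h2 : HasSum (fun k : ℕ => ((k.factorial : ℂ)⁻¹ * c ^ k) • w) (Complex.exp c • w) := by
    have := NormedSpace.exp_series_hasSum_exp' (𝕂 := ℂ) c
    rw [← Complex.exp_eq_exp_ℂ] at this
    exact this.smul_const w
  have h3 : (L ∘ fun k : ℕ => ((k.factorial : ℂ)⁻¹ • M ^ k)) =
      fun k : ℕ => ((k.factorial : ℂ)⁻¹ * c ^ k) • w := by
    funext k
    simp only [Function.comp, map_smul]
    show (k.factorial : ℂ)⁻¹ • (M ^ k).mulVec w = _
    rw [hpow, smul_smul]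
  rw [h3] at h1
  exact h1.unique h2

/-- The quadratic form on a sum of pairwise orthogonal real vectors. -/
lemma orth_sum {n m : ℕ} (y : Fin m → Fin n → ℝ) (h : ∀ i j, i ≠ j → y i ⬝ᵥ y j = 0)
    (g : Fin m → ℂ) :
    (∑ i, fun k => (y i k : ℂ)) ⬝ᵥ (∑ j, g j • fun k => (y j k : ℂ)) =
      ∑ i, g i * ((y i ⬝ᵥ y i : ℝ) : ℂ) := by
  rw [sum_dotProduct]
  apply Finset.sum_congr rfl
  intro i _
  rw [dotProduct_sum, Finset.sum_eq_single i]
  · rw [dotProduct_smul, smul_eq_mul]
    congr 1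
    simp [dotProduct]
  · intro j _ hj
    rw [dotProduct_smul]
    have h1 := h i j (Ne.symm hj)
    have h2 : (fun k => (y i k : ℂ)) ⬝ᵥ (fun k => (y j k : ℂ)) = ((y i ⬝ᵥ y j : ℝ) : ℂ) := by
      simp [dotProduct]
    rw [h2, h1]; simp
  · simp

open scoped Matrix in
theorem pgst_criterion {n : ℕ} (A : Matrix (Fin n) (Fin n) ℝ) (hA : A.IsSymm) (u v : Fin n)
    (huv : u ≠ v) {m₀ m₁ : ℕ} (θ : Fin m₀ ⊕ Fin m₁ → ℝ) (z : Fin m₀ ⊕ Fin m₁ → Fin n → ℝ)
    (h0 : Function.Injective fun i => θ (Sum.inl i)) (h1 : Function.Injective fun i => θ (Sum.inr i))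
    (hz : ∀ i, z i ≠ 0) (hev : ∀ i, A.mulVec (z i) = θ i • z i)
    (hp : ∑ i, z (Sum.inl i) = Pi.single u 1 + Pi.single v 1)
    (hm : ∑ i, z (Sum.inr i) = Pi.single u 1 - Pi.single v 1) :
    (∀ ε : ℝ, 0 < ε → ∃ t : ℝ,
      1 - ε < ‖(NormedSpace.exp ((Complex.I * (t : ℂ)) • A.map (fun x : ℝ => (x : ℂ))) :
        Matrix (Fin n) (Fin n) ℂ) u v‖) ↔
    ∀ l : Fin m₀ ⊕ Fin m₁ → ℤ, ∑ i, l i = 0 → ∑ i, (l i : ℝ) * θ i = 0 →
      Even (∑ i, l (Sum.inr i)) := by
  -- orthogonality
  have horth : ∀ i j, θ i ≠ θ j → z i ⬝ᵥ z j = 0 := by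
    intro i j hij
    have e1 : (A.mulVec (z i)) ⬝ᵥ z j = z i ⬝ᵥ (A.mulVec (z j)) := by
      rw [Matrix.dotProduct_mulVec, ← Matrix.mulVec_transpose, hA.eq]
    rw [hev, hev, smul_dotProduct, dotProduct_smul, smul_eq_mul, smul_eq_mul] at e1
    have : (θ i - θ j) * (z i ⬝ᵥ z j) = 0 := by linarith
    rcases mul_eq_zero.mp this with h | h
    · exact absurd (sub_eq_zero.mp h) hij
    · exact h
  have ho0 : ∀ i j : Fin m₀, i ≠ j → z (Sum.inl i) ⬝ᵥ z (Sum.inl j) = 0 :=
    fun i j hij => horth _ _ fun h => hij (h0 h)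
  have ho1 : ∀ i j : Fin m₁, i ≠ j → z (Sum.inr i) ⬝ᵥ z (Sum.inr j) = 0 :=
    fun i j hij => horth _ _ fun h => hij (h1 h)
  set w : Fin m₀ ⊕ Fin m₁ → ℝ := fun i => (z i ⬝ᵥ z i) / 4 with hw
  have hwpos : ∀ i, 0 < w i := by
    intro i
    have h2 : 0 ≤ z i ⬝ᵥ z i := by
      simp only [dotProduct]
      exact Finset.sum_nonneg fun k _ => mul_self_nonneg _
    have h3 : z i ⬝ᵥ z i ≠ 0 := by
      intro h
      exact hz i (dotProduct_self_eq_zero.mp h)
    have : 0 < z i ⬝ᵥ z i := lt_of_le_of_ne h2 (Ne.symm h3)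
    simp only [hw]
    positivity
  let s : Fin m₀ ⊕ Fin m₁ → ℤ := Sum.elim (fun _ => 0) (fun _ => 1)
  -- complex vectors
  have hpc : (∑ i, fun k => (z (Sum.inl i) k : ℂ)) = (Pi.single u 1 + Pi.single v 1 : Fin n → ℂ) := by
    funext k
    have := congrFun hp k
    rw [Finset.sum_apply] at this ⊢
    have h2 := congrArg (fun x : ℝ => (x : ℂ)) this
    simp only [Pi.add_apply] at h2 ⊢
    push_cast at h2
    rw [h2]
    simp only [Pi.single_apply]
    split_ifs <;> simp
  have hmc : (∑ i, fun k => (z (Sum.inr i) k : ℂ)) = (Pi.single u 1 - Pi.single v 1 : Fin n → ℂ) := by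
    funext k
    have := congrFun hm k
    rw [Finset.sum_apply] at this ⊢
    have h2 := congrArg (fun x : ℝ => (x : ℂ)) this
    simp only [Pi.sub_apply] at h2 ⊢
    push_cast at h2
    rw [h2]
    simp only [Pi.single_apply]
    split_ifs <;> simp
  have key : ∀ (M : Matrix (Fin n) (Fin n) ℂ) (g : Fin m₀ ⊕ Fin m₁ → ℂ), Mᵀ = M →
      (∀ i, M.mulVec (fun k => (z i k : ℂ)) = g i • (fun k => (z i k : ℂ))) →
      M u v = ∑ i, ((w i : ℂ) * (-1) ^ (s i)) * g i := by
    intro M g hMt hMg
    have e1 := orth_sum (fun i => z (Sum.inl i)) ho0 (fun i => g (Sum.inl i))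
    have e2 := orth_sum (fun i => z (Sum.inr i)) ho1 (fun i => g (Sum.inr i))
    simp_rw [← hMg] at e1 e2
    rw [← Matrix.mulVec_sum, hpc] at e1
    rw [← Matrix.mulVec_sum, hmc] at e2
    have hsym : M v u = M u v := by
      conv_lhs => rw [← hMt]
      rfl
    have e3 : (Pi.single u 1 + Pi.single v 1 : Fin n → ℂ) ⬝ᵥ
        (M.mulVec (Pi.single u 1 + Pi.single v 1)) = M u u + M u v + M v u + M v v := by
      rw [Matrix.mulVec_add, add_dotProduct, dotProduct_add, dotProduct_add]
      simp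
      ring
    have e4 : (Pi.single u 1 - Pi.single v 1 : Fin n → ℂ) ⬝ᵥ
        (M.mulVec (Pi.single u 1 - Pi.single v 1)) = M u u - M u v - M v u + M v v := by
      rw [Matrix.mulVec_sub, sub_dotProduct, dotProduct_sub, dotProduct_sub]
      simp
      ring
    rw [e3] at e1
    rw [e4] at e2
    rw [Fintype.sum_sum_type]
    have e5 : ∑ i : Fin m₀, ((w (Sum.inl i) : ℂ) * (-1) ^ (s (Sum.inl i))) * g (Sum.inl i)
        = (M u u + M u v + M v u + M v v) / 4 := by
      rw [e1, Finset.sum_div]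
      apply Finset.sum_congr rfl
      intro i _
      simp only [hw, s, Sum.elim_inl, zpow_zero]
      push_cast
      ring
    have e6 : ∑ i : Fin m₁, ((w (Sum.inr i) : ℂ) * (-1) ^ (s (Sum.inr i))) * g (Sum.inr i)
        = -(M u u - M u v - M v u + M v v) / 4 := by
      rw [e2, neg_div, Finset.sum_div, ← Finset.sum_neg_distrib]
      apply Finset.sum_congr rfl
      intro i _
      simp only [hw, s, Sum.elim_inr, zpow_one]
      push_cast
      ring
    rw [e5, e6, hsym]
    ring
  -- total mass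
  have hw1 : ∑ i, w i = 1 := by
    have e1 := orth_sum (fun i => z (Sum.inl i)) ho0 (fun _ => 1)
    have e2 := orth_sum (fun i => z (Sum.inr i)) ho1 (fun _ => 1)
    simp only [one_smul, one_mul] at e1 e2
    rw [hpc] at e1
    rw [hmc] at e2
    have e3 : (Pi.single u 1 + Pi.single v 1 : Fin n → ℂ) ⬝ᵥ (Pi.single u 1 + Pi.single v 1) = 2 := by
      rw [add_dotProduct, dotProduct_add, dotProduct_add]
      simp [huv, huv.symm]
      norm_num
    have e4 : (Pi.single u 1 - Pi.single v 1 : Fin n → ℂ) ⬝ᵥ (Pi.single u 1 - Pi.single v 1) = 2 := by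
      rw [sub_dotProduct, dotProduct_sub, dotProduct_sub]
      simp [huv, huv.symm]
      norm_num
    rw [e3] at e1
    rw [e4] at e2
    have e5 : ∑ i : Fin m₀, z (Sum.inl i) ⬝ᵥ z (Sum.inl i) = 2 := by
      have : ((∑ i : Fin m₀, z (Sum.inl i) ⬝ᵥ z (Sum.inl i) : ℝ) : ℂ) = (2 : ℝ) := by
        push_cast
        exact e1.symm
      exact_mod_cast this
    have e6 : ∑ i : Fin m₁, z (Sum.inr i) ⬝ᵥ z (Sum.inr i) = 2 := by
      have : ((∑ i : Fin m₁, z (Sum.inr i) ⬝ᵥ z (Sum.inr i) : ℝ) : ℂ) = (2 : ℝ) := by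
        push_cast
        exact e2.symm
      exact_mod_cast this
    rw [Fintype.sum_sum_type]
    simp only [hw]
    rw [← Finset.sum_div, ← Finset.sum_div, e5, e6]
    norm_num
  -- the entry of the transition matrix
  have hU : ∀ t : ℝ, (NormedSpace.exp ((Complex.I * (t : ℂ)) • A.map (fun x : ℝ => (x : ℂ))) :
        Matrix (Fin n) (Fin n) ℂ) u v =
      ∑ i, ((w i : ℂ) * (-1) ^ (s i)) * Complex.exp ((θ i * Complex.I) * t) := by
    intro t
    apply key
    · rw [← Matrix.exp_transpose, Matrix.transpose_smul, ← Matrix.transpose_map, hA.eq]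
    · intro i
      apply exp_mulVec_eig
      rw [Matrix.smul_mulVec]
      have : (A.map (fun x : ℝ => (x : ℂ))).mulVec (fun k => (z i k : ℂ)) =
          (θ i : ℂ) • (fun k => (z i k : ℂ)) := by
        funext k
        have h2 := congrArg (fun x : ℝ => (x : ℂ)) (congrFun (hev i) k)
        simp only [Matrix.mulVec, dotProduct, Pi.smul_apply, smul_eq_mul] at h2 ⊢
        push_cast at h2
        simpa using h2
      rw [this, smul_smul]
      congr 1
      ring
  have hlast : ∀ l : Fin m₀ ⊕ Fin m₁ → ℤ, ∑ i, l i * s i = ∑ i, l (Sum.inr i) := by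
    intro l
    rw [Fintype.sum_sum_type]
    simp [s]
  simp_rw [hU]
  constructor
  · intro H l hl hlθ
    rw [← hlast]
    exact crit_mp w hwpos hw1 s θ H l hl hlθ
  · intro H ε hε
    apply crit_mpr w hwpos hw1 s θ _ ε hε
    intro l hl hlθ
    rw [hlast]
    exact H l hl hlθ

end Pool.Agent.H757R2.PgstA
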