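import Pool.Agent.H757R2.PgstGalois2

/-!
# The Galois-theoretic core, final form (TEAM-PGST, task GALOIS)
-/

namespace Pool.Agent.H757R2.PgstG

open Polynomial Matrix Finset
open Pool.Agent.H687R2.Pgst (bvand)

theorem galois_core {m₀ m₁ : ℕ} (P₀ P₁ : Polynomial ℤ) (θ₀ : Fin m₀ → ℝ) (θ₁ : Fin m₁ → ℝ)
    (h₀ : P₀.map (Int.castRingHom ℝ) = ∏ i, (X - C (θ₀ i)))
    (h₁ : P₁.map (Int.castRingHom ℝ) = ∏ i, (X - C (θ₁ i)))
    (inj₀ : Function.Injective θ₀) (inj₁ : Function.Injective θ₁)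
    (r : ℕ) (hr₀ : ∀ i, |θ₀ i| ≤ 2 ^ r) (hr₁ : ∀ i, |θ₁ i| ≤ 2 ^ r) :
    ∃ M C N : Matrix (Fin m₀ ⊕ Fin m₁) (Fin m₀ ⊕ Fin m₁) ℤ,
      (∀ i j, |M i j| ≤ 2 ^ (10 * (m₀ + m₁ + 1) ^ 3 * (r + 1))) ∧
      (∀ i j, |C i j| ≤ 2 ^ (10 * (m₀ + m₁ + 1) ^ 3 * (r + 1))) ∧
      (∀ i j, |N i j| ≤ 2 ^ (10 * (m₀ + m₁ + 1) ^ 3 * (r + 1))) ∧
      (M.map (Int.cast : ℤ → ℝ) =
        bvand θ₀ θ₁ * C.map (Int.cast : ℤ → ℝ) * (bvand θ₀ θ₁).transpose) ∧
      (∀ i, ∑ j, (M i j : ℝ) * Sum.elim θ₀ θ₁ j = 0) ∧ (∀ i, ∑ j, M i j = 0) ∧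
      (∀ w : Fin m₀ ⊕ Fin m₁ → ℤ, (∀ i, ∑ j, M i j * w j = 0) →
        ∃ y : Fin m₀ ⊕ Fin m₁ → ℝ, ∀ i, (w i : ℝ) = ∑ j, (N i j : ℝ) * y j) ∧
      (∀ l : Fin m₀ ⊕ Fin m₁ → ℤ, ∑ i, l i = 0 → ∑ i, (l i : ℝ) * Sum.elim θ₀ θ₁ i = 0 →
        ∀ j, ∑ i, l i * N i j = 0) := by
  classical
  have hinjR : Function.Injective (Int.castRingHom ℝ) := Int.cast_injective
  have hmon₀ : P₀.Monic := by
    apply monic_of_injective hinjR
    rw [h₀]; exact monic_prod_of_monic _ _ fun i _ => monic_X_sub_C _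
  have hmon₁ : P₁.Monic := by
    apply monic_of_injective hinjR
    rw [h₁]; exact monic_prod_of_monic _ _ fun i _ => monic_X_sub_C _
  set θ : Fin m₀ ⊕ Fin m₁ → ℝ := Sum.elim θ₀ θ₁ with hθ
  have hroot₀ : ∀ i, aeval (θ₀ i) P₀ = 0 := by
    intro i
    rw [aeval_def, eval₂_eq_eval_map]
    have : (algebraMap ℤ ℝ) = Int.castRingHom ℝ := rfl
    rw [this, h₀, eval_prod]
    exact Finset.prod_eq_zero (Finset.mem_univ i) (by simp)
  have hroot₁ : ∀ i, aeval (θ₁ i) P₁ = 0 := by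
    intro i
    rw [aeval_def, eval₂_eq_eval_map]
    have : (algebraMap ℤ ℝ) = Int.castRingHom ℝ := rfl
    rw [this, h₁, eval_prod]
    exact Finset.prod_eq_zero (Finset.mem_univ i) (by simp)
  have hroots₀ : ∀ x : ℝ, aeval x P₀ = 0 → ∃ i, x = θ₀ i := by
    intro x hx
    rw [aeval_def, eval₂_eq_eval_map] at hx
    have : (algebraMap ℤ ℝ) = Int.castRingHom ℝ := rfl
    rw [this, h₀, eval_prod] at hx
    obtain ⟨i, _, hi⟩ := Finset.prod_eq_zero_iff.mp hx
    refine ⟨i, ?_⟩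
    simp at hi
    linarith
  have hroots₁ : ∀ x : ℝ, aeval x P₁ = 0 → ∃ i, x = θ₁ i := by
    intro x hx
    rw [aeval_def, eval₂_eq_eval_map] at hx
    have : (algebraMap ℤ ℝ) = Int.castRingHom ℝ := rfl
    rw [this, h₁, eval_prod] at hx
    obtain ⟨i, _, hi⟩ := Finset.prod_eq_zero_iff.mp hx
    refine ⟨i, ?_⟩
    simp at hi
    linarith
  set p : ℚ[X] := (P₀ * P₁).map (Int.castRingHom ℚ) with hp
  have hp0 : p ≠ 0 := ((hmon₀.mul hmon₁).map _).ne_zero
  have hpR : p.map (algebraMap ℚ ℝ) = (∏ i, (X - C (θ₀ i))) * ∏ i, (X - C (θ₁ i)) := by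
    rw [hp, Polynomial.map_map, Polynomial.map_mul]
    have : (algebraMap ℚ ℝ).comp (Int.castRingHom ℚ) = Int.castRingHom ℝ := RingHom.ext_int _ _
    rw [this, h₀, h₁]
  have hsp : (p.map (algebraMap ℚ ℝ)).Splits := by
    rw [hpR]
    exact (Splits.prod fun i _ => Splits.X_sub_C _).mul (Splits.prod fun i _ => Splits.X_sub_C _)
  have haevalp : ∀ x : ℝ, aeval x p = aeval x P₀ * aeval x P₁ := by
    intro x
    rw [← map_mul]
    have : (algebraMap ℤ ℚ) = Int.castRingHom ℚ := rfl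
    rw [hp, ← this, aeval_map_algebraMap]
  let K := IntermediateField.adjoin ℚ (p.rootSet ℝ)
  have : p.IsSplittingField ℚ K := IntermediateField.adjoin_rootSet_isSplittingField hsp
  have : FiniteDimensional ℚ K := IsSplittingField.finiteDimensional K p
  have : Normal ℚ K := Normal.of_isSplittingField p
  have : IsGalois ℚ K := {}
  have hmem : ∀ i, θ i ∈ p.rootSet ℝ := by
    intro i
    rw [mem_rootSet]
    refine ⟨hp0, ?_⟩
    rw [haevalp]
    rcases i with i | i
    · simp [hθ, hroot₀]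
    · simp [hθ, hroot₁]
  let t : Fin m₀ ⊕ Fin m₁ → K := fun i => ⟨θ i, IntermediateField.subset_adjoin _ _ (hmem i)⟩
  let ι : K →+* ℝ := K.val.toRingHom
  have hι : ∀ i, ι (t i) = θ i := fun i => rfl
  have hιinj : Function.Injective ι := ι.injective
  have haevalι : ∀ (x : K) (P : ℤ[X]), ι (aeval x P) = aeval (ι x) P := by
    intro x P
    have := (Polynomial.aeval_algHom_apply (K.val.restrictScalars ℤ) x P).symm
    exact this
  have haevals : ∀ (s : K ≃ₐ[ℚ] K) (x : K) (P : ℤ[X]), s (aeval x P) = aeval (s x) P := by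
    intro s x P
    have := (Polynomial.aeval_algHom_apply ((s : K →ₐ[ℚ] K).restrictScalars ℤ) x P).symm
    exact this
  obtain ⟨M, C, N, hM, hC, hN, hMV, hMθ, hM1, hMw, hl⟩ := core (K := K) ι t (by
      -- integrality
      intro i
      rcases i with i | i
      · refine ⟨P₀, hmon₀, ?_⟩
        apply hιinj
        have := haevalι (t (Sum.inl i)) P₀
        rw [aeval_def] at this
        rw [this, map_zero]
        exact hroot₀ i
      · refine ⟨P₁, hmon₁, ?_⟩
        apply hιinj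
        have := haevalι (t (Sum.inr i)) P₁
        rw [aeval_def] at this
        rw [this, map_zero]
        exact hroot₁ i) (by
      intro i j hij
      exact inj₀ (congrArg ι hij)) (by
      intro i j hij
      exact inj₁ (congrArg ι hij)) (by
      -- permutations
      intro s
      have e0 : ∀ i : Fin m₀, ∃ j : Fin m₀, s (t (Sum.inl i)) = t (Sum.inl j) := by
        intro i
        have h1 : aeval (ι (s (t (Sum.inl i)))) P₀ = 0 := by
          rw [← haevalι, ← haevals]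
          have h2 : aeval (t (Sum.inl i)) P₀ = 0 := by
            apply hιinj
            rw [haevalι, map_zero]; exact hroot₀ i
          rw [h2, map_zero, map_zero]
        obtain ⟨j, hj⟩ := hroots₀ _ h1
        exact ⟨j, hιinj hj⟩
      have e1 : ∀ i : Fin m₁, ∃ j : Fin m₁, s (t (Sum.inr i)) = t (Sum.inr j) := by
        intro i
        have h1 : aeval (ι (s (t (Sum.inr i)))) P₁ = 0 := by
          rw [← haevalι, ← haevals]
          have h2 : aeval (t (Sum.inr i)) P₁ = 0 := by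
            apply hιinj
            rw [haevalι, map_zero]; exact hroot₁ i
          rw [h2, map_zero, map_zero]
        obtain ⟨j, hj⟩ := hroots₁ _ h1
        exact ⟨j, hιinj hj⟩
      choose f0 hf0 using e0
      choose f1 hf1 using e1
      have i0 : Function.Injective f0 := by
        intro i j hij
        have h1 : s (t (Sum.inl i)) = s (t (Sum.inl j)) := by rw [hf0, hf0, hij]
        exact inj₀ (congrArg ι (s.injective h1))
      have i1 : Function.Injective f1 := by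
        intro i j hij
        have h1 : s (t (Sum.inr i)) = s (t (Sum.inr j)) := by rw [hf1, hf1, hij]
        exact inj₁ (congrArg ι (s.injective h1))
      exact ⟨Equiv.ofBijective f0 (Finite.injective_iff_bijective.mp i0),
        Equiv.ofBijective f1 (Finite.injective_iff_bijective.mp i1), hf0, hf1⟩) (by
      -- generation
      intro s s' hss
      have h1 : (s : K →ₐ[ℚ] K) = (s' : K →ₐ[ℚ] K) := by
        apply IntermediateField.adjoin_algHom_ext
        intro x hx
        have hx2 := (mem_rootSet.mp hx).2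
        rw [haevalp] at hx2
        rcases mul_eq_zero.mp hx2 with h | h
        · obtain ⟨i, rfl⟩ := hroots₀ x h
          exact hss (Sum.inl i)
        · obtain ⟨i, rfl⟩ := hroots₁ x h
          exact hss (Sum.inr i)
      ext x
      exact congrArg ι (DFunLike.congr_fun h1 x)) r (by
      rintro (i | i)
      · exact hr₀ i
      · exact hr₁ i)
  exact ⟨M, C, N, hM, hC, hN, hMV, hMθ, hM1, hMw, hl⟩

end Pool.Agent.H757R2.PgstG
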