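import Mathlib

/-!
# Counting roots of a real-rooted polynomial by sign variations (TEAM-PGST, task ROOTS)
-/

namespace Pool.Agent.H757R2.PgstR

open Polynomial Finset

/-- Number of sign changes of `a :: l` (zeros ignored), when `a ≠ 0`. -/
noncomputable def chg : ℝ → List ℝ → ℕ
  | _, [] => 0
  | a, b :: l => if b = 0 then chg a l else (if a * b < 0 then 1 else 0) + chg b l

/-- Multiply the entries alternately by `s, -s, s, ...`. -/
def altn : ℝ → List ℝ → List ℝ
  | _, [] => []
  | s, b :: l => (s * b) :: altn (-s) l

lemma altn_map (s t : ℝ) (l : List ℝ) : (altn t l).map (s * ·) = altn (s * t) l := by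
  induction l generalizing t with
  | nil => rfl
  | cons b l ih =>
    simp only [altn, List.map_cons, ih, mul_neg, mul_assoc]

lemma chg_smul (s : ℝ) (hs : s ^ 2 = 1) (a : ℝ) (l : List ℝ) :
    chg (s * a) (l.map (s * ·)) = chg a l := by
  have hs0 : s ≠ 0 := by rintro rfl; norm_num at hs
  induction l generalizing a with
  | nil => rfl
  | cons b l ih =>
    simp only [List.map_cons, chg]
    by_cases hb : b = 0
    · simp [hb, ih]
    · have h1 : s * b ≠ 0 := mul_ne_zero hs0 hb
      have h2 : s * a * (s * b) = a * b := by
        calc s * a * (s * b) = s ^ 2 * (a * b) := by ring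
          _ = a * b := by rw [hs, one_mul]
      simp only [hb, h1, if_false, h2, ih]

lemma neg_one_pow_sq (g : ℕ) : ((-1 : ℝ) ^ g) ^ 2 = 1 := by
  rw [← pow_mul, mul_comm, pow_mul]; norm_num

lemma chg_add_alt (l : List ℝ) : ∀ (a : ℝ) (g : ℕ), a ≠ 0 →
    chg a l + chg a (altn ((-1) ^ (g + 1)) l) ≤ l.length + g := by
  induction l with
  | nil => intro a g _; simp [chg, altn]
  | cons b l ih =>
    intro a g ha
    simp only [altn, chg]
    by_cases hb : b = 0
    · have := ih a (g + 1) ha
      simp only [hb, mul_zero, if_true, List.length_cons]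
      rw [show -(-1 : ℝ) ^ (g + 1) = (-1) ^ (g + 1 + 1) by ring]
      omega
    · have hs : ((-1 : ℝ) ^ (g + 1)) ≠ 0 := by positivity
      have hsb : (-1 : ℝ) ^ (g + 1) * b ≠ 0 := mul_ne_zero hs hb
      simp only [hb, hsb, if_false, List.length_cons]
      have h1 : chg ((-1) ^ (g + 1) * b) (altn (-(-1) ^ (g + 1)) l) = chg b (altn (-1) l) := by
        have h2 := chg_smul ((-1) ^ (g + 1)) (neg_one_pow_sq _) b (altn (-1) l)
        rw [altn_map] at h2
        rw [← h2]
        congr 2
        ring
      rw [h1]
      have h3 := ih b 0 hb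
      simp only [zero_add, pow_one] at h3
      have h4 : (if a * b < 0 then 1 else 0) + (if a * ((-1) ^ (g + 1) * b) < 0 then 1 else 0)
          ≤ 1 + g := by
        cases g with
        | zero =>
          simp only [zero_add, pow_one]
          split_ifs with h5 h6
          · exfalso; nlinarith
          · rfl
          · rfl
          · norm_num
        | succ g =>
          split_ifs <;> omega
      omega

/-- The list whose length is one more than the number of sign variations. -/
lemma destutter_chg (l : List ℝ) : ∀ a : ℝ, a ≠ 0 →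
    (((l.map SignType.sign).filter (fun x => decide (x ≠ 0))).destutter' (fun x y => x ≠ y)
      (SignType.sign a)).length = chg a l + 1 := by
  induction l with
  | nil => intro a _; simp [chg]
  | cons b l ih =>
    intro a ha
    by_cases hb : b = 0
    · subst hb
      simp only [List.map_cons, sign_zero, chg, if_true]
      rw [List.filter_cons_of_neg (by simp)]
      exact ih a ha
    · have hsb : SignType.sign b ≠ 0 := by simpa using hb
      simp only [List.map_cons, chg, hb, if_false]
      rw [List.filter_cons_of_pos (by simpa using hb), List.destutter'_cons]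
      by_cases hab : SignType.sign a = SignType.sign b
      · rw [if_neg (by simpa using hab), hab, ih b hb]
        have : ¬ a * b < 0 := by
          intro h
          rcases mul_neg_iff.mp h with ⟨h1, h2⟩ | ⟨h1, h2⟩
          · rw [sign_pos h1, sign_neg h2] at hab; exact absurd hab (by decide)
          · rw [sign_neg h1, sign_pos h2] at hab; exact absurd hab (by decide)
        simp [this]
      · rw [if_pos hab, List.length_cons, ih b hb]
        have : a * b < 0 := by
          rcases lt_or_gt_of_ne ha with h1 | h1 <;> rcases lt_or_gt_of_ne hb with h2 | h2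
          · exfalso; apply hab; rw [sign_neg h1, sign_neg h2]
          · exact mul_neg_of_neg_of_pos h1 h2
          · exact mul_neg_of_pos_of_neg h1 h2
          · exfalso; apply hab; rw [sign_pos h1, sign_pos h2]
        simp [this]
        omega

lemma signVariations_eq_chg {P : ℝ[X]} {a : ℝ} {l : List ℝ} (h : P.coeffList = a :: l)
    (ha : a ≠ 0) : P.signVariations = chg a l := by
  unfold signVariations
  rw [h]
  have hs : SignType.sign a ≠ 0 := by simpa using ha
  simp only [List.map_cons]
  rw [List.filter_cons_of_pos (by simpa using ha), List.destutter_cons']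
  have := destutter_chg l a ha
  simp only [ne_eq] at this ⊢
  rw [this]
  rfl

lemma altn_range (c : ℕ → ℝ) (n : ℕ) :
    (List.range n).reverse.map (fun j => (-1) ^ j * c j)
      = altn ((-1) ^ (n + 1)) ((List.range n).reverse.map c) := by
  induction n with
  | zero => rfl
  | succ n ih =>
    rw [List.range_succ, List.reverse_append]
    simp only [List.reverse_cons, List.reverse_nil, List.nil_append, List.cons_append,
      List.map_cons, altn]
    rw [ih]
    congr 1
    · ring
    · congr 1
      ring

lemma coeffList_comp_neg {P : ℝ[X]} (hP : P ≠ 0) :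
    (P.comp (-X)).coeffList = altn ((-1) ^ P.natDegree) P.coeffList := by
  have h1 : P.comp (-X) ≠ 0 := by
    intro h
    apply hP
    have := congrArg (fun Q : ℝ[X] => Q.comp (-X)) h
    simpa [comp_neg_X_comp_neg_X] using this
  have h2 : (P.comp (-X)).natDegree = P.natDegree := by
    rw [natDegree_comp]; simp
  have h3 : ∀ j, (P.comp (-X)).coeff j = (-1) ^ j * P.coeff j := by
    intro j
    have : (-X : ℝ[X]) = C (-1) * X := by simp
    rw [this, comp_C_mul_X_coeff]
    ring
  unfold coeffList
  rw [withBotSucc_degree_eq_natDegree_add_one h1, withBotSucc_degree_eq_natDegree_add_one hP, h2]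
  have h4 := altn_range P.coeff (P.natDegree + 1)
  rw [show ((-1 : ℝ)) ^ (P.natDegree + 1 + 1) = (-1) ^ P.natDegree by ring] at h4
  rw [← h4]
  apply List.map_congr_left
  intro j _
  exact h3 j

lemma signVariations_add_le {P : ℝ[X]} (hP : P ≠ 0) :
    P.signVariations + (P.comp (-X)).signVariations ≤ P.natDegree := by
  obtain ⟨l, hl⟩ := coeffList_eq_cons_leadingCoeff hP
  have ha : P.leadingCoeff ≠ 0 := leadingCoeff_ne_zero.mpr hP
  have h1 := coeffList_comp_neg hP
  rw [hl] at h1
  simp only [altn] at h1
  have hs : ((-1 : ℝ) ^ P.natDegree) ≠ 0 := by positivity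
  rw [signVariations_eq_chg hl ha, signVariations_eq_chg h1 (mul_ne_zero hs ha)]
  have h2 := chg_smul ((-1) ^ P.natDegree) (neg_one_pow_sq _) P.leadingCoeff (altn (-1) l)
  rw [altn_map] at h2
  rw [show -(-1 : ℝ) ^ P.natDegree = (-1) ^ P.natDegree * -1 by ring, h2]
  have h3 := chg_add_alt l P.leadingCoeff 0 ha
  simp only [zero_add, pow_one, add_zero] at h3
  have h4 : l.length = P.natDegree := by
    have := congrArg List.length hl
    rw [length_coeffList_eq_ite, if_neg hP, List.length_cons] at this
    omega
  omega

lemma count_roots {m : ℕ} (a : ℝ) (ha : a ≠ 0) (b : Fin m → ℝ) (p : ℝ → Prop) [DecidablePred p] :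
    (C a * ∏ i, (X - C (b i))).roots.countP p = (univ.filter fun i => p (b i)).card := by
  have h1 : (∏ i, (X - C (b i)) : ℝ[X]) = (univ.val.map b |>.map (fun x => X - C x)).prod := by
    rw [Multiset.map_map]; rfl
  rw [roots_C_mul _ ha, h1, roots_multiset_prod_X_sub_C, Multiset.countP_map]
  rfl

theorem realRooted_bounds {m : ℕ} (a : ℝ) (ha : a ≠ 0) (b : Fin m → ℝ) (P : ℝ[X])
    (hP : P = C a * ∏ i, (X - C (b i))) :
    (univ.filter fun i => 0 < b i).card ≤ P.signVariations ∧
    P.signVariations ≤ (univ.filter fun i => 0 ≤ b i).card := by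
  have hprod : (∏ i, (X - C (b i)) : ℝ[X]) ≠ 0 := Finset.prod_ne_zero_iff.mpr
    fun i _ => X_sub_C_ne_zero _
  have hP0 : P ≠ 0 := by
    rw [hP]; exact mul_ne_zero (by simpa using ha) hprod
  have hdeg : P.natDegree = m := by
    rw [hP, natDegree_C_mul ha, natDegree_prod_of_monic _ _ fun i _ => monic_X_sub_C _]
    simp
  have h1 := roots_countP_pos_le_signVariations P
  have h1' : P.roots.countP (0 < ·) = (univ.filter fun i => 0 < b i).card := by
    rw [hP]; exact count_roots a ha b _
  refine ⟨h1' ▸ h1, ?_⟩
  have h2 := roots_countP_pos_le_signVariations (P.comp (-X))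
  have h3 : P.comp (-X) = C (a * (-1) ^ m) * ∏ i, (X - C (-b i)) := by
    rw [hP, mul_comp, C_comp, Polynomial.prod_comp]
    simp only [sub_comp, X_comp, C_comp]
    rw [C_mul, mul_assoc]
    congr 1
    have : ∀ i : Fin m, (-X - C (b i) : ℝ[X]) = C (-1) * (X - C (-b i)) := by
      intro i; simp; ring
    simp_rw [this]
    rw [Finset.prod_mul_distrib]
    simp
  have h4 : (P.comp (-X)).roots.countP (0 < ·) = (univ.filter fun i => 0 < -b i).card := by
    rw [h3]; exact count_roots _ (mul_ne_zero ha (by positivity)) _ _
  rw [h4] at h2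
  have h5 := signVariations_add_le hP0
  rw [hdeg] at h5
  have h6 : (univ.filter fun i => 0 ≤ b i).card + (univ.filter fun i => 0 < -b i).card = m := by
    have := Finset.card_filter_add_card_filter_not (s := (univ : Finset (Fin m))) (fun i => 0 ≤ b i)
    simp only [not_le, card_univ, Fintype.card_fin] at this
    simpa [neg_pos] using this
  omega

end Pool.Agent.H757R2.PgstR
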