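import Pool.Agent.H687R2.IntPoly
import Pool.Agent.H757R2.PgstRootsMath

/-!
# Approximating the roots of a real-rooted polynomial in polynomial time (TEAM-PGST, task ROOTS)
-/

namespace Pool.Agent.H687R2.Pgst

open Pool.Agent.NPC

/-- The integer polynomial with a given list of coefficients (constant term first). -/
noncomputable def polyOf : List ℤ → Polynomial ℤ
  | [] => 0
  | a :: l => Polynomial.C a + Polynomial.X * polyOf l

end Pool.Agent.H687R2.Pgst

namespace Pool.Agent.NPC.PgstR

open Polynomial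
open Pool.Agent.H687R2.Pgst (polyOf)
open Pool.Agent.H757R2.PgstR

/-! ### Coefficient lists -/

lemma coeff_polyOf (l : List ℤ) : ∀ j, (polyOf l).coeff j = l.getD j 0 := by
  induction l with
  | nil => intro j; simp [polyOf]
  | cons a l ih =>
    intro j
    cases j with
    | zero => simp [polyOf]
    | succ j =>
      simp only [polyOf, coeff_add, coeff_C_succ, coeff_X_mul, ih, List.getD_cons_succ, zero_add]

lemma polyOf_append_zero (l : List ℤ) : polyOf (l ++ [0]) = polyOf l := by
  induction l with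
  | nil => simp [polyOf]
  | cons a l ih => simp [polyOf, ih]

lemma polyOf_map_mul (k : ℤ) (l : List ℤ) : polyOf (l.map (fun x => k * x)) = C k * polyOf l := by
  induction l with
  | nil => simp [polyOf]
  | cons a l ih => simp only [polyOf, List.map_cons, ih, C_mul]; ring

lemma polyOf_zipWith : ∀ (l l' : List ℤ), l.length = l'.length →
    polyOf (List.zipWith (fun x y => x + y) l l') = polyOf l + polyOf l' := by
  intro l
  induction l with
  | nil => intro l' h; cases l' with
    | nil => simp [polyOf]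
    | cons b l' => simp at h
  | cons a l ih =>
    intro l' h
    cases l' with
    | nil => simp at h
    | cons b l' =>
      simp only [List.length_cons, add_left_inj] at h
      simp only [List.zipWith_cons_cons, polyOf, ih l' h, C_add]
      ring

/-- The list of sign changes. -/
def sv (l : List ℤ) : List (ℤ × ℤ) :=
  ((l.filter (fun x => decide (x ≠ 0))).zip (l.filter (fun x => decide (x ≠ 0))).tail).filter
    (fun p => decide (p.1 * p.2 < 0))

lemma sv_zero_cons (l : List ℤ) : sv (0 :: l) = sv l := by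
  unfold sv
  rw [List.filter_cons_of_neg (by simp)]

lemma sv_cons (l : List ℤ) : ∀ a : ℤ, a ≠ 0 →
    (sv (a :: l)).length = chg (a : ℝ) (l.map (fun x : ℤ => (x : ℝ))) := by
  induction l with
  | nil => intro a ha; simp [sv, ha, chg]
  | cons b l ih =>
    intro a ha
    by_cases hb : b = 0
    · subst hb
      have h1 : sv (a :: 0 :: l) = sv (a :: l) := by
        unfold sv
        rw [List.filter_cons_of_pos (by simpa using ha), List.filter_cons_of_neg (by simp),
          List.filter_cons_of_pos (by simpa using ha)]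
      rw [h1, ih a ha]
      simp [chg]
    · have hb' : (b : ℝ) ≠ 0 := by exact_mod_cast hb
      simp only [List.map_cons, chg, hb', if_false, ← ih b hb]
      unfold sv
      rw [List.filter_cons_of_pos (by simpa using ha), List.filter_cons_of_pos (by simpa using hb)]
      rw [List.tail_cons, List.tail_cons, List.zip_cons_cons]
      by_cases hab : a * b < 0
      · have : (a : ℝ) * b < 0 := by exact_mod_cast hab
        rw [List.filter_cons_of_pos (by simpa using hab)]
        simp only [this, if_true, List.length_cons]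
        rw [add_comm]
      · have : ¬ ((a : ℝ) * b < 0) := by
          intro h; apply hab; exact_mod_cast h
        rw [List.filter_cons_of_neg (by simpa using hab)]
        simp only [this, if_false, zero_add]

/-- polynomial over the reals with given integer coefficients -/
noncomputable def rp (l : List ℤ) : ℝ[X] := (polyOf l).map (Int.castRingHom ℝ)

lemma coeff_rp (l : List ℤ) (j : ℕ) : (rp l).coeff j = (l.getD j 0 : ℤ) := by
  simp [rp, coeff_polyOf]

lemma range_map_getD (l : List ℤ) :
    (List.range l.length).map (fun j => l.getD j 0) = l := by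
  apply List.ext_getElem
  · simp
  · intro i h1 h2
    simp at h1
    simp [h1]

lemma signVariations_rp (l : List ℤ) : (rp l).signVariations = (sv l.reverse).length := by
  induction l using List.reverseRecOn with
  | nil => simp [rp, polyOf, sv]
  | append_singleton l a ih =>
    by_cases ha : a = 0
    · subst ha
      have h1 : rp (l ++ [0]) = rp l := by simp [rp, polyOf_append_zero]
      rw [h1, ih, List.reverse_append]
      simp only [List.reverse_cons, List.reverse_nil, List.nil_append, List.cons_append]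
      rw [sv_zero_cons]
    · have hlc : (rp (l ++ [a])).coeff l.length = (a : ℝ) := by
        rw [coeff_rp]; simp
      have ha' : (a : ℝ) ≠ 0 := by exact_mod_cast ha
      have h0 : rp (l ++ [a]) ≠ 0 := by
        intro h; rw [h, coeff_zero] at hlc; exact ha' hlc.symm
      have hdeg : (rp (l ++ [a])).natDegree = l.length := by
        apply le_antisymm
        · rw [natDegree_le_iff_coeff_eq_zero]
          intro j hj
          rw [coeff_rp, List.getD_eq_default]
          · simp
          · simp; omega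
        · apply le_natDegree_of_ne_zero
          rw [hlc]; exact ha'
      have hcl : (rp (l ++ [a])).coeffList = (a : ℝ) :: (l.reverse.map (fun x : ℤ => (x : ℝ))) := by
        unfold coeffList
        rw [withBotSucc_degree_eq_natDegree_add_one h0, hdeg]
        have h2 : (List.range (l.length + 1)).reverse.map (rp (l ++ [a])).coeff
            = (((List.range (l ++ [a]).length).map (fun j => (l ++ [a]).getD j 0)).reverse).map
              (fun x : ℤ => (x : ℝ)) := by
          rw [List.length_append, List.length_singleton, ← List.map_reverse, List.map_map]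
          apply List.map_congr_left
          intro j _
          simp [coeff_rp]
        rw [h2, range_map_getD, List.reverse_append]
        rfl
      rw [signVariations_eq_chg hcl ha', List.reverse_append]
      simp only [List.reverse_cons, List.reverse_nil, List.nil_append, List.cons_append]
      rw [sv_cons _ _ ha]

/-! ### Taylor shift -/

/-- One Horner step. -/
def tstep (U : List Unit) (k : ℤ) (a : ℤ) (s : List ℤ) : List ℤ :=
  List.zipWith (fun x y => x + y) ((a * 2 ^ (U.length * (s.length + 1))) :: s)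
    (s.map (fun x => k * x) ++ [0])

/-- Coefficients of `2^{K len} * P ((x + k) / 2^K)`. -/
def tay (U : List Unit) (k : ℤ) (l : List ℤ) : List ℤ := l.foldr (tstep U k) []

lemma length_tay (U : List Unit) (k : ℤ) (l : List ℤ) : (tay U k l).length = l.length := by
  induction l with
  | nil => rfl
  | cons a l ih =>
    have h1 : tay U k (a :: l) = tstep U k a (tay U k l) := rfl
    rw [h1]
    unfold tstep
    simp [ih]

lemma rp_tay (U : List Unit) (k : ℤ) (l : List ℤ) :
    rp (tay U k l) = C ((2 : ℝ) ^ (U.length * l.length)) *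
      (rp l).comp (C ((2 : ℝ) ^ U.length)⁻¹ * (X + C (k : ℝ))) := by
  induction l with
  | nil => simp [tay, rp, polyOf]
  | cons a l ih =>
    have h1 : tay U k (a :: l) = tstep U k a (tay U k l) := rfl
    have h2 : rp (tstep U k a (tay U k l)) =
        C ((a : ℝ) * 2 ^ (U.length * (l.length + 1))) + (X + C (k : ℝ)) * rp (tay U k l) := by
      unfold tstep
      rw [rp, polyOf_zipWith _ _ (by simp), polyOf_append_zero, polyOf_map_mul]
      simp only [polyOf, rp, length_tay, Polynomial.map_add, Polynomial.map_mul,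
        Polynomial.map_C, Polynomial.map_X]
      simp
      ring
    rw [h1, h2, ih]
    have h3 : rp (a :: l) = C (a : ℝ) + X * rp l := by
      simp [rp, polyOf]
    rw [h3]
    simp only [add_comp, mul_comp, X_comp, C_comp, List.length_cons]
    have h4 : (2 : ℝ) ^ U.length ≠ 0 := by positivity
    have h5 : C ((2 : ℝ) ^ (U.length * (l.length + 1))) * C ((2 : ℝ) ^ U.length)⁻¹
        = C ((2 : ℝ) ^ (U.length * l.length)) := by
      rw [← C_mul]
      congr 1
      rw [mul_add, mul_one, pow_add]
      field_simp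
    calc C ((a : ℝ) * 2 ^ (U.length * (l.length + 1))) + (X + C (k : ℝ)) *
          (C ((2 : ℝ) ^ (U.length * l.length)) *
            (rp l).comp (C ((2 : ℝ) ^ U.length)⁻¹ * (X + C (k : ℝ))))
        = C ((a : ℝ) * 2 ^ (U.length * (l.length + 1))) + (X + C (k : ℝ)) *
          ((C ((2 : ℝ) ^ (U.length * (l.length + 1))) * C ((2 : ℝ) ^ U.length)⁻¹) *
            (rp l).comp (C ((2 : ℝ) ^ U.length)⁻¹ * (X + C (k : ℝ)))) := by rw [h5]
      _ = _ := by
        rw [C_mul]
        ring

/-- Number of roots greater than `k / 2^K`. -/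
def cnt (U : List Unit) (k : ℤ) (l : List ℤ) : ℕ := (sv (tay U k l).reverse).length

theorem cnt_bounds {m : ℕ} (U : List Unit) (k : ℤ) (l : List ℤ) (θ : Fin m → ℝ)
    (h : rp l = ∏ i, (X - C (θ i))) :
    (Finset.univ.filter fun i => (k : ℝ) < 2 ^ U.length * θ i).card ≤ cnt U k l ∧
    cnt U k l ≤ (Finset.univ.filter fun i => (k : ℝ) ≤ 2 ^ U.length * θ i).card := by
  set r : ℝ := 2 ^ U.length with hr
  have hr0 : r ≠ 0 := by positivity
  have h1 : rp (tay U k l) = C ((2 : ℝ) ^ (U.length * l.length) * (r⁻¹) ^ m) *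
      ∏ i, (X - C (r * θ i - k)) := by
    rw [rp_tay, h, Polynomial.prod_comp, C_mul, mul_assoc]
    congr 1
    have : ∀ i : Fin m, (X - C (θ i) : ℝ[X]).comp (C r⁻¹ * (X + C (k : ℝ)))
        = C r⁻¹ * (X - C (r * θ i - k)) := by
      intro i
      simp only [sub_comp, X_comp, C_comp]
      have : C (θ i) = C r⁻¹ * (C r * C (θ i)) := by
        rw [← mul_assoc, ← C_mul, inv_mul_cancel₀ hr0]; simp
      conv_lhs => rw [this]
      rw [C_sub, C_mul]
      ring
    rw [Finset.prod_congr rfl fun i _ => this i, Finset.prod_mul_distrib, Finset.prod_const,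
      Finset.card_univ, Fintype.card_fin, C_pow]
  have h2 := realRooted_bounds _ (by positivity) (fun i => r * θ i - k) _ h1
  rw [signVariations_rp] at h2
  unfold cnt
  simpa only [sub_pos, sub_nonneg] using h2

/-! ### Sizes -/

/-- Sum of the absolute values. -/
def nrm (l : List ℤ) : ℕ := (l.map Int.natAbs).sum

lemma natAbs_le_nrm {l : List ℤ} {x : ℤ} (h : x ∈ l) : x.natAbs ≤ nrm l :=
  List.le_sum_of_mem (List.mem_map_of_mem h)

lemma nrm_lt (l : List ℤ) : nrm l < 2 ^ sz l := by
  induction l with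
  | nil => simp [nrm]
  | cons x l ih =>
    have h0 : nrm (x :: l) = x.natAbs + nrm l := by simp [nrm]
    rw [h0, sz_list_cons]
    have h1 := size_natAbs_le_sz x
    have h2 := Nat.lt_size_self x.natAbs
    have h3 : x.natAbs < 2 ^ sz x := lt_of_lt_of_le h2 (Nat.pow_le_pow_right (by norm_num)
      (by omega))
    have h5 : 2 ^ sz x ≤ 2 ^ (sz x + sz l) := Nat.pow_le_pow_right (by norm_num) (by omega)
    have h6 : 2 ^ sz l ≤ 2 ^ (sz x + sz l) := Nat.pow_le_pow_right (by norm_num) (by omega)
    rw [pow_succ]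
    omega

lemma size_nrm_le (l : List ℤ) : (nrm l).size ≤ sz l := Nat.size_le.2 (nrm_lt l)

lemma sz_le_nrm (l : List ℤ) : sz l ≤ l.length * (4 * (nrm l).size + 6) + 1 := by
  apply sz_le_length_mul l (4 * (nrm l).size + 5)
  intro x hx
  have h1 := sz_int_le x
  have h2 := Nat.size_le_size (natAbs_le_nrm hx)
  omega

lemma nrm_zipWith : ∀ (l l' : List ℤ),
    nrm (List.zipWith (fun x y => x + y) l l') ≤ nrm l + nrm l' := by
  intro l
  induction l with
  | nil => intro l'; simp [nrm]
  | cons a l ih =>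
    intro l'
    cases l' with
    | nil => simp [nrm]
    | cons b l' =>
      have := ih l'
      have h2 := Int.natAbs_add_le a b
      simp only [nrm, List.zipWith_cons_cons, List.map_cons, List.sum_cons] at this ⊢
      omega

lemma nrm_map_mul (k : ℤ) (l : List ℤ) : nrm (l.map (fun x => k * x)) = k.natAbs * nrm l := by
  induction l with
  | nil => simp [nrm]
  | cons a l ih =>
    simp only [nrm, List.map_cons, List.sum_cons, Int.natAbs_mul] at ih ⊢
    rw [ih]; ring

lemma nrm_append_zero (l : List ℤ) : nrm (l ++ [0]) = nrm l := by simp [nrm]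

lemma nrm_tay (U : List Unit) (k : ℤ) (l : List ℤ) :
    nrm (tay U k l) ≤ nrm l * (2 ^ U.length + 1 + k.natAbs) ^ l.length := by
  induction l with
  | nil => simp [tay, nrm]
  | cons a l ih =>
    have h1 : tay U k (a :: l) = tstep U k a (tay U k l) := rfl
    rw [h1]
    unfold tstep
    refine (nrm_zipWith _ _).trans ?_
    rw [nrm_append_zero, nrm_map_mul, length_tay]
    have h2 : nrm ((a * 2 ^ (U.length * (l.length + 1))) :: tay U k l)
        = a.natAbs * 2 ^ (U.length * (l.length + 1)) + nrm (tay U k l) := by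
      simp [nrm, Int.natAbs_mul, Int.natAbs_pow]
    have h3 : nrm (a :: l) = a.natAbs + nrm l := by simp [nrm]
    rw [h2, h3, List.length_cons]
    set B := 2 ^ U.length + 1 + k.natAbs with hB
    have h4 : 2 ^ (U.length * (l.length + 1)) ≤ B ^ (l.length + 1) := by
      rw [pow_mul]
      exact Nat.pow_le_pow_left (by omega) _
    calc a.natAbs * 2 ^ (U.length * (l.length + 1)) + nrm (tay U k l)
          + k.natAbs * nrm (tay U k l)
        = a.natAbs * 2 ^ (U.length * (l.length + 1)) + (1 + k.natAbs) * nrm (tay U k l) := by ring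
      _ ≤ a.natAbs * B ^ (l.length + 1) + B * (nrm l * B ^ l.length) := by
          have hp : 0 < 2 ^ U.length := by positivity
          have h5 : 1 + k.natAbs ≤ B := by rw [hB]; omega
          gcongr
      _ = (a.natAbs + nrm l) * B ^ (l.length + 1) := by ring

lemma size_mul_le (m n : ℕ) : (m * n).size ≤ m.size + n.size := by
  rw [Nat.size_le, pow_add]
  exact Nat.mul_lt_mul'' (Nat.lt_size_self m) (Nat.lt_size_self n)

lemma size_base (K k : ℕ) : (2 ^ K + 1 + k).size ≤ K + k.size + 2 := by
  rw [Nat.size_le]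
  have h1 : 2 ^ K ≤ 2 ^ (K + k.size) := Nat.pow_le_pow_right (by norm_num) (by omega)
  have h2 : 1 ≤ 2 ^ (K + k.size) := Nat.one_le_two_pow
  have h3 : k < 2 ^ (K + k.size) := lt_of_lt_of_le (Nat.lt_size_self k)
    (Nat.pow_le_pow_right (by norm_num) (by omega))
  rw [pow_succ, pow_succ]
  omega

lemma size_nrm_tay (U : List Unit) (k : ℤ) (l : List ℤ) :
    (nrm (tay U k l)).size ≤ sz l + (sz l * (sz U + sz k + 2) + 1) := by
  have h1 := Nat.size_le_size (nrm_tay U k l)
  have h2 := size_mul_le (nrm l) ((2 ^ U.length + 1 + k.natAbs) ^ l.length)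
  have h3 := size_nrm_le l
  have h4 := size_pow_le (2 ^ U.length + 1 + k.natAbs) l.length
  have h5 := size_base U.length k.natAbs
  have h6 := size_natAbs_le_sz k
  have h7 := length_lt_sz U
  have h8 := length_lt_sz l
  have h9 : l.length * (2 ^ U.length + 1 + k.natAbs).size ≤ sz l * (sz U + sz k + 2) := by
    apply Nat.mul_le_mul
    · omega
    · omega
  omega

lemma sz_tay (U : List Unit) (k : ℤ) (l : List ℤ) :
    sz (tay U k l) ≤ sz l * (4 * (sz l + (sz l * (sz U + sz k + 2) + 1)) + 6) + 1 := by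
  refine (sz_le_nrm _).trans ?_
  rw [length_tay]
  have h1 := size_nrm_tay U k l
  have h8 := length_lt_sz l
  gcongr

/-! ### Polynomial time -/

section PolyTime

variable {α β γ δ σ : Type} [TEnc α] [TEnc β] [TEnc γ] [TEnc δ] [TEnc σ]

theorem poly_sv {l : α → List ℤ} (hl : Poly l) : Poly (fun a => sv (l a)) := by
  have h1 : Poly (fun a => (l a).filter (fun x => decide (x ≠ 0))) :=
    Poly.filter (p := fun _ x => decide (x ≠ 0)) hl
      (Poly.decide_not (Poly.decide_eq (Poly.snd Poly.id) (Poly.const 0)))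
  exact Poly.filter (p := fun _ (p : ℤ × ℤ) => decide (p.1 * p.2 < 0))
    (Poly.zip h1 (Poly.tail h1))
    (Poly.isNeg (Poly.imul (Poly.fst (Poly.snd Poly.id)) (Poly.snd (Poly.snd Poly.id))))

theorem poly_tstep {U : α → List Unit} {k a : α → ℤ} {s : α → List ℤ} (hU : Poly U) (hk : Poly k)
    (ha : Poly a) (hs : Poly s) : Poly (fun x => tstep (U x) (k x) (a x) (s x)) := by
  unfold tstep
  refine Poly.zipWith (F := fun _ x y => x + y) (Poly.cons (Poly.imul ha
    (Poly.ipow (Poly.const 2) ((UPoly.length hU).mul ((UPoly.length hs).add (UPoly.const 1))))) hs)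
    (Poly.append (Poly.map (F := fun x y => k x * y) hs
      (Poly.imul (hk.comp (Poly.fst Poly.id)) (Poly.snd Poly.id))) (Poly.const [0]))
    (Poly.iadd (Poly.fst (Poly.snd Poly.id)) (Poly.snd (Poly.snd Poly.id)))

theorem poly_tay {U : α → List Unit} {k : α → ℤ} {l : α → List ℤ} (hU : Poly U) (hk : Poly k)
    (hl : Poly l) : Poly (fun x => tay (U x) (k x) (l x)) := by
  obtain ⟨rU, hrU⟩ := hU.sz_le
  obtain ⟨rk, hrk⟩ := hk.sz_le
  obtain ⟨rl, hrl⟩ := hl.sz_le
  unfold tay
  refine Poly.foldr (F := fun x a s => tstep (U x) (k x) a s) (s := fun _ => ([] : List ℤ)) hl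
    (Poly.const []) (poly_tstep (hU.comp (Poly.fst Poly.id)) (hk.comp (Poly.fst Poly.id))
      (Poly.fst (Poly.snd Poly.id)) (Poly.snd (Poly.snd Poly.id)))
    (rl * (C 4 * (rl + (rl * (rU + rk + C 2) + C 1)) + C 6) + C 1) ?_
  intro x j hj
  have h1 := sz_tay (U x) (k x) ((l x).drop j)
  have h2 := (Poly.sz_drop_le (l x) j).trans (hrl x)
  have h3 := hrU x
  have h4 := hrk x
  simp only [eval_add, eval_mul, eval_C]
  refine h1.trans ?_
  gcongr

theorem upoly_cnt {U : α → List Unit} {k : α → ℤ} {l : α → List ℤ} (hU : Poly U) (hk : Poly k)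
    (hl : Poly l) : UPoly (fun x => cnt (U x) (k x) (l x)) :=
  UPoly.length (poly_sv (Poly.reverse (poly_tay hU hk hl)))

end PolyTime

/-! ### Bisection -/

/-- The midpoint. -/
def mid (s : ℤ × ℤ) : ℤ := (s.1 + s.2) / ((2 : ℕ) : ℤ)

/-- One bisection step for the `i`-th largest root. -/
def bstep (U : List Unit) (l : List ℤ) (i : ℕ) (s : ℤ × ℤ) : ℤ × ℤ :=
  bif decide (i < cnt U (mid s) l) then (mid s, s.2) else (s.1, mid s)

/-- The bound for the roots. -/
def bnd (U : List Unit) (l : List ℤ) : ℕ := 2 ^ U.length * (1 + nrm l)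

lemma bstep_range (U : List Unit) (l : List ℤ) (i : ℕ) (R : ℤ) (s : ℤ × ℤ)
    (h : -R ≤ s.1 ∧ s.1 ≤ s.2 ∧ s.2 ≤ R) :
    -R ≤ (bstep U l i s).1 ∧ (bstep U l i s).1 ≤ (bstep U l i s).2 ∧ (bstep U l i s).2 ≤ R := by
  have hm : s.1 ≤ mid s ∧ mid s ≤ s.2 := by
    unfold mid; push_cast; omega
  unfold bstep
  cases decide (i < cnt U (mid s) l)
  · simp only [cond_false]; omega
  · simp only [cond_true]; omega

lemma biter_range (U : List Unit) (l : List ℤ) (i : ℕ) (R : ℤ) (n : ℕ) : ∀ (s : ℤ × ℤ),
    (-R ≤ s.1 ∧ s.1 ≤ s.2 ∧ s.2 ≤ R) →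
    -R ≤ ((bstep U l i)^[n] s).1 ∧ ((bstep U l i)^[n] s).1 ≤ ((bstep U l i)^[n] s).2 ∧
      ((bstep U l i)^[n] s).2 ≤ R := by
  induction n with
  | zero => intro s h; exact h
  | succ n ih =>
    intro s h
    rw [Function.iterate_succ_apply]
    exact ih _ (bstep_range U l i R s h)

/-- Correctness of bisection: `x` is the root looked for. -/
lemma biter_correct (U : List Unit) (l : List ℤ) (i : ℕ) (x : ℝ)
    (h1 : ∀ k : ℤ, i < cnt U k l → (k : ℝ) ≤ x) (h2 : ∀ k : ℤ, ¬ i < cnt U k l → x ≤ k) (n : ℕ) :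
    ∀ s : ℤ × ℤ, s.1 ≤ s.2 → s.2 - s.1 ≤ 2 ^ n → (s.1 : ℝ) ≤ x → x ≤ s.2 →
      (((bstep U l i)^[n] s).1 : ℝ) ≤ x ∧ x ≤ ((bstep U l i)^[n] s).1 + 1 := by
  induction n with
  | zero =>
    intro s hs hd hl hr
    refine ⟨hl, ?_⟩
    simp only [pow_zero] at hd
    have : (s.2 : ℝ) ≤ s.1 + 1 := by
      have : s.2 ≤ s.1 + 1 := by omega
      exact_mod_cast this
    simp only [Function.iterate_zero, id]
    linarith
  | succ n ih =>
    intro s hs hd hl hr
    rw [Function.iterate_succ_apply]
    have hm : s.1 ≤ mid s ∧ mid s ≤ s.2 ∧ s.2 - mid s ≤ 2 ^ n ∧ mid s - s.1 ≤ 2 ^ n := by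
      rw [pow_succ] at hd
      unfold mid; push_cast; omega
    obtain ⟨m1, m2, m3, m4⟩ := hm
    by_cases hc : i < cnt U (mid s) l
    · have : bstep U l i s = (mid s, s.2) := by simp [bstep, hc]
      rw [this]
      exact ih _ m2 m3 (h1 _ hc) hr
    · have : bstep U l i s = (s.1, mid s) := by simp [bstep, hc]
      rw [this]
      exact ih _ m1 m4 hl (h2 _ hc)

/-- The algorithm. -/
def rootApprox (p : List ℤ × List Unit) : List ℤ :=
  (List.range (cnt p.2 (-(bnd p.2 p.1 : ℤ)) p.1)).map fun i =>
    ((bstep p.2 p.1 i)^[((2 * bnd p.2 p.1).bits).length] (-(bnd p.2 p.1 : ℤ), (bnd p.2 p.1 : ℤ))).1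

section PolyTime

variable {α β γ δ σ : Type} [TEnc α] [TEnc β] [TEnc γ] [TEnc δ] [TEnc σ]

theorem poly_nrm {l : α → List ℤ} (hl : Poly l) : Poly (fun a => nrm (l a)) :=
  Poly.sum (Poly.map (F := fun _ x => Int.natAbs x) hl (Poly.natAbs (Poly.snd Poly.id)))

theorem poly_bnd {U : α → List Unit} {l : α → List ℤ} (hU : Poly U) (hl : Poly l) :
    Poly (fun a => bnd (U a) (l a)) :=
  Poly.mul (Poly.npow (Poly.const 2) (UPoly.length hU)) (Poly.add (Poly.const 1) (poly_nrm hl))

theorem poly_mid {s : α → ℤ × ℤ} (hs : Poly s) : Poly (fun a => mid (s a)) :=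
  Poly.idiv (n := fun _ => 2) (Poly.iadd (Poly.fst hs) (Poly.snd hs)) (Poly.const 2)

theorem poly_bstep {U : α → List Unit} {l : α → List ℤ} {i : α → ℕ} {s : α → ℤ × ℤ}
    (hU : Poly U) (hl : Poly l) (hi : Poly i) (hs : Poly s) :
    Poly (fun a => bstep (U a) (l a) (i a) (s a)) := by
  unfold bstep
  exact Poly.cond (Poly.decide_lt hi (upoly_cnt hU (poly_mid hs) hl).toPoly)
    (Poly.pair (poly_mid hs) (Poly.snd hs)) (Poly.pair (Poly.fst hs) (poly_mid hs))

theorem poly_biter {U : α → List Unit} {l : α → List ℤ} {i : α → ℕ}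
    (hU : Poly U) (hl : Poly l) (hi : Poly i) :
    Poly (fun a => (bstep (U a) (l a) (i a))^[((2 * bnd (U a) (l a)).bits).length]
      (-(bnd (U a) (l a) : ℤ), (bnd (U a) (l a) : ℤ))) := by
  have hb := poly_bnd hU hl
  obtain ⟨r, hr⟩ := hb.sz_le
  refine Poly.iterLen (l := fun a => (2 * bnd (U a) (l a)).bits)
    (s := fun a => (-(bnd (U a) (l a) : ℤ), (bnd (U a) (l a) : ℤ)))
    (F := fun a s => bstep (U a) (l a) (i a) s)
    (Poly.natBits (Poly.mul (Poly.const 2) hb))
    (Poly.pair (Poly.ineg (Poly.natCast hb)) (Poly.natCast hb))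
    (poly_bstep (hU.comp (Poly.fst Poly.id)) (hl.comp (Poly.fst Poly.id))
      (hi.comp (Poly.fst Poly.id)) (Poly.snd Poly.id)) (C 8 * r + C 11) ?_
  intro a k hk
  have h1 := biter_range (U a) (l a) (i a) (bnd (U a) (l a)) k
    (-(bnd (U a) (l a) : ℤ), (bnd (U a) (l a) : ℤ)) (by simp only; omega)
  set s := (bstep (U a) (l a) (i a))^[k] (-(bnd (U a) (l a) : ℤ), (bnd (U a) (l a) : ℤ))
  have h2 := sz_int_le s.1
  have h3 := sz_int_le s.2
  have h4 : s.1.natAbs ≤ bnd (U a) (l a) := by omega
  have h5 : s.2.natAbs ≤ bnd (U a) (l a) := by omega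
  have h6 := Nat.size_le_size h4
  have h7 := Nat.size_le_size h5
  have h8 := size_le_sz (bnd (U a) (l a))
  have h9 := hr a
  have h10 : sz s = sz s.1 + sz s.2 + 1 := sz_pair s.1 s.2
  simp only [eval_add, eval_mul, eval_C]
  omega

theorem poly_rootApprox : Poly rootApprox := by
  unfold rootApprox
  have h1 : Poly (fun p : List ℤ × List Unit => p.1) := Poly.fst Poly.id
  have h2 : Poly (fun p : List ℤ × List Unit => p.2) := Poly.snd Poly.id
  refine Poly.map (F := fun (p : List ℤ × List Unit) (i : ℕ) =>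
    ((bstep p.2 p.1 i)^[((2 * bnd p.2 p.1).bits).length]
      (-(bnd p.2 p.1 : ℤ), (bnd p.2 p.1 : ℤ))).1) (upoly_cnt h2 (Poly.ineg (Poly.natCast
        (poly_bnd h2 h1))) h1).range ?_
  exact Poly.fst (poly_biter (U := fun p : (List ℤ × List Unit) × ℕ => p.1.2)
    (l := fun p => p.1.1) (i := fun p => p.2) (h2.comp (Poly.fst Poly.id))
    (h1.comp (Poly.fst Poly.id)) (Poly.snd Poly.id))

end PolyTime

/-! ### Correctness -/

lemma root_lt {m : ℕ} (l : List ℤ) (θ : Fin m → ℝ) (h : rp l = ∏ i, (X - C (θ i))) (i : Fin m) :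
    |θ i| < 1 + nrm l := by
  have hmon : (rp l).Monic := by
    rw [h]; exact monic_prod_of_monic _ _ fun i _ => monic_X_sub_C _
  have hroot : (rp l).IsRoot (θ i) := by
    rw [h, IsRoot.def, eval_prod]
    exact Finset.prod_eq_zero (Finset.mem_univ i) (by simp)
  have h1 := hroot.norm_lt_cauchyBound hmon.ne_zero
  have h2 : cauchyBound (rp l) ≤ ((nrm l : ℕ) : NNReal) + 1 := by
    unfold cauchyBound
    rw [hmon.leadingCoeff]
    simp only [nnnorm_one, div_one]
    gcongr
    apply Finset.sup_le
    intro j _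
    rw [coeff_rp]
    rw [← NNReal.coe_le_coe, coe_nnnorm, Real.norm_eq_abs]
    push_cast
    rw [← Int.cast_abs, Int.abs_eq_natAbs]
    push_cast
    by_cases hj : j < l.length
    · have : l.getD j 0 ∈ l := by
        rw [List.getD_eq_getElem _ _ hj]; exact List.getElem_mem hj
      have h5 := natAbs_le_nrm this
      have h6 : |l.getD j 0| ≤ (nrm l : ℤ) := by rw [Int.abs_eq_natAbs]; exact_mod_cast h5
      exact_mod_cast h6
    · rw [List.getD_eq_default _ _ (by omega)]
      simp
  have h3 := lt_of_lt_of_le h1 h2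
  rw [← NNReal.coe_lt_coe, coe_nnnorm, Real.norm_eq_abs] at h3
  push_cast at h3
  linarith

theorem rootApprox_correct (P : List ℤ) (K m : ℕ) (θ : Fin m → ℝ) (hθ : StrictAnti θ)
    (h : rp P = ∏ i, (X - C (θ i))) :
    (rootApprox (P, List.replicate K ())).length = m ∧
      ∀ i : Fin m, |(2 : ℝ) ^ K * θ i - ((rootApprox (P, List.replicate K ())).getD i 0 : ℝ)| ≤ 1 := by
  set U := List.replicate K () with hU
  have hUl : U.length = K := by simp [hU]
  have hK : (0 : ℝ) < 2 ^ K := by positivity
  have hcnt := fun k => cnt_bounds U k P θ h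
  rw [hUl] at hcnt
  have hroot : ∀ i, |(2 : ℝ) ^ K * θ i| < bnd U P := by
    intro i
    rw [abs_mul, abs_of_pos hK, bnd, hUl]
    push_cast
    exact mul_lt_mul_of_pos_left (root_lt P θ h i) hK
  have hlen : cnt U (-(bnd U P : ℤ)) P = m := by
    have h1 := hcnt (-(bnd U P : ℤ))
    have h2 : (Finset.univ.filter fun i => (((-(bnd U P : ℤ)) : ℤ) : ℝ) < 2 ^ K * θ i)
        = Finset.univ := by
      rw [Finset.filter_eq_self]
      intro i _
      have := (abs_lt.mp (hroot i)).1
      push_cast
      exact this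
    have h3 : (Finset.univ.filter fun i => (((-(bnd U P : ℤ)) : ℤ) : ℝ) ≤ 2 ^ K * θ i).card
        ≤ m := by
      refine (Finset.card_filter_le _ _).trans ?_
      simp
    rw [h2] at h1
    simp only [Finset.card_univ, Fintype.card_fin] at h1
    omega
  have hlen2 : (rootApprox (P, U)).length = m := by
    unfold rootApprox
    simp [hlen]
  refine ⟨hlen2, fun i => ?_⟩
  have hi : (i : ℕ) < (rootApprox (P, U)).length := by rw [hlen2]; exact i.2
  rw [List.getD_eq_getElem _ _ hi]
  have hval : (rootApprox (P, U))[(i : ℕ)] = ((bstep U P i)^[((2 * bnd U P).bits).length]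
      (-(bnd U P : ℤ), (bnd U P : ℤ))).1 := by
    unfold rootApprox
    simp
  rw [hval]
  have h1 : ∀ k : ℤ, (i : ℕ) < cnt U k P → (k : ℝ) ≤ 2 ^ K * θ i := by
    intro k hk
    by_contra hcon
    push Not at hcon
    have h2 : (Finset.univ.filter fun j => (k : ℝ) ≤ 2 ^ K * θ j) ⊆
        Finset.univ.filter (fun j => j < i) := by
      intro j hj
      simp only [Finset.mem_filter, Finset.mem_univ, true_and] at hj ⊢
      by_contra hji
      have h3 : θ j ≤ θ i := hθ.antitone (not_lt.mp hji)
      have h4 : (2 : ℝ) ^ K * θ j ≤ 2 ^ K * θ i := by gcongr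
      linarith
    have h3 := Finset.card_le_card h2
    have h4 : (Finset.univ.filter (fun j => j < i)).card = i := by
      have : (Finset.univ.filter (fun j => j < i)) = Finset.Iio i := by ext j; simp
      rw [this, Fin.card_Iio]
    have h5 := (hcnt k).2
    omega
  have h2 : ∀ k : ℤ, ¬ (i : ℕ) < cnt U k P → 2 ^ K * θ i ≤ (k : ℝ) := by
    intro k hk
    by_contra hcon
    push Not at hcon
    have h2 : Finset.univ.filter (fun j => j ≤ i) ⊆
        (Finset.univ.filter fun j => (k : ℝ) < 2 ^ K * θ j) := by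
      intro j hj
      simp only [Finset.mem_filter, Finset.mem_univ, true_and] at hj ⊢
      have h3 : θ i ≤ θ j := hθ.antitone hj
      have h4 : (2 : ℝ) ^ K * θ i ≤ 2 ^ K * θ j := by gcongr
      linarith
    have h3 := Finset.card_le_card h2
    have h4 : (Finset.univ.filter (fun j => j ≤ i)).card = i + 1 := by
      have : (Finset.univ.filter (fun j => j ≤ i)) = Finset.Iic i := by ext j; simp
      rw [this, Fin.card_Iic]
    have h5 := (hcnt k).1
    omega
  have h3 := biter_correct U P i (2 ^ K * θ i) h1 h2 ((2 * bnd U P).bits).length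
    (-(bnd U P : ℤ), (bnd U P : ℤ)) (by simp only; omega) (by
      have := Nat.lt_size_self (2 * bnd U P)
      rw [Nat.size_eq_bits_len]
      have h4 : ((2 * bnd U P : ℕ) : ℤ) < ((2 ^ (2 * bnd U P).size : ℕ) : ℤ) := by
        exact_mod_cast this
      push_cast at h4
      simp only
      linarith) (by
      have := (abs_lt.mp (hroot i)).1
      push_cast
      exact this.le) (by
      have := (abs_lt.mp (hroot i)).2
      push_cast
      exact this.le)
  rw [abs_le]
  constructor <;> linarith [h3.1, h3.2]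

end Pool.Agent.NPC.PgstR

namespace Pool.Agent.H687R2.Pgst

open Pool.Agent.NPC

theorem exists_rootApprox : ∃ f : List ℤ × List Unit → List ℤ, Poly f ∧
    ∀ (P : List ℤ) (K m : ℕ) (θ : Fin m → ℝ), StrictAnti θ →
      (polyOf P).map (Int.castRingHom ℝ) = ∏ i, (Polynomial.X - Polynomial.C (θ i)) →
      (f (P, List.replicate K ())).length = m ∧
      ∀ i : Fin m, |(2 : ℝ) ^ K * θ i - ((f (P, List.replicate K ())).getD i 0 : ℝ)| ≤ 1 :=
  ⟨NPC.PgstR.rootApprox, NPC.PgstR.poly_rootApprox, fun P K m θ hθ h =>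
    NPC.PgstR.rootApprox_correct P K m θ hθ h⟩

end Pool.Agent.H687R2.Pgst
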