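import Pool.Agent.H757R2.CardyS1

set_option autoImplicit false

/-! ROOM CARDY: identities (S) and (V), determinant form. -/

namespace Pool.Agent.H757R2.CardyS

open Finset Polynomial

variable {K : Type*} [Field K]

lemma EL_split (W : K × K) (A B : List (K × K)) (f : K × K → K) :
    EL (W :: (A ++ B)) f = f W * D (A ++ B) +
      ∑ i ∈ range A.length, (-1) ^ (i + 1) * f (A.getD i 0) * D (W :: (A.eraseIdx i ++ B)) +
      ∑ m ∈ range B.length, (-1) ^ (A.length + m + 1) * f (B.getD m 0) *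
        D (W :: (A ++ B.eraseIdx m)) := by
  unfold EL
  have h1 : (W :: (A ++ B)).length = A.length + B.length + 1 := by simp
  rw [h1, sum_range_succ', Finset.sum_range_add]
  have h2 : ∀ i ∈ range A.length, (-1 : K) ^ (i + 1) * f ((W :: (A ++ B)).getD (i + 1) 0) *
      D ((W :: (A ++ B)).eraseIdx (i + 1)) =
      (-1) ^ (i + 1) * f (A.getD i 0) * D (W :: (A.eraseIdx i ++ B)) := by
    intro i hi
    rw [mem_range] at hi
    rw [List.getD_cons_succ, List.eraseIdx_cons_succ, List.getD_append _ _ _ _ hi,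
      List.eraseIdx_append_of_lt_length hi]
  have h3 : ∀ m ∈ range B.length, (-1 : K) ^ (A.length + m + 1) *
      f ((W :: (A ++ B)).getD (A.length + m + 1) 0) *
      D ((W :: (A ++ B)).eraseIdx (A.length + m + 1)) =
      (-1) ^ (A.length + m + 1) * f (B.getD m 0) * D (W :: (A ++ B.eraseIdx m)) := by
    intro m hm
    rw [List.getD_cons_succ, List.eraseIdx_cons_succ, List.getD_append_right _ _ _ _ (by omega),
      List.eraseIdx_append_of_length_le (by omega)]
    have e : A.length + m - A.length = m := by omega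
    rw [e]
  rw [sum_congr rfl h2, sum_congr rfl h3]
  simp only [List.getD_cons_zero, List.eraseIdx_cons_zero, pow_zero, one_mul]
  ring

lemma mem_getD (l : List (K × K)) (i : ℕ) (hi : i < l.length) : l.getD i 0 ∈ l := by
  rw [List.getD_eq_getElem _ _ hi]
  exact List.getElem_mem hi

/-- identity (S), determinant form -/
theorem S_D (A B : List (K × K)) (r s : ℕ) (hAl : A.length = 2 * r + 1) (hBl : B.length = 2 * s + 1)
    (pw xw y1 y2 : K) (e1 : xw + y1 + y2 = 0) (e2 : xw * y1 + xw * y2 + y1 * y2 = -3)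
    (e3 : xw * y1 * y2 = pw) (hcA : ∀ t ∈ A, t.1 = t.2 ^ 3 - 3 * t.2)
    (hcB : ∀ t ∈ B, t.1 = t.2 ^ 3 - 3 * t.2) :
    ∑ i ∈ range A.length, ((A.getD i 0).2 - y1) * ((A.getD i 0).2 - xw) *
        ((A.eraseIdx i).map (fun m => m.1 - (A.getD i 0).1)).prod * D (A.eraseIdx i) *
          D (A.getD i 0 :: B) * D ((pw, xw) :: (A.eraseIdx i ++ B)) -
      ∑ m ∈ range B.length, ((B.getD m 0).2 - y2) * ((B.getD m 0).2 - xw) *
        ((B.eraseIdx m).map (fun t => t.1 - (B.getD m 0).1)).prod * D (B.eraseIdx m) *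
          D (B.getD m 0 :: A) * D ((pw, xw) :: (A ++ B.eraseIdx m)) =
      D A * D B * D ((pw, xw) :: (A ++ B)) := by
  obtain ⟨hA, gA, hA1, hA2, hA3, hA4⟩ := F_poly A r hAl
  obtain ⟨hB, gB, hB1, hB2, hB3, hB4⟩ := F_poly B s hBl
  set L := ((pw, xw) :: (A ++ B) : List (K × K)) with hL
  have hLl : L.length = 2 * (r + s + 1) + 1 := by
    simp [hL, hAl, hBl]
    ring
  have dA : (gA - C y1 * hA).natDegree ≤ r :=
    (natDegree_sub_le _ _).trans (max_le hA2 ((natDegree_C_mul_le _ _).trans hA1))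
  have dB : (gB - C y2 * hB).natDegree ≤ s :=
    (natDegree_sub_le _ _).trans (max_le hB2 ((natDegree_C_mul_le _ _).trans hB1))
  have dAB : ((gA - C y1 * hA) * (gB - C y2 * hB)).natDegree ≤ r + s :=
    (natDegree_mul_le).trans (add_le_add dA dB)
  have dh : (hA * hB).natDegree ≤ r + s := (natDegree_mul_le).trans (add_le_add hA1 hB1)
  have dX : (X - C pw : K[X]).natDegree ≤ 1 := natDegree_X_sub_C_le _
  set P1 : K[X] := C xw * ((gA - C y1 * hA) * (gB - C y2 * hB)) + (X - C pw) * (hA * hB) with hP1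
  set P2 : K[X] := -((gA - C y1 * hA) * (gB - C y2 * hB)) with hP2
  have dP1 : P1.natDegree ≤ r + s + 1 := by
    refine (natDegree_add_le _ _).trans (max_le ?_ ?_)
    · exact ((natDegree_C_mul_le _ _).trans dAB).trans (by omega)
    · refine (natDegree_mul_le).trans ?_
      have := add_le_add dX dh
      omega
  have dP2 : P2.natDegree < r + s + 1 := by
    rw [hP2, natDegree_neg]
    omega
  have cP1 : P1.coeff (r + s + 1) = D A * D B := by
    rw [hP1, coeff_add]
    have h1 : (C xw * ((gA - C y1 * hA) * (gB - C y2 * hB))).coeff (r + s + 1) = 0 := by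
      refine coeff_eq_zero_of_natDegree_lt ?_
      have := (natDegree_C_mul_le xw ((gA - C y1 * hA) * (gB - C y2 * hB))).trans dAB
      omega
    have h2 : ((X - C pw) * (hA * hB)).coeff (1 + (r + s)) = D A * D B := by
      rw [coeff_mul_add_eq_of_natDegree_le dX dh, coeff_mul_add_eq_of_natDegree_le hA1 hB1, hA3, hB3]
      simp [coeff_C]
    rw [h1, zero_add, show r + s + 1 = 1 + (r + s) by ring, h2]
  have key := EL_poly L (r + s + 1) hLl P1 P2 dP1 dP2
  rw [cP1] at key
  rw [← key, hL, EL_split]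
  -- values of the last column
  have hval : ∀ t : K × K, P1.eval t.1 + t.2 * P2.eval t.1 =
      (xw - t.2) * ((gA.eval t.1 - y1 * hA.eval t.1) * (gB.eval t.1 - y2 * hB.eval t.1)) +
        (t.1 - pw) * (hA.eval t.1 * hB.eval t.1) := by
    intro t
    simp only [hP1, hP2, eval_add, eval_mul, eval_sub, eval_neg, eval_C, eval_X]
    ring
  have hcub : ∀ x : K, x ^ 3 - 3 * x - pw = (x - xw) * (x - y1) * (x - y2) := by
    intro x
    rw [← e3]
    linear_combination (x ^ 2) * e1 - x * e2
  have hW : P1.eval (pw, xw).1 + (pw, xw).2 * P2.eval (pw, xw).1 = 0 := by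
    rw [hval]
    simp
  rw [hW, zero_mul, zero_add, sub_eq_add_neg, ← sum_neg_distrib]
  congr 1
  · refine sum_congr rfl fun i hi => ?_
    rw [mem_range] at hi
    have hc := hcA _ (mem_getD A i hi)
    obtain ⟨n1, n2⟩ := hg_node A hA gA hA4 i hi
    rw [hval, n2, hB4 (A.getD i 0)]
    have h3 : (A.getD i 0).1 - pw = ((A.getD i 0).2 - xw) * ((A.getD i 0).2 - y1) *
        ((A.getD i 0).2 - y2) := by
      rw [← hcub, hc]
    rw [h3, n1]
    have h4 : ((-1 : K) ^ i) * (-1) ^ i = 1 := by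
      rw [← mul_pow]
      simp
    rw [pow_succ]
    linear_combination (-((A.getD i 0).2 - y1) * ((A.getD i 0).2 - xw) *
        ((A.eraseIdx i).map (fun m => m.1 - (A.getD i 0).1)).prod * D (A.eraseIdx i) *
          (eval (A.getD i 0).1 gB - (A.getD i 0).2 * eval (A.getD i 0).1 hB) *
            D ((pw, xw) :: (A.eraseIdx i ++ B))) * h4
  · refine sum_congr rfl fun m hm => ?_
    rw [mem_range] at hm
    have hc := hcB _ (mem_getD B m hm)
    obtain ⟨n1, n2⟩ := hg_node B hB gB hB4 m hm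
    rw [hval, n2, hA4 (B.getD m 0)]
    have h3 : (B.getD m 0).1 - pw = ((B.getD m 0).2 - xw) * ((B.getD m 0).2 - y1) *
        ((B.getD m 0).2 - y2) := by
      rw [← hcub, hc]
    rw [h3, n1]
    have h4 : ((-1 : K) ^ m) * (-1) ^ m = 1 := by
      rw [← mul_pow]
      simp
    have h5 : (-1 : K) ^ (A.length + m + 1) = (-1) ^ m := by
      rw [hAl, show 2 * r + 1 + m + 1 = 2 * (r + 1) + m by ring, pow_add, pow_mul]
      simp
    rw [h5]
    linear_combination (((B.getD m 0).2 - y2) * ((B.getD m 0).2 - xw) *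
        ((B.eraseIdx m).map (fun t => t.1 - (B.getD m 0).1)).prod * D (B.eraseIdx m) *
          (eval (B.getD m 0).1 gA - (B.getD m 0).2 * eval (B.getD m 0).1 hA) *
            D ((pw, xw) :: (A ++ B.eraseIdx m))) * h4

end Pool.Agent.H757R2.CardyS
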