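import Mathlib

set_option autoImplicit false

/-!
ROOM CARDY: determinants `D` of points `(p, x)` with columns `1, x, p, x p, p², x p², …`.
-/

namespace Pool.Agent.H757R2.CardyS

open Finset Polynomial

variable {K : Type*} [Field K]

/-- the columns `1, x, p, x p, …` -/
def cl (j : ℕ) (v : K × K) : K := if j % 2 = 0 then v.1 ^ (j / 2) else v.2 * v.1 ^ (j / 2)

lemma cl_even (k : ℕ) (v : K × K) : cl (2 * k) v = v.1 ^ k := by
  unfold cl
  rw [if_pos (by omega)]
  congr 1
  omega

lemma cl_odd (k : ℕ) (v : K × K) : cl (2 * k + 1) v = v.2 * v.1 ^ k := by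
  unfold cl
  rw [if_neg (by omega)]
  congr 2
  omega

lemma cl_add_two (j : ℕ) (v : K × K) : cl (j + 2) v = v.1 * cl j v := by
  unfold cl
  have h1 : (j + 2) / 2 = j / 2 + 1 := by omega
  have h2 : (j + 2) % 2 = j % 2 := by omega
  rw [h1, h2]
  split_ifs <;> ring

/-- the determinant of a family of points -/
noncomputable def DF {n : ℕ} (v : Fin n → K × K) : K :=
  Matrix.det (Matrix.of fun i j : Fin n => cl (j : ℕ) (v i))

lemma DF_row_move {n : ℕ} (w : Fin (n + 1) → K × K) (k : Fin (n + 1)) :
    DF w = (-1) ^ (k : ℕ) * DF (Fin.cons (w k) (w ∘ k.succAbove) : Fin (n + 1) → K × K) := by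
  unfold DF
  rw [Matrix.det_succ_row _ k, Matrix.det_succ_row_zero, mul_sum]
  refine sum_congr rfl fun j _ => ?_
  have h1 : (Matrix.of fun i j : Fin (n + 1) => cl (j : ℕ) (w i)).submatrix k.succAbove j.succAbove =
      (Matrix.of fun i j : Fin (n + 1) => cl (j : ℕ)
        ((Fin.cons (w k) (w ∘ k.succAbove) : Fin (n + 1) → K × K) i)).submatrix Fin.succ
          j.succAbove := by
    ext a b
    simp [Matrix.submatrix_apply]
  rw [h1]
  simp only [Matrix.of_apply, Fin.cons_zero]
  rw [pow_add]
  ring

lemma DF_wheel {n : ℕ} (v : Fin n → K × K) (p x1 x2 : K) :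
    DF (Fin.cons (p, x1) (Fin.cons (p, x2) v : Fin (n + 1) → K × K) : Fin (n + 1 + 1) → K × K) =
      (x2 - x1) * (∏ i, ((v i).1 - p)) * DF v := by
  set w : Fin (n + 2) → K × K := Fin.cons (p, x1) (Fin.cons (p, x2) v : Fin (n + 1) → K × K) with hw
  set M : Matrix (Fin (n + 2)) (Fin (n + 2)) K := Matrix.of fun i j => cl (j : ℕ) (w i) with hM
  set T : Matrix (Fin (n + 2)) (Fin (n + 2)) K :=
    Matrix.of fun i j => if i = j then 1 else if (i : ℕ) + 2 = j then -p else 0 with hT
  have hTdet : T.det = 1 := by
    have h1 : T.BlockTriangular id := by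
      intro i j hij
      simp only [id] at hij
      have h2 : i ≠ j := ne_of_gt hij
      have h3 : ¬ ((i : ℕ) + 2 = j) := by
        have : (j : ℕ) < i := hij
        omega
      simp [hT, h2, h3]
    rw [Matrix.det_of_isUpperTriangular h1]
    simp [hT]
  have hMT : ∀ i j, (M * T) i j = cl (j : ℕ) (w i) - (if 2 ≤ (j : ℕ) then p * cl ((j : ℕ) - 2) (w i) else 0) := by
    intro i j
    rw [Matrix.mul_apply]
    by_cases hj : 2 ≤ (j : ℕ)
    · rw [if_pos hj]
      have hj2 : (j : ℕ) - 2 < n + 2 := by omega
      set j' : Fin (n + 2) := ⟨(j : ℕ) - 2, hj2⟩ with hj'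
      have hne : j' ≠ j := by
        intro h
        have := congrArg Fin.val h
        simp [hj'] at this
        omega
      rw [← Finset.sum_subset (Finset.subset_univ {j', j})]
      · rw [Finset.sum_pair hne]
        have e1 : T j' j = -p := by
          simp only [hT, Matrix.of_apply]
          rw [if_neg hne, if_pos]
          simp [hj']
          omega
        have e2 : T j j = 1 := by simp [hT]
        rw [e1, e2]
        simp only [hM, Matrix.of_apply, hj']
        ring
      · intro k _ hk
        simp only [Finset.mem_insert, Finset.mem_singleton, not_or] at hk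
        have e3 : T k j = 0 := by
          simp only [hT, Matrix.of_apply]
          rw [if_neg hk.2, if_neg]
          intro h
          apply hk.1
          apply Fin.ext
          simp [hj']
          omega
        rw [e3, mul_zero]
    · rw [if_neg hj]
      rw [Finset.sum_eq_single j]
      · simp [hT, hM]
      · intro k _ hk
        have e3 : T k j = 0 := by
          simp only [hT, Matrix.of_apply]
          rw [if_neg hk, if_neg]
          omega
        rw [e3, mul_zero]
      · intro h
        exact absurd (Finset.mem_univ j) h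
  have hdet : M.det = (M * T).det := by rw [Matrix.det_mul, hTdet, mul_one]
  change M.det = _
  rw [hdet]
  -- expand along the first two rows
  have hrow0 : ∀ j : Fin (n + 2), (M * T) 0 j = if (j : ℕ) = 0 then 1 else if (j : ℕ) = 1 then x1 else 0 := by
    intro j
    rw [hMT]
    have hw0 : w 0 = (p, x1) := by simp [hw]
    rw [hw0]
    rcases j with ⟨j, hj⟩
    rcases j with _ | _ | j
    · simp [cl]
    · simp [cl]
    · simp only [Nat.add_eq, Nat.reduceAdd, le_add_iff_nonneg_left, Nat.zero_le, ↓reduceIte]
      rw [cl_add_two]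
      simp
  have hrow1 : ∀ j : Fin (n + 2), (M * T) 1 j = if (j : ℕ) = 0 then 1 else if (j : ℕ) = 1 then x2 else 0 := by
    intro j
    rw [hMT]
    have hw0 : w 1 = (p, x2) := by simp [hw, Fin.cons_one]
    rw [hw0]
    rcases j with ⟨j, hj⟩
    rcases j with _ | _ | j
    · simp [cl]
    · simp [cl]
    · simp only [Nat.add_eq, Nat.reduceAdd, le_add_iff_nonneg_left, Nat.zero_le, ↓reduceIte]
      rw [cl_add_two]
      simp
  have hrowv : ∀ (i : Fin n) (j : Fin n), (M * T) i.succ.succ j.succ.succ =
      ((v i).1 - p) * cl (j : ℕ) (v i) := by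
    intro i j
    rw [hMT]
    have hw0 : w i.succ.succ = v i := by simp [hw]
    rw [hw0]
    simp only [Fin.val_succ, Nat.add_eq, Nat.reduceAdd]
    rw [if_pos (by omega), show (j : ℕ) + 1 + 1 = (j : ℕ) + 2 from rfl, cl_add_two]
    simp
    ring
  -- block form
  let e : Fin 2 ⊕ Fin n ≃ Fin (n + 2) := (finSumFinEquiv (m := 2) (n := n)).trans
    (finCongr (by omega))
  rw [← Matrix.det_submatrix_equiv_self e]
  have hblock : (M * T).submatrix e e = Matrix.fromBlocks
      (Matrix.of fun (i j : Fin 2) => if j = 0 then (1 : K) else if i = 0 then x1 else x2)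
      0
      ((M * T).submatrix (fun i => e (Sum.inr i)) (fun j => e (Sum.inl j)))
      (Matrix.of fun (i j : Fin n) => ((v i).1 - p) * cl (j : ℕ) (v i)) := by
    have el0 : e (Sum.inl 0) = 0 := rfl
    have el1 : e (Sum.inl 1) = 1 := rfl
    have er : ∀ i : Fin n, e (Sum.inr i) = i.succ.succ := by
      intro i
      apply Fin.ext
      simp [e]
    ext a b
    rcases a with a | a <;> rcases b with b | b
    · fin_cases a <;> fin_cases b
      · simp only [Matrix.submatrix_apply, Matrix.fromBlocks_apply₁₁, Fin.zero_eta, el0, Matrix.of_apply]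
        rw [hrow0]; simp
      · simp only [Matrix.submatrix_apply, Matrix.fromBlocks_apply₁₁, Fin.zero_eta, Fin.mk_one, el0, el1, Matrix.of_apply]
        rw [hrow0]; simp
      · simp only [Matrix.submatrix_apply, Matrix.fromBlocks_apply₁₁, Fin.zero_eta, Fin.mk_one, el0, el1, Matrix.of_apply]
        rw [hrow1]; simp
      · simp only [Matrix.submatrix_apply, Matrix.fromBlocks_apply₁₁, Fin.zero_eta, Fin.mk_one, el0, el1, Matrix.of_apply]
        rw [hrow1]; simp
    · fin_cases a
      · simp only [Matrix.submatrix_apply, Matrix.fromBlocks_apply₁₂, Fin.zero_eta, el0, er]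
        rw [hrow0]; simp
      · simp only [Matrix.submatrix_apply, Matrix.fromBlocks_apply₁₂, Fin.mk_one, el1, er]
        rw [hrow1]; simp
    · rfl
    · simp only [Matrix.submatrix_apply, Matrix.fromBlocks_apply₂₂, er, Matrix.of_apply]
      exact hrowv a b
  rw [hblock, Matrix.det_fromBlocks_zero₁₂, Matrix.det_fin_two]
  have hd : (Matrix.of fun (i j : Fin n) => ((v i).1 - p) * cl (j : ℕ) (v i)).det =
      (∏ i, ((v i).1 - p)) * DF v := by
    have := Matrix.det_mul_column (fun i => (v i).1 - p) (Matrix.of fun i j : Fin n => cl (j : ℕ) (v i))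
    simpa [DF] using this
  rw [hd]
  simp
  ring

end Pool.Agent.H757R2.CardyS
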