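import Pool.Agent.H757R2.CardyS0

set_option autoImplicit false

/-! ROOM CARDY: list form of the determinants `D`. -/

namespace Pool.Agent.H757R2.CardyS

open Finset Polynomial

variable {K : Type*} [Field K]

lemma DF_cast {n m : ℕ} (h : n = m) (v : Fin n → K × K) (w : Fin m → K × K)
    (hvw : ∀ i : Fin n, v i = w (Fin.cast h i)) : DF v = DF w := by
  subst h
  congr 1
  funext i
  exact hvw i

/-- the determinant of a list of points -/
noncomputable def D (l : List (K × K)) : K := DF (fun i : Fin l.length => l.get i)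

lemma D_ofFn {n : ℕ} (v : Fin n → K × K) : D (List.ofFn v) = DF v := by
  unfold D
  refine DF_cast (by simp) _ _ fun i => ?_
  simp only [List.get_eq_getElem, List.getElem_ofFn]
  rfl

lemma exists_ofFn {α : Type*} (l : List α) {m : ℕ} (hm : l.length = m) :
    ∃ v : Fin m → α, l = List.ofFn v := by
  subst hm
  exact ⟨l.get, (List.ofFn_get l).symm⟩

lemma eraseIdx_ofFn {α : Type*} {n : ℕ} (v : Fin (n + 1) → α) (k : Fin (n + 1)) :
    (List.ofFn v).eraseIdx k = List.ofFn (v ∘ k.succAbove) := by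
  apply List.ext_getElem
  · rw [List.length_eraseIdx_of_lt (by rw [List.length_ofFn]; exact k.2)]
    simp
  · intro i h1 h2
    rw [List.getElem_eraseIdx]
    have h3 : i < n := by simpa using h2
    split_ifs with h4
    · simp only [List.getElem_ofFn, Function.comp]
      congr 1
      apply Fin.ext
      rw [Fin.succAbove_of_castSucc_lt _ _ (by rw [Fin.lt_def]; simpa using h4)]
      simp
    · simp only [List.getElem_ofFn, Function.comp]
      congr 1
      apply Fin.ext
      rw [Fin.succAbove_of_le_castSucc _ _ (by rw [Fin.le_def]; simpa using h4)]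
      simp

lemma D_row_move (l : List (K × K)) (k : ℕ) (hk : k < l.length) :
    D l = (-1) ^ k * D (l.getD k 0 :: l.eraseIdx k) := by
  obtain ⟨n, hn⟩ : ∃ n, l.length = n + 1 := ⟨l.length - 1, by omega⟩
  obtain ⟨v, rfl⟩ := exists_ofFn l hn
  rw [hn] at hk
  have h1 : (List.ofFn v).getD k 0 = v ⟨k, hk⟩ := by
    rw [List.getD_eq_getElem _ _ (by rw [List.length_ofFn]; exact hk), List.getElem_ofFn]
  have h2 := eraseIdx_ofFn v ⟨k, hk⟩
  simp only at h2
  rw [h1, h2, D_ofFn, DF_row_move v ⟨k, hk⟩]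
  have h3 : v ⟨k, hk⟩ :: List.ofFn (v ∘ (⟨k, hk⟩ : Fin (n + 1)).succAbove) =
      List.ofFn (Fin.cons (v ⟨k, hk⟩) (v ∘ (⟨k, hk⟩ : Fin (n + 1)).succAbove) : Fin (n + 1) → K × K) := by
    rw [List.ofFn_succ]
    simp only [Fin.cons_zero, Fin.cons_succ]
    try rfl
  rw [h3, D_ofFn]

lemma D_wheel (l : List (K × K)) (p x1 x2 : K) :
    D ((p, x1) :: (p, x2) :: l) = (x2 - x1) * (l.map (fun m => m.1 - p)).prod * D l := by
  obtain ⟨v, hv⟩ := exists_ofFn l (m := l.length) rfl
  generalize l.length = n at v hv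
  subst hv
  have h3 : (p, x1) :: (p, x2) :: List.ofFn v =
      List.ofFn (Fin.cons (p, x1) (Fin.cons (p, x2) v : Fin (n + 1) → K × K) :
        Fin (n + 1 + 1) → K × K) := by
    rw [List.ofFn_succ, List.ofFn_succ]
    simp
  rw [h3, D_ofFn, D_ofFn, DF_wheel]
  congr 2
  rw [List.map_ofFn, List.prod_ofFn]
  rfl

/-- alternating sum of a function along a list -/
noncomputable def EL (l : List (K × K)) (f : K × K → K) : K :=
  ∑ i ∈ range l.length, (-1) ^ i * f (l.getD i 0) * D (l.eraseIdx i)

lemma EL_add (l : List (K × K)) (f g : K × K → K) : EL l (fun t => f t + g t) = EL l f + EL l g := by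
  unfold EL
  rw [← sum_add_distrib]
  refine sum_congr rfl fun i _ => ?_
  ring

lemma EL_sum (l : List (K × K)) {ι : Type*} (s : Finset ι) (c : ι → K) (g : ι → K × K → K) :
    EL l (fun t => ∑ k ∈ s, c k * g k t) = ∑ k ∈ s, c k * EL l (g k) := by
  unfold EL
  simp_rw [mul_sum, sum_mul]
  rw [sum_comm]
  refine sum_congr rfl fun k _ => sum_congr rfl fun i _ => ?_
  ring

lemma EL_ofFn {n : ℕ} (v : Fin (n + 1) → K × K) (f : K × K → K) :
    EL (List.ofFn v) f = ∑ i : Fin (n + 1), (-1) ^ (i : ℕ) * f (v i) * DF (v ∘ i.succAbove) := by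
  unfold EL
  rw [List.length_ofFn, Finset.sum_range]
  refine sum_congr rfl fun i _ => ?_
  have h1 : (List.ofFn v).getD i 0 = v i := by
    rw [List.getD_eq_getElem _ _ (by rw [List.length_ofFn]; exact i.2), List.getElem_ofFn]
  rw [h1, eraseIdx_ofFn, D_ofFn]

lemma EL_cl (l : List (K × K)) (n j : ℕ) (hl : l.length = n + 1) (hj : j ≤ n) :
    EL l (cl j) = if j = n then (-1) ^ n * D l else 0 := by
  obtain ⟨v, rfl⟩ := exists_ofFn l hl
  rw [EL_ofFn, D_ofFn]
  set M : Matrix (Fin (n + 1)) (Fin (n + 1)) K :=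
    Matrix.of fun i j' => if (j' : ℕ) = n then cl j (v i) else cl (j' : ℕ) (v i) with hM
  have h1 : M.det = (-1) ^ n * ∑ i : Fin (n + 1), (-1) ^ (i : ℕ) * cl j (v i) * DF (v ∘ i.succAbove) := by
    rw [Matrix.det_succ_column M (Fin.last n), mul_sum]
    refine sum_congr rfl fun i _ => ?_
    have h2 : M.submatrix i.succAbove (Fin.last n).succAbove =
        Matrix.of fun a b : Fin n => cl (b : ℕ) ((v ∘ i.succAbove) a) := by
      ext a b
      simp only [Matrix.submatrix_apply, hM, Matrix.of_apply, Fin.succAbove_last, Fin.val_castSucc,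
        Function.comp]
      rw [if_neg (by have := b.2; omega)]
    rw [h2]
    have h3 : M i (Fin.last n) = cl j (v i) := by
      simp [hM]
    rw [h3]
    unfold DF
    rw [Fin.val_last, pow_add]
    ring
  have h4 : ∑ i : Fin (n + 1), (-1) ^ (i : ℕ) * cl j (v i) * DF (v ∘ i.succAbove) =
      (-1) ^ n * M.det := by
    rw [h1, ← mul_assoc, ← mul_pow]
    simp
  rw [h4]
  split_ifs with hjn
  · congr 1
    unfold DF
    congr 1
    ext a b
    simp only [hM, Matrix.of_apply]
    split_ifs with hb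
    · rw [hb, hjn]
    · rfl
  · have hj' : j < n := by omega
    have h5 : M.det = 0 := by
      refine Matrix.det_zero_of_column_eq (i := ⟨j, by omega⟩) (j := Fin.last n) ?_ ?_
      · intro h
        have := congrArg Fin.val h
        simp at this
        omega
      · intro k
        simp only [hM, Matrix.of_apply, Fin.val_last]
        rw [if_neg (by omega)]
        simp
    rw [h5, mul_zero]

lemma EL_poly (l : List (K × K)) (m : ℕ) (hl : l.length = 2 * m + 1) (A B : K[X])
    (hA : A.natDegree ≤ m) (hB : B.natDegree < m) :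
    EL l (fun t => A.eval t.1 + t.2 * B.eval t.1) = A.coeff m * D l := by
  have h1 : ∀ t : K × K, A.eval t.1 + t.2 * B.eval t.1 =
      (∑ k ∈ range (m + 1), A.coeff k * cl (2 * k) t) +
        ∑ k ∈ range m, B.coeff k * cl (2 * k + 1) t := by
    intro t
    rw [Polynomial.eval_eq_sum_range' (Nat.lt_succ_of_le hA), Polynomial.eval_eq_sum_range' hB,
      mul_sum]
    congr 1
    · refine sum_congr rfl fun k _ => ?_
      rw [cl_even]
    · refine sum_congr rfl fun k _ => ?_
      rw [cl_odd]
      ring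
  simp_rw [h1]
  rw [EL_add, EL_sum, EL_sum]
  have h2 : ∑ k ∈ range m, B.coeff k * EL l (cl (2 * k + 1)) = 0 := by
    refine sum_eq_zero fun k hk => ?_
    rw [mem_range] at hk
    rw [EL_cl l (2 * m) _ hl (by omega), if_neg (by omega), mul_zero]
  have h3 : ∑ k ∈ range (m + 1), A.coeff k * EL l (cl (2 * k)) = A.coeff m * D l := by
    rw [sum_range_succ, sum_eq_zero, zero_add]
    · rw [EL_cl l (2 * m) _ hl (by omega), if_pos rfl]
      rw [pow_mul]
      simp
    · intro k hk
      rw [mem_range] at hk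
      rw [EL_cl l (2 * m) _ hl (by omega), if_neg (by omega), mul_zero]
  rw [h2, h3, add_zero]

lemma sum_range_two_mul (f : ℕ → K) (r : ℕ) :
    ∑ j ∈ range (2 * r), f j = ∑ k ∈ range r, (f (2 * k) + f (2 * k + 1)) := by
  induction r with
  | zero => simp
  | succ r ih =>
    rw [show 2 * (r + 1) = 2 * r + 1 + 1 by ring, sum_range_succ, sum_range_succ, ih, sum_range_succ]
    ring

/-- the linear form of an odd list -/
lemma F_poly (l : List (K × K)) (r : ℕ) (hl : l.length = 2 * r + 1) :
    ∃ h g : K[X], h.natDegree ≤ r ∧ g.natDegree ≤ r ∧ h.coeff r = D l ∧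
      ∀ t : K × K, D (t :: l) = g.eval t.1 - t.2 * h.eval t.1 := by
  obtain ⟨v, rfl⟩ := exists_ofFn l hl
  set c : ℕ → K := fun j => if hj : j < 2 * r + 1 + 1 then
    (-1) ^ j * Matrix.det (Matrix.of fun i j' : Fin (2 * r + 1) =>
      cl (((⟨j, hj⟩ : Fin (2 * r + 1 + 1)).succAbove j' : Fin (2 * r + 1 + 1)) : ℕ) (v i)) else 0 with hc
  have hD : ∀ t : K × K, D (t :: List.ofFn v) = ∑ k ∈ range (r + 1),
      (t.1 ^ k * c (2 * k) + t.2 * t.1 ^ k * c (2 * k + 1)) := by
    intro t
    have h3 : t :: List.ofFn v = List.ofFn (Fin.cons t v : Fin (2 * r + 1 + 1) → K × K) := by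
      rw [List.ofFn_succ]
      simp
    rw [h3, D_ofFn]
    unfold DF
    rw [Matrix.det_succ_row_zero]
    have h4 : ∀ j : Fin (2 * r + 1 + 1), (-1 : K) ^ (j : ℕ) *
        (Matrix.of fun i j : Fin (2 * r + 1 + 1) => cl (j : ℕ)
          ((Fin.cons t v : Fin (2 * r + 1 + 1) → K × K) i)) 0 j *
        Matrix.det ((Matrix.of fun i j : Fin (2 * r + 1 + 1) => cl (j : ℕ)
          ((Fin.cons t v : Fin (2 * r + 1 + 1) → K × K) i)).submatrix Fin.succ j.succAbove) =
        cl (j : ℕ) t * c j := by
      intro j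
      simp only [hc]
      rw [dif_pos j.2]
      simp only [Matrix.of_apply, Fin.cons_zero, Fin.eta]
      have h5 : (Matrix.of fun i j : Fin (2 * r + 1 + 1) => cl (j : ℕ)
          ((Fin.cons t v : Fin (2 * r + 1 + 1) → K × K) i)).submatrix Fin.succ j.succAbove =
          Matrix.of fun i j' : Fin (2 * r + 1) =>
            cl ((j.succAbove j' : Fin (2 * r + 1 + 1)) : ℕ) (v i) := by
        ext a b
        simp [Matrix.submatrix_apply]
      rw [h5]
      ring
    rw [sum_congr rfl fun j _ => h4 j, ← Finset.sum_range (fun j => cl j t * c j),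
      show (2 * r + 1).succ = 2 * (r + 1) by rw [Nat.succ_eq_add_one]; ring, sum_range_two_mul]
    refine sum_congr rfl fun k _ => ?_
    rw [cl_even, cl_odd]
  refine ⟨-∑ k ∈ range (r + 1), C (c (2 * k + 1)) * X ^ k,
    ∑ k ∈ range (r + 1), C (c (2 * k)) * X ^ k, ?_, ?_, ?_, ?_⟩
  · rw [natDegree_neg]
    refine natDegree_sum_le_of_forall_le _ _ fun k hk => ?_
    rw [mem_range] at hk
    exact (natDegree_C_mul_X_pow_le _ _).trans (by omega)
  · refine natDegree_sum_le_of_forall_le _ _ fun k hk => ?_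
    rw [mem_range] at hk
    exact (natDegree_C_mul_X_pow_le _ _).trans (by omega)
  · rw [coeff_neg, finsetSum_coeff, sum_range_succ, sum_eq_zero, zero_add]
    · rw [coeff_C_mul_X_pow, if_pos rfl]
      simp only [hc]
      rw [dif_pos (by omega), D_ofFn]
      unfold DF
      have h6 : (⟨2 * r + 1, by omega⟩ : Fin (2 * r + 1 + 1)) = Fin.last (2 * r + 1) := rfl
      rw [h6, Fin.succAbove_last]
      simp only [Fin.val_castSucc]
      have h7 : (-1 : K) ^ (2 * r + 1) = -1 := by
        rw [pow_succ, pow_mul]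
        simp
      rw [h7]
      ring
    · intro k hk
      rw [mem_range] at hk
      rw [coeff_C_mul_X_pow, if_neg (by omega)]
  · intro t
    rw [hD, eval_neg, eval_finsetSum, eval_finsetSum, mul_neg, sub_neg_eq_add, mul_sum,
      ← sum_add_distrib]
    refine sum_congr rfl fun k _ => ?_
    simp only [eval_mul, eval_C, eval_pow, eval_X]
    ring

/-- values of the linear form at the nodes -/
lemma D_node (l : List (K × K)) (k : ℕ) (hk : k < l.length) (x : K) :
    D (((l.getD k 0).1, x) :: l) = ((l.getD k 0).2 - x) *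
      ((-1) ^ k * ((l.eraseIdx k).map (fun m => m.1 - (l.getD k 0).1)).prod * D (l.eraseIdx k)) := by
  rw [D_row_move _ (k + 1) (by simpa using hk)]
  simp only [List.getD_cons_succ, List.eraseIdx_cons_succ]
  have h1 : l.getD k 0 = ((l.getD k 0).1, (l.getD k 0).2) := rfl
  conv_lhs => rw [h1]
  rw [D_wheel, pow_succ]
  ring

lemma hg_node (l : List (K × K)) (h g : K[X])
    (hF : ∀ t : K × K, D (t :: l) = g.eval t.1 - t.2 * h.eval t.1) (k : ℕ) (hk : k < l.length) :
    h.eval (l.getD k 0).1 =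
      (-1) ^ k * ((l.eraseIdx k).map (fun m => m.1 - (l.getD k 0).1)).prod * D (l.eraseIdx k) ∧
    g.eval (l.getD k 0).1 = (l.getD k 0).2 * h.eval (l.getD k 0).1 := by
  have h0 := D_node l k hk 0
  have h1 := D_node l k hk 1
  rw [hF] at h0 h1
  simp only at h0 h1
  have h2 : h.eval (l.getD k 0).1 =
      (-1) ^ k * ((l.eraseIdx k).map (fun m => m.1 - (l.getD k 0).1)).prod * D (l.eraseIdx k) := by
    linear_combination h0 - h1
  refine ⟨h2, ?_⟩
  rw [h2]
  linear_combination h0

end Pool.Agent.H757R2.CardyS
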