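import Mathlib

set_option autoImplicit false

namespace Pool.Agent.H757R2.HolderRadial

open Set Filter Topology Metric

/-- `m r ρ = max r (min 1 (ρ / r))`. -/
noncomputable def m (r ρ : ℝ) : ℝ := max r (min 1 (ρ / r))

/-- the stretching factor -/
noncomputable def c (r ρ : ℝ) : ℝ := (√(m r ρ))⁻¹

theorem m_pos {r : ℝ} (hr : 0 < r) (ρ : ℝ) : 0 < m r ρ := lt_of_lt_of_le hr (le_max_left _ _)

theorem c_pos {r : ℝ} (hr : 0 < r) (ρ : ℝ) : 0 < c r ρ := by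
  unfold c
  exact inv_pos.2 (Real.sqrt_pos.2 (m_pos hr ρ))

theorem m_mono {r : ℝ} (hr : 0 < r) {s t : ℝ} (h : s ≤ t) : m r s ≤ m r t := by
  unfold m
  have : s / r ≤ t / r := by gcongr
  exact max_le_max le_rfl (min_le_min le_rfl this)

theorem c_anti {r : ℝ} (hr : 0 < r) {s t : ℝ} (h : s ≤ t) : c r t ≤ c r s := by
  unfold c
  apply inv_anti₀ (Real.sqrt_pos.2 (m_pos hr s))
  exact Real.sqrt_le_sqrt (m_mono hr h)

theorem m_cont (r : ℝ) : Continuous (m r) := by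
  unfold m
  fun_prop

theorem c_cont {r : ℝ} (hr : 0 < r) : Continuous (c r) := by
  unfold c
  apply Continuous.inv₀
  · exact (m_cont r).sqrt
  · intro x
    exact (Real.sqrt_pos.2 (m_pos hr x)).ne'

/-- `m r t / t` is nonincreasing. -/
theorem m_div {r : ℝ} (hr : 0 < r) {s t : ℝ} (hs : 0 ≤ s) (h : s ≤ t) : s * m r t ≤ t * m r s := by
  unfold m
  have ht : 0 ≤ t := hs.trans h
  rcases le_total r (min 1 (t / r)) with h1 | h1
  · rw [max_eq_right h1]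
    have h2 : s * min 1 (t / r) ≤ t * min 1 (s / r) := by
      rcases le_total 1 (s / r) with h3 | h3
      · rw [min_eq_left h3, mul_one]
        calc s * min 1 (t / r) ≤ s * 1 := by gcongr; exact min_le_left _ _
          _ ≤ t := by linarith
      · rw [min_eq_right h3]
        calc s * min 1 (t / r) ≤ s * (t / r) := by gcongr; exact min_le_right _ _
          _ = t * (s / r) := by ring
    calc s * min 1 (t / r) ≤ t * min 1 (s / r) := h2
      _ ≤ _ := by gcongr; exact le_max_right _ _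
  · rw [max_eq_left h1]
    calc s * r ≤ t * r := by gcongr
      _ ≤ _ := by gcongr; exact le_max_left _ _

/-- the radial function has derivative at least half of its quotient -/
theorem radial_lower {r : ℝ} (hr : 0 < r) {s t : ℝ} (hs : 0 ≤ s) (h : s ≤ t) :
    (1 / 2) * c r t * (t - s) ≤ c r t * t - c r s * s := by
  have ht : 0 ≤ t := hs.trans h
  have hms := m_pos hr s
  have hmt := m_pos hr t
  set a := √(m r s) with ha
  set b := √(m r t) with hb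
  have ha0 : 0 < a := Real.sqrt_pos.2 hms
  have hb0 : 0 < b := Real.sqrt_pos.2 hmt
  have ha2 : a ^ 2 = m r s := Real.sq_sqrt hms.le
  have hb2 : b ^ 2 = m r t := Real.sq_sqrt hmt.le
  have h1 := m_div hr hs h
  rw [← ha2, ← hb2] at h1
  -- s b² ≤ t a²
  -- want: s b ≤ (s + t)/2 a
  have h2 : s * b ≤ (s + t) / 2 * a := by
    have h3 : (s * b) ^ 2 ≤ ((s + t) / 2 * a) ^ 2 := by
      calc (s * b) ^ 2 = s * (s * b ^ 2) := by ring
        _ ≤ s * (t * a ^ 2) := by gcongr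
        _ = (s * t) * a ^ 2 := by ring
        _ ≤ ((s + t) / 2) ^ 2 * a ^ 2 := by
            gcongr
            nlinarith [sq_nonneg (s - t)]
        _ = _ := by ring
    exact (pow_le_pow_iff_left₀ (by positivity) (by positivity) two_ne_zero).1 h3
  have hcs : c r s = a⁻¹ := rfl
  have hct : c r t = b⁻¹ := rfl
  rw [hcs, hct]
  have h3 : a⁻¹ * s ≤ b⁻¹ * ((s + t) / 2) := by
    rw [inv_mul_le_iff₀ ha0]
    calc s = (s * b) * b⁻¹ := by field_simp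
      _ ≤ ((s + t) / 2 * a) * b⁻¹ := by gcongr
      _ = _ := by ring
  nlinarith

theorem radial_upper {r : ℝ} (hr : 0 < r) {s t : ℝ} (hs : 0 ≤ s) (h : s ≤ t) :
    c r t * t - c r s * s ≤ c r s * (t - s) := by
  have ht : 0 ≤ t := hs.trans h
  have := c_anti hr h
  nlinarith

section
variable {E : Type*} [NormedAddCommGroup E] [InnerProductSpace ℝ E]

open scoped RealInnerProductSpace

/-- the radial stretch -/
noncomputable def F (r : ℝ) (z : E) : E := c r ‖z‖ • z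

theorem F_cont {r : ℝ} (hr : 0 < r) : Continuous (F r : E → E) := by
  unfold F
  exact ((c_cont hr).comp continuous_norm).smul continuous_id

theorem norm_sub_sq_smul (a b : ℝ) (z w : E) :
    ‖a • z - b • w‖ ^ 2 = (a * ‖z‖ - b * ‖w‖) ^ 2 + 2 * a * b * (‖z‖ * ‖w‖ - ⟪z, w⟫) := by
  rw [norm_sub_sq_real, norm_smul, norm_smul, inner_smul_left, inner_smul_right]
  simp only [Real.norm_eq_abs, conj_trivial]
  rw [mul_pow, mul_pow, sq_abs, sq_abs]
  ring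

theorem F_bounds {r : ℝ} (hr : 0 < r) {z w : E} (h : ‖z‖ ≤ ‖w‖) :
    (1 / 2) * c r ‖w‖ * ‖z - w‖ ≤ ‖F r z - F r w‖ ∧ ‖F r z - F r w‖ ≤ c r ‖z‖ * ‖z - w‖ := by
  have hz := norm_nonneg z
  have hw := norm_nonneg w
  have hcz := c_pos hr ‖z‖
  have hcw := c_pos hr ‖w‖
  have hcc := c_anti hr h
  have h1 := radial_lower hr hz h
  have h2 := radial_upper hr hz h
  have hi : 0 ≤ ‖z‖ * ‖w‖ - ⟪z, w⟫ := sub_nonneg.2 (real_inner_le_norm z w)
  have e1 : ‖F r z - F r w‖ ^ 2 = (c r ‖z‖ * ‖z‖ - c r ‖w‖ * ‖w‖) ^ 2 +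
      2 * c r ‖z‖ * c r ‖w‖ * (‖z‖ * ‖w‖ - ⟪z, w⟫) := norm_sub_sq_smul _ _ _ _
  have e2 : ‖z - w‖ ^ 2 = (‖z‖ - ‖w‖) ^ 2 + 2 * (‖z‖ * ‖w‖ - ⟪z, w⟫) := by
    have := norm_sub_sq_smul (E := E) 1 1 z w
    simpa using this
  have hd : 0 ≤ ‖w‖ - ‖z‖ := sub_nonneg.2 h
  constructor
  · apply le_of_sq_le_sq _ (norm_nonneg _)
    rw [e1, mul_pow, e2]
    have h3 : ((1 / 2) * c r ‖w‖) ^ 2 * (‖z‖ - ‖w‖) ^ 2 ≤ (c r ‖z‖ * ‖z‖ - c r ‖w‖ * ‖w‖) ^ 2 := by
      have h4 : 0 ≤ (1 / 2) * c r ‖w‖ * (‖w‖ - ‖z‖) := by positivity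
      have h5 := pow_le_pow_left₀ h4 h1 2
      calc _ = ((1 / 2) * c r ‖w‖ * (‖w‖ - ‖z‖)) ^ 2 := by ring
        _ ≤ _ := h5
        _ = _ := by ring
    have h4 : ((1 / 2) * c r ‖w‖) ^ 2 * (2 * (‖z‖ * ‖w‖ - ⟪z, w⟫)) ≤
        2 * c r ‖z‖ * c r ‖w‖ * (‖z‖ * ‖w‖ - ⟪z, w⟫) := by
      have h5 : ((1 / 2) * c r ‖w‖) ^ 2 * 2 ≤ 2 * c r ‖z‖ * c r ‖w‖ := by nlinarith
      calc _ = (((1 / 2) * c r ‖w‖) ^ 2 * 2) * (‖z‖ * ‖w‖ - ⟪z, w⟫) := by ring
        _ ≤ _ := by gcongr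
    nlinarith
  · apply le_of_sq_le_sq _ (by positivity)
    rw [e1, mul_pow, e2]
    have h0 : 0 ≤ c r ‖w‖ * ‖w‖ - c r ‖z‖ * ‖z‖ := by
      refine le_trans ?_ h1
      positivity
    have h3 : (c r ‖z‖ * ‖z‖ - c r ‖w‖ * ‖w‖) ^ 2 ≤ c r ‖z‖ ^ 2 * (‖z‖ - ‖w‖) ^ 2 := by
      have h5 := pow_le_pow_left₀ h0 h2 2
      calc _ = (c r ‖w‖ * ‖w‖ - c r ‖z‖ * ‖z‖) ^ 2 := by ring
        _ ≤ _ := h5
        _ = _ := by ring
    have h4 : 2 * c r ‖z‖ * c r ‖w‖ * (‖z‖ * ‖w‖ - ⟪z, w⟫) ≤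
        c r ‖z‖ ^ 2 * (2 * (‖z‖ * ‖w‖ - ⟪z, w⟫)) := by
      have h5 : 2 * c r ‖z‖ * c r ‖w‖ ≤ c r ‖z‖ ^ 2 * 2 := by nlinarith
      calc _ ≤ (c r ‖z‖ ^ 2 * 2) * (‖z‖ * ‖w‖ - ⟪z, w⟫) := by gcongr
        _ = _ := by ring
    nlinarith

theorem F_inj {r : ℝ} (hr : 0 < r) : Function.Injective (F r : E → E) := by
  intro z w hzw
  rcases le_total ‖z‖ ‖w‖ with h | h
  · have h1 := (F_bounds hr h).1
    rw [hzw, sub_self, norm_zero] at h1
    have h2 : ‖z - w‖ ≤ 0 := by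
      by_contra h3
      push Not at h3
      have := c_pos hr ‖w‖
      have : 0 < (1 / 2) * c r ‖w‖ * ‖z - w‖ := by positivity
      linarith
    exact sub_eq_zero.1 (norm_le_zero_iff.1 h2)
  · have h1 := (F_bounds hr h).1
    rw [hzw, sub_self, norm_zero] at h1
    have h2 : ‖w - z‖ ≤ 0 := by
      by_contra h3
      push Not at h3
      have := c_pos hr ‖z‖
      have : 0 < (1 / 2) * c r ‖z‖ * ‖w - z‖ := by positivity
      linarith
    exact (sub_eq_zero.1 (norm_le_zero_iff.1 h2)).symm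

/-- local two-sided estimate with a fixed centre -/
theorem F_local {r : ℝ} (hr : 0 < r) (z : E) :
    ∀ᶠ w in 𝓝 z, (1 / 4) * c r ‖z‖ * ‖w - z‖ ≤ ‖F r w - F r z‖ ∧
      ‖F r w - F r z‖ ≤ 2 * c r ‖z‖ * ‖w - z‖ := by
  have hc : Continuous (fun w : E => c r ‖w‖) := (c_cont hr).comp continuous_norm
  have h0 := c_pos hr ‖z‖
  have h1 : ∀ᶠ w in 𝓝 z, c r ‖w‖ < 2 * c r ‖z‖ := hc.continuousAt.eventually_lt_const (by linarith)
  have h2 : ∀ᶠ w in 𝓝 z, (1 / 2) * c r ‖z‖ < c r ‖w‖ :=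
    hc.continuousAt.eventually_const_lt (by linarith)
  filter_upwards [h1, h2] with w h3 h4
  have hn := norm_nonneg (w - z)
  rcases le_total ‖z‖ ‖w‖ with h | h
  · obtain ⟨h5, h6⟩ := F_bounds hr h
    rw [norm_sub_rev (F r z), norm_sub_rev z w] at h5 h6
    constructor
    · refine le_trans ?_ h5
      have : (1 / 4) * c r ‖z‖ ≤ (1 / 2) * c r ‖w‖ := by linarith
      gcongr
    · refine h6.trans ?_
      have : c r ‖z‖ ≤ 2 * c r ‖z‖ := by linarith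
      gcongr
  · obtain ⟨h5, h6⟩ := F_bounds hr h
    constructor
    · refine le_trans ?_ h5
      have : (1 / 4) * c r ‖z‖ ≤ (1 / 2) * c r ‖z‖ := by linarith
      gcongr
    · refine h6.trans ?_
      gcongr

theorem F_outer {r : ℝ} (hr : 0 < r) (hr1 : r ≤ 1) {z : E} (h : r ≤ ‖z‖) : F r z = z := by
  have : m r ‖z‖ = 1 := by
    unfold m
    rw [min_eq_left ((one_le_div hr).2 h), max_eq_right hr1]
  unfold F c
  rw [this, Real.sqrt_one, inv_one, one_smul]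

theorem F_inner {r : ℝ} (hr : 0 < r) {z : E} (h : ‖z‖ ≤ r ^ 2) :
    F r z = (√r)⁻¹ • z := by
  have : m r ‖z‖ = r := by
    unfold m
    have h1 : ‖z‖ / r ≤ r := by
      rw [div_le_iff₀ hr]; nlinarith
    exact max_eq_left ((min_le_right _ _).trans h1)
  unfold F c
  rw [this]

theorem norm_F {r : ℝ} (hr : 0 < r) (z : E) : ‖F r z‖ = c r ‖z‖ * ‖z‖ := by
  unfold F
  rw [norm_smul, Real.norm_eq_abs, abs_of_pos (c_pos hr _)]

theorem norm_F_lt {r : ℝ} (hr : 0 < r) (hr1 : r ≤ 1) {z : E} (h : ‖z‖ < r) : ‖F r z‖ < r := by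
  rw [norm_F hr]
  have h1 := radial_lower hr (norm_nonneg z) h.le
  have h2 : c r r = 1 := by
    unfold c m
    rw [div_self hr.ne', min_self, max_eq_right hr1, Real.sqrt_one, inv_one]
  rw [h2] at h1
  linarith

/-- `c r ρ ≤ 1 + ρ^(-1/4)` -/
theorem c_le {r : ℝ} (hr : 0 < r) {ρ : ℝ} (hρ : 0 < ρ) : c r ρ ≤ 1 + ρ ^ (-(1 / 4) : ℝ) := by
  have hp : 0 < ρ ^ (-(1 / 4) : ℝ) := Real.rpow_pos_of_pos hρ _
  by_cases h : r ≤ ρ
  · have h1 : 1 ≤ m r ρ := by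
      unfold m
      rw [min_eq_left ((one_le_div hr).2 h)]
      exact le_max_right _ _
    have : c r ρ ≤ 1 := by
      unfold c
      apply inv_le_one_of_one_le₀
      rw [Real.one_le_sqrt]; exact h1
    linarith
  · push Not at h
    have h1 : √ρ ≤ m r ρ := by
      unfold m
      have h2 : ρ / r ≤ 1 := (div_le_one hr).2 h.le
      rw [min_eq_right h2]
      by_cases h3 : √ρ ≤ r
      · exact h3.trans (le_max_left _ _)
      · push Not at h3
        refine le_trans ?_ (le_max_right _ _)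
        rw [le_div_iff₀ hr]
        calc √ρ * r ≤ √ρ * √ρ := by gcongr
          _ = ρ := Real.mul_self_sqrt hρ.le
    have h2 : c r ρ ≤ ρ ^ (-(1 / 4) : ℝ) := by
      unfold c
      rw [Real.rpow_neg hρ.le]
      apply inv_anti₀ (Real.rpow_pos_of_pos hρ _)
      calc ρ ^ (1 / 4 : ℝ) = √(√ρ) := by
            rw [Real.sqrt_eq_rpow, Real.sqrt_eq_rpow, ← Real.rpow_mul hρ.le]; norm_num
        _ ≤ _ := Real.sqrt_le_sqrt h1
    linarith

theorem F_holder {r : ℝ} (hr : 0 < r) (z w : E) :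
    ‖F r z - F r w‖ ≤ 4 * (‖z - w‖ + ‖z - w‖ ^ (3 / 4 : ℝ)) := by
  wlog h : ‖z‖ ≤ ‖w‖ with H
  · have := H hr w z (le_of_not_ge h)
    rwa [norm_sub_rev, norm_sub_rev w z] at this
  set d := ‖z - w‖ with hd
  have hd0 : 0 ≤ d := norm_nonneg _
  rcases hd0.eq_or_lt with h0 | h0
  · have : z = w := by
      rw [← sub_eq_zero, ← norm_eq_zero]; exact h0.symm
    rw [this, sub_self, norm_zero]
    positivity
  have hpow : d ^ (-(1 / 4) : ℝ) * d = d ^ (3 / 4 : ℝ) := by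
    nth_rewrite 2 [← Real.rpow_one d]
    rw [← Real.rpow_add h0]; norm_num
  by_cases h1 : d ≤ ‖z‖
  · have h2 := (F_bounds hr h).2
    have h3 : c r ‖z‖ ≤ 1 + d ^ (-(1 / 4) : ℝ) := (c_anti hr h1).trans (c_le hr h0)
    calc ‖F r z - F r w‖ ≤ c r ‖z‖ * d := h2
      _ ≤ (1 + d ^ (-(1 / 4) : ℝ)) * d := by gcongr
      _ = d + d ^ (3 / 4 : ℝ) := by rw [add_mul, one_mul, hpow]
      _ ≤ _ := by
        have : 0 ≤ d ^ (3 / 4 : ℝ) := by positivity
        linarith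
  · push Not at h1
    have hw : ‖w‖ ≤ 2 * d := by
      have : ‖w‖ ≤ ‖z‖ + ‖z - w‖ := by
        have := norm_sub_norm_le w z
        rw [norm_sub_rev] at this
        linarith
      linarith
    have hR : ∀ s : ℝ, 0 ≤ s → s ≤ 2 * d → c r s * s ≤ 2 * (d + d ^ (3 / 4 : ℝ)) := by
      intro s hs hs2
      have h4 := radial_lower hr hs hs2
      have h5 : c r s * s ≤ c r (2 * d) * (2 * d) := by
        have : 0 ≤ (1 / 2) * c r (2 * d) * (2 * d - s) := by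
          have := c_pos hr (2 * d)
          have : 0 ≤ 2 * d - s := by linarith
          positivity
        linarith
      have h6 : c r (2 * d) ≤ 1 + d ^ (-(1 / 4) : ℝ) :=
        (c_anti hr (by linarith : d ≤ 2 * d)).trans (c_le hr h0)
      calc c r s * s ≤ c r (2 * d) * (2 * d) := h5
        _ ≤ (1 + d ^ (-(1 / 4) : ℝ)) * (2 * d) := by gcongr
        _ = 2 * (d + d ^ (3 / 4 : ℝ)) := by rw [← hpow]; ring
    calc ‖F r z - F r w‖ ≤ ‖F r z‖ + ‖F r w‖ := norm_sub_le _ _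
      _ = c r ‖z‖ * ‖z‖ + c r ‖w‖ * ‖w‖ := by rw [norm_F hr, norm_F hr]
      _ ≤ 2 * (d + d ^ (3 / 4 : ℝ)) + 2 * (d + d ^ (3 / 4 : ℝ)) :=
        add_le_add (hR _ (norm_nonneg _) (by linarith)) (hR _ (norm_nonneg _) hw)
      _ = _ := by ring

end

end Pool.Agent.H757R2.HolderRadial
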