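import Mathlib

/-!
# Integral projection to the kernel of a symmetric integer matrix (TEAM-PGST, task GALOIS)
-/

namespace Pool.Agent.H757R2.PgstG

open Polynomial Matrix Finset

variable {I : Type*} [Fintype I] [DecidableEq I]

lemma isSymm_aeval (N : Matrix I I ℤ) (hN : N.IsSymm) (h : ℤ[X]) : (aeval N h).IsSymm := by
  unfold Matrix.IsSymm
  rw [aeval_eq_sum_range, Matrix.transpose_sum]
  apply Finset.sum_congr rfl
  intro k _
  rw [Matrix.transpose_smul, Matrix.transpose_pow, hN.eq]

lemma mul_eq_zero_of_pow (N B : Matrix I I ℤ) (hN : N.IsSymm) (hB : B.IsSymm)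
    (hc : N * B = B * N) : ∀ k : ℕ, N ^ k * B = 0 → N * B = 0 := by
  have hcp : ∀ k : ℕ, N ^ k * B = B * N ^ k := by
    intro k
    exact (Commute.pow_left hc k).eq
  intro k
  induction k with
  | zero => intro h; rw [pow_zero, one_mul] at h; rw [h, mul_zero]
  | succ k ih =>
    intro h
    cases k with
    | zero => simpa using h
    | succ j =>
      apply ih
      have h1 : (N ^ (j + 1) * B)ᴴ * (N ^ (j + 1) * B) = 0 := by
        have h2 : (N ^ (j + 1) * B)ᴴ = B * N ^ (j + 1) := by
          rw [Matrix.conjTranspose_eq_transpose_of_trivial, Matrix.transpose_mul,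
            Matrix.transpose_pow, hN.eq, hB.eq]
        rw [h2]
        have h3 : B * N ^ (j + 1) * (N ^ (j + 1) * B) = B * (N ^ j * (N ^ (j + 1 + 1) * B)) := by
          have e1 : N ^ (j + 1) * (N ^ (j + 1) * B) = N ^ j * (N ^ (j + 1 + 1) * B) := by
            rw [← mul_assoc, ← mul_assoc, ← pow_add, ← pow_add]
            congr 2
            omega
          rw [mul_assoc, e1]
        rw [h3, h, mul_zero, mul_zero]
      exact Matrix.conjTranspose_mul_self_eq_zero.mp h1

lemma pow_entry_bound (N : Matrix I I ℤ) (ν ρ : ℝ) (hN : ∀ i j, |(N i j : ℝ)| ≤ ν)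
    (h1 : 1 ≤ ρ) (h2 : Fintype.card I * ν ≤ ρ) (k : ℕ) :
    ∀ i j, |((N ^ k) i j : ℝ)| ≤ ρ ^ k := by
  induction k with
  | zero =>
    intro i j
    rw [pow_zero, pow_zero, Matrix.one_apply]
    split_ifs <;> simp
  | succ k ih =>
    intro i j
    rw [pow_succ, Matrix.mul_apply]
    push_cast
    calc |∑ l, ((N ^ k) i l : ℝ) * (N l j : ℝ)| ≤ ∑ l, |((N ^ k) i l : ℝ) * (N l j : ℝ)| :=
          Finset.abs_sum_le_sum_abs _ _
      _ ≤ ∑ l : I, ρ ^ k * ν := by
          apply Finset.sum_le_sum
          intro l _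
          rw [abs_mul]
          have h3 := ih i l
          have h4 := hN l j
          gcongr
      _ = ρ ^ k * (Fintype.card I * ν) := by
          rw [Finset.sum_const, Finset.card_univ, nsmul_eq_mul]; ring
      _ ≤ ρ ^ (k + 1) := by
          rw [pow_succ]; gcongr

lemma root_charpoly_bound (N : Matrix I I ℤ) (ν : ℝ) (hN : ∀ i j, |(N i j : ℝ)| ≤ ν) (z : ℂ)
    (hz : ((N.charpoly).map (Int.castRingHom ℂ)).IsRoot z) : ‖z‖ ≤ Fintype.card I * ν := by
  rw [← Matrix.charpoly_map] at hz
  have h1 := Matrix.mem_spectrum_iff_isRoot_charpoly.mpr hz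
  rw [← Matrix.spectrum_toLin'] at h1
  have h2 := Module.End.hasEigenvalue_iff_mem_spectrum.mpr h1
  obtain ⟨k, hk⟩ := eigenvalue_mem_ball h2
  rw [mem_closedBall_iff_norm] at hk
  have h3 : ‖z‖ ≤ ∑ j, ‖((Int.castRingHom ℂ).mapMatrix N) k j‖ := by
    calc ‖z‖ = ‖(z - ((Int.castRingHom ℂ).mapMatrix N) k k) + ((Int.castRingHom ℂ).mapMatrix N) k k‖ := by
          congr 1; ring
      _ ≤ ‖z - ((Int.castRingHom ℂ).mapMatrix N) k k‖ + ‖((Int.castRingHom ℂ).mapMatrix N) k k‖ :=
          norm_add_le _ _
      _ ≤ (∑ j ∈ Finset.univ.erase k, ‖((Int.castRingHom ℂ).mapMatrix N) k j‖) +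
            ‖((Int.castRingHom ℂ).mapMatrix N) k k‖ := by
          gcongr
          exact hk
      _ = _ := Finset.sum_erase_add _ _ (Finset.mem_univ k)
  refine h3.trans ?_
  calc ∑ j, ‖((Int.castRingHom ℂ).mapMatrix N) k j‖ ≤ ∑ _j : I, ν := by
        apply Finset.sum_le_sum
        intro j _
        have := hN k j
        simp only [RingHom.mapMatrix_apply, Matrix.map_apply, Int.coe_castRingHom]
        rw [Complex.norm_intCast]
        exact this
    _ = Fintype.card I * ν := by rw [Finset.sum_const, Finset.card_univ, nsmul_eq_mul]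

theorem exists_proj (N : Matrix I I ℤ) (hN : N.IsSymm) (ν ρ : ℝ) (hν : ∀ i j, |(N i j : ℝ)| ≤ ν)
    (h1 : 1 ≤ ρ) (h2 : Fintype.card I * ν ≤ ρ) :
    ∃ h : ℤ[X], h.coeff 0 ≠ 0 ∧ N * aeval N h = 0 ∧
      ∀ i j, |((aeval N h) i j : ℝ)| ≤
        (Fintype.card I + 1) * 2 ^ (Fintype.card I) * ρ ^ (2 * Fintype.card I) := by
  obtain ⟨h, hh, hnd⟩ := exists_eq_pow_rootMultiplicity_mul_and_not_dvd N.charpoly
    (Matrix.charpoly_monic N).ne_zero 0
  rw [C_0, sub_zero] at hh hnd
  set k := rootMultiplicity 0 N.charpoly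
  have hmon : h.Monic := by
    have h3 : (X ^ k * h : ℤ[X]).Monic := hh ▸ Matrix.charpoly_monic N
    exact (monic_X_pow k).of_mul_monic_left h3
  have hdeg : h.natDegree ≤ Fintype.card I := by
    have h3 := congrArg natDegree hh
    rw [Matrix.charpoly_natDegree_eq_dim, (monic_X_pow k).natDegree_mul hmon] at h3
    omega
  refine ⟨h, ?_, ?_, ?_⟩
  · intro h0
    exact hnd (X_dvd_iff.mpr h0)
  · have h3 : N ^ k * aeval N h = 0 := by
      have h4 := Matrix.aeval_self_charpoly N
      rw [hh, map_mul, map_pow, aeval_X] at h4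
      exact h4
    refine mul_eq_zero_of_pow N _ hN (isSymm_aeval N hN h) ?_ k h3
    have h4 : N * aeval N h = aeval N (X * h) := by rw [map_mul, aeval_X]
    have h5 : aeval N h * N = aeval N (h * X) := by rw [map_mul, aeval_X]
    rw [h4, h5, mul_comm]
  · intro i j
    have hcoef : ∀ l, |(h.coeff l : ℝ)| ≤ ρ ^ (Fintype.card I) * 2 ^ (Fintype.card I) := by
      intro l
      have h3 := coeff_bdd_of_roots_le (B := ρ) (d := Fintype.card I) (RingHom.id ℂ)
        (p := h.map (Int.castRingHom ℂ)) (hmon.map _) (IsAlgClosed.splits _)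
        (by rw [hmon.natDegree_map]; exact hdeg) (by
          intro z hz
          rw [Polynomial.map_id] at hz
          have h4 : (h.map (Int.castRingHom ℂ)).IsRoot z := isRoot_of_mem_roots hz
          have h5 : ((N.charpoly).map (Int.castRingHom ℂ)).IsRoot z := by
            rw [hh, Polynomial.map_mul]
            exact root_mul_left_of_isRoot _ h4
          exact (root_charpoly_bound N ν hν z h5).trans h2) l
      rw [Polynomial.map_id, coeff_map, max_eq_left h1] at h3
      simp only [Int.coe_castRingHom, Complex.norm_intCast] at h3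
      refine h3.trans ?_
      gcongr
      have := Nat.choose_le_two_pow (Fintype.card I) (Fintype.card I / 2)
      exact_mod_cast this
    rw [aeval_eq_sum_range, Matrix.sum_apply]
    push_cast
    calc |∑ l ∈ Finset.range (h.natDegree + 1), ((((h.coeff l) • N ^ l) i j : ℤ) : ℝ)|
        ≤ ∑ l ∈ Finset.range (h.natDegree + 1), |((((h.coeff l) • N ^ l) i j : ℤ) : ℝ)| :=
          Finset.abs_sum_le_sum_abs _ _
      _ ≤ ∑ l ∈ Finset.range (h.natDegree + 1),
            (ρ ^ (Fintype.card I) * 2 ^ (Fintype.card I)) * ρ ^ (Fintype.card I) := by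
          apply Finset.sum_le_sum
          intro l hl
          rw [Matrix.smul_apply, smul_eq_mul]
          push_cast
          rw [abs_mul]
          have h3 := hcoef l
          have h4 := pow_entry_bound N ν ρ hν h1 h2 l i j
          have h5 : ρ ^ l ≤ ρ ^ (Fintype.card I) := by
            apply pow_le_pow_right₀ h1
            have := Finset.mem_range.mp hl
            omega
          gcongr
          exact h4.trans h5
      _ = ((h.natDegree + 1 : ℕ) : ℝ) * (2 ^ (Fintype.card I) * ρ ^ (2 * Fintype.card I)) := by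
          rw [Finset.sum_const, Finset.card_range, nsmul_eq_mul, two_mul, pow_add]
          ring
      _ ≤ ((Fintype.card I : ℝ) + 1) * (2 ^ (Fintype.card I) * ρ ^ (2 * Fintype.card I)) := by
          gcongr
          push_cast
          have : (h.natDegree : ℝ) ≤ Fintype.card I := by exact_mod_cast hdeg
          linarith
      _ = _ := by ring

end Pool.Agent.H757R2.PgstG
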