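import Pool.Agent.H757R2.PgstGalois1

/-!
# The Galois-theoretic core (TEAM-PGST, task GALOIS)
-/

namespace Pool.Agent.H687R2.Pgst

/-- The block Vandermonde matrix. -/
noncomputable def bvand {m₀ m₁ : ℕ} (θ₀ : Fin m₀ → ℝ) (θ₁ : Fin m₁ → ℝ) :
    Matrix (Fin m₀ ⊕ Fin m₁) (Fin m₀ ⊕ Fin m₁) ℝ :=
  Matrix.fromBlocks (Matrix.vandermonde θ₀) 0 0 (Matrix.vandermonde θ₁)

end Pool.Agent.H687R2.Pgst

namespace Pool.Agent.H757R2.PgstG

open Polynomial Matrix Finset
open Pool.Agent.H687R2.Pgst (bvand)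

section Gal

variable {K : Type} [Field K] [Algebra ℚ K] [FiniteDimensional ℚ K] [IsGalois ℚ K]

lemma int_of_fixed (x : K) (hx : IsIntegral ℤ x) (hf : ∀ s : K ≃ₐ[ℚ] K, s x = x) :
    ∃ z : ℤ, (z : K) = x := by
  have h1 := (IsGalois.mem_range_algebraMap_iff_fixed (F := ℚ) x).mpr hf
  obtain ⟨q, hq⟩ := h1
  rw [← hq] at hx
  have h2 : IsIntegral ℤ q := (isIntegral_algebraMap_iff (algebraMap ℚ K).injective).mp hx
  obtain ⟨z, hz⟩ := IsIntegrallyClosed.isIntegral_iff.mp h2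
  refine ⟨z, ?_⟩
  rw [← hq, ← hz]
  simp

end Gal

lemma adj_eq {K : Type} [Field K] {I : Type} [Fintype I] [DecidableEq I] (A : Matrix I I K)
    (hA : A.det ≠ 0) : A.adjugate = A.det • A⁻¹ := by
  rw [Matrix.inv_def, smul_smul, Ring.mul_inverse_cancel _ (isUnit_iff_ne_zero.mpr hA), one_smul]

lemma adj_submatrix {K : Type} [Field K] {I : Type} [Fintype I] [DecidableEq I] (A : Matrix I I K)
    (hA : A.det ≠ 0) (π : Equiv.Perm I) :
    (A.submatrix π id).adjugate = ((Equiv.Perm.sign π : ℤ) : K) • A.adjugate.submatrix id π := by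
  have h1 : (A.submatrix π id).det = ((Equiv.Perm.sign π : ℤ) : K) * A.det :=
    Matrix.det_permute π A
  have hs : ((Equiv.Perm.sign π : ℤ) : K) ≠ 0 := by
    rcases Int.units_eq_one_or (Equiv.Perm.sign π) with h | h <;> simp [h]
  have h2 : (A.submatrix π id).det ≠ 0 := by rw [h1]; exact mul_ne_zero hs hA
  rw [adj_eq _ h2, adj_eq _ hA, h1]
  have h3 : (A.submatrix π id)⁻¹ = A⁻¹.submatrix id π :=
    Matrix.inv_submatrix_equiv A π (Equiv.refl I)
  rw [h3]
  ext i j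
  simp [mul_assoc]

lemma det_bound {I : Type} [Fintype I] [DecidableEq I] (A : Matrix I I ℝ) (r : ℕ)
    (hA : ∀ i j, |A i j| ≤ 2 ^ (r * Fintype.card I)) :
    |A.det| ≤ 2 ^ (Fintype.card I ^ 2 * (r + 1)) := by
  have h1 := Matrix.det_le (A := A) (abv := AbsoluteValue.abs) (x := 2 ^ (r * Fintype.card I)) hA
  simp only [AbsoluteValue.abs_apply, nsmul_eq_mul] at h1
  refine h1.trans ?_
  set m := Fintype.card I
  have h2 : ((m.factorial : ℕ) : ℝ) ≤ 2 ^ (m * m) := by
    have h3 : m.factorial ≤ m ^ m := Nat.factorial_le_pow m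
    have h4 : m ^ m ≤ (2 ^ m) ^ m := Nat.pow_le_pow_left (Nat.lt_two_pow_self).le _
    rw [← pow_mul] at h4
    exact_mod_cast h3.trans h4
  calc ((m.factorial : ℕ) : ℝ) * (2 ^ (r * m)) ^ m ≤ 2 ^ (m * m) * (2 ^ (r * m)) ^ m := by gcongr
    _ = 2 ^ (m ^ 2 * (r + 1)) := by
      rw [← pow_mul, ← pow_add]; congr 1; ring

lemma adj_bound {I : Type} [Fintype I] [DecidableEq I] (A : Matrix I I ℝ) (r : ℕ)
    (hA : ∀ i j, |A i j| ≤ 2 ^ (r * Fintype.card I)) (i j : I) :
    |A.adjugate i j| ≤ 2 ^ (Fintype.card I ^ 2 * (r + 1)) := by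
  rw [Matrix.adjugate_apply]
  apply det_bound
  intro a b
  rw [Matrix.updateRow_apply]
  split_ifs with h
  · rw [Pi.single_apply]
    have : (1 : ℝ) ≤ 2 ^ (r * Fintype.card I) := one_le_pow₀ (by norm_num)
    split_ifs
    · simpa using this
    · simp
  · exact hA a b

theorem core {K : Type} [Field K] [Algebra ℚ K] [FiniteDimensional ℚ K] [IsGalois ℚ K]
    {m₀ m₁ : ℕ} (ι : K →+* ℝ) (t : Fin m₀ ⊕ Fin m₁ → K)
    (hint : ∀ i, IsIntegral ℤ (t i))
    (inj₀ : Function.Injective fun i => t (Sum.inl i))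
    (inj₁ : Function.Injective fun i => t (Sum.inr i))
    (hperm : ∀ s : K ≃ₐ[ℚ] K, ∃ (σ₀ : Equiv.Perm (Fin m₀)) (σ₁ : Equiv.Perm (Fin m₁)),
      (∀ i, s (t (Sum.inl i)) = t (Sum.inl (σ₀ i))) ∧ (∀ i, s (t (Sum.inr i)) = t (Sum.inr (σ₁ i))))
    (hgen : ∀ s s' : K ≃ₐ[ℚ] K, (∀ i, s (t i) = s' (t i)) → s = s')
    (r : ℕ) (hr : ∀ i, |ι (t i)| ≤ 2 ^ r) :
    ∃ M C N : Matrix (Fin m₀ ⊕ Fin m₁) (Fin m₀ ⊕ Fin m₁) ℤ,
      (∀ i j, |M i j| ≤ 2 ^ (10 * (m₀ + m₁ + 1) ^ 3 * (r + 1))) ∧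
      (∀ i j, |C i j| ≤ 2 ^ (10 * (m₀ + m₁ + 1) ^ 3 * (r + 1))) ∧
      (∀ i j, |N i j| ≤ 2 ^ (10 * (m₀ + m₁ + 1) ^ 3 * (r + 1))) ∧
      (M.map (Int.cast : ℤ → ℝ) =
        bvand (fun i => ι (t (Sum.inl i))) (fun i => ι (t (Sum.inr i))) *
          C.map (Int.cast : ℤ → ℝ) *
          (bvand (fun i => ι (t (Sum.inl i))) (fun i => ι (t (Sum.inr i)))).transpose) ∧
      (∀ i, ∑ j, (M i j : ℝ) * ι (t j) = 0) ∧ (∀ i, ∑ j, M i j = 0) ∧
      (∀ w : Fin m₀ ⊕ Fin m₁ → ℤ, (∀ i, ∑ j, M i j * w j = 0) →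
        ∃ y : Fin m₀ ⊕ Fin m₁ → ℝ, ∀ i, (w i : ℝ) = ∑ j, (N i j : ℝ) * y j) ∧
      (∀ l : Fin m₀ ⊕ Fin m₁ → ℤ, ∑ i, l i = 0 → ∑ i, (l i : ℝ) * ι (t i) = 0 →
        ∀ j, ∑ i, l i * N i j = 0) := by
  classical
  have : CharZero K := algebraRat.charZero K
  set m := m₀ + m₁ with hm
  have hcard : Fintype.card (Fin m₀ ⊕ Fin m₁) = m := by simp [hm]
  -- permutations
  have hπ : ∀ s : K ≃ₐ[ℚ] K, ∃ π : Equiv.Perm (Fin m₀ ⊕ Fin m₁), (∀ i, s (t i) = t (π i)) ∧
      ∀ i a, s ((Matrix.fromBlocks (Matrix.vandermonde fun i => t (Sum.inl i)) 0 0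
        (Matrix.vandermonde fun i => t (Sum.inr i)) : Matrix _ _ K) i a) =
      (Matrix.fromBlocks (Matrix.vandermonde fun i => t (Sum.inl i)) 0 0
        (Matrix.vandermonde fun i => t (Sum.inr i)) : Matrix _ _ K) (π i) a := by
    intro s
    obtain ⟨σ₀, σ₁, h0, h1⟩ := hperm s
    refine ⟨Equiv.sumCongr σ₀ σ₁, ?_, ?_⟩
    · rintro (i | i)
      · simpa using h0 i
      · simpa using h1 i
    · rintro (i | i) (a | a)
      · simp [Matrix.vandermonde_apply, h0]
      · simp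
      · simp
      · simp [Matrix.vandermonde_apply, h1]
  set V : Matrix (Fin m₀ ⊕ Fin m₁) (Fin m₀ ⊕ Fin m₁) K :=
    Matrix.fromBlocks (Matrix.vandermonde fun i => t (Sum.inl i)) 0 0
        (Matrix.vandermonde fun i => t (Sum.inr i)) with hV
  choose π hπt hπV using hπ
  have hVdet : V.det ≠ 0 := by
    rw [hV, Matrix.det_fromBlocks_zero₂₁]
    exact mul_ne_zero (Matrix.det_vandermonde_ne_zero_iff.mpr inj₀)
      (Matrix.det_vandermonde_ne_zero_iff.mpr inj₁)
  have hVint : ∀ i a, IsIntegral ℤ (V i a) := by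
    rintro (i | i) (a | a)
    · simp only [hV, Matrix.fromBlocks_apply₁₁, Matrix.vandermonde_apply]; exact (hint _).pow _
    · simp only [hV, Matrix.fromBlocks_apply₁₂, Matrix.zero_apply]; exact isIntegral_zero
    · simp only [hV, Matrix.fromBlocks_apply₂₁, Matrix.zero_apply]; exact isIntegral_zero
    · simp only [hV, Matrix.fromBlocks_apply₂₂, Matrix.vandermonde_apply]; exact (hint _).pow _
  -- the Gram matrix
  have hNex : ∀ i j, ∃ z : ℤ, (z : K) = ∑ s : K ≃ₐ[ℚ] K, s (t i) * s (t j) + 1 := by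
    intro i j
    apply int_of_fixed
    · apply IsIntegral.add _ isIntegral_one
      apply IsIntegral.sum
      intro s _
      exact ((hint i).map (s : K →ₐ[ℚ] K)).mul ((hint j).map (s : K →ₐ[ℚ] K))
    · intro τ
      rw [map_add, map_sum, map_one]
      congr 1
      rw [← Equiv.sum_comp (Equiv.mulLeft τ) (fun s : K ≃ₐ[ℚ] K => s (t i) * s (t j))]
      apply Finset.sum_congr rfl
      intro s _
      rw [map_mul]
      rfl
  choose N' hN' using hNex
  let N : Matrix (Fin m₀ ⊕ Fin m₁) (Fin m₀ ⊕ Fin m₁) ℤ := Matrix.of N'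
  have hN : ∀ i j, ((N i j : ℤ) : K) = ∑ s : K ≃ₐ[ℚ] K, s (t i) * s (t j) + 1 := hN'
  have hcinj : Function.Injective ((↑) : ℤ → K) := Int.cast_injective
  have hNsymm : N.IsSymm := by
    ext i j
    apply hcinj
    rw [Matrix.transpose_apply, hN, hN]
    congr 1
    apply Finset.sum_congr rfl
    intro s _
    ring
  have hNinv : ∀ s i j, N (π s i) (π s j) = N i j := by
    intro s i j
    apply hcinj
    rw [hN, hN]
    congr 1
    rw [← Equiv.sum_comp (Equiv.mulRight s) (fun τ : K ≃ₐ[ℚ] K => τ (t i) * τ (t j))]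
    apply Finset.sum_congr rfl
    intro τ _
    rw [← hπt, ← hπt]
    rfl
  have hNR : ∀ i j, (N i j : ℝ) = ∑ s : K ≃ₐ[ℚ] K, ι (s (t i)) * ι (s (t j)) + 1 := by
    intro i j
    have := congrArg ι (hN i j)
    simpa using this
  have hιs : ∀ (s : K ≃ₐ[ℚ] K) i, |ι (s (t i))| ≤ 2 ^ r := by
    intro s i
    rw [hπt]; exact hr _
  have hG : (Fintype.card (K ≃ₐ[ℚ] K) : ℝ) ≤ 2 ^ (m * m) := by
    have h1 : Fintype.card (K ≃ₐ[ℚ] K) ≤ Fintype.card ((Fin m₀ ⊕ Fin m₁) → (Fin m₀ ⊕ Fin m₁)) := by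
      apply Fintype.card_le_of_injective (fun s => (π s : (Fin m₀ ⊕ Fin m₁) → (Fin m₀ ⊕ Fin m₁)))
      intro s s' hss
      apply hgen
      intro i
      rw [hπt, hπt]
      exact congrArg t (congrFun hss i)
    rw [Fintype.card_fun, hcard] at h1
    have h4 : m ^ m ≤ (2 ^ m) ^ m := Nat.pow_le_pow_left (Nat.lt_two_pow_self).le _
    rw [← pow_mul] at h4
    exact_mod_cast h1.trans h4
  have hNbd : ∀ i j, |(N i j : ℝ)| ≤ 2 ^ (m * m + 2 * r + 1) := by
    intro i j
    rw [hNR]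
    calc |∑ s : K ≃ₐ[ℚ] K, ι (s (t i)) * ι (s (t j)) + 1|
        ≤ |∑ s : K ≃ₐ[ℚ] K, ι (s (t i)) * ι (s (t j))| + |1| := abs_add_le _ _
      _ ≤ ∑ s : K ≃ₐ[ℚ] K, |ι (s (t i)) * ι (s (t j))| + 1 := by
          rw [abs_one]
          gcongr
          exact Finset.abs_sum_le_sum_abs _ _
      _ ≤ ∑ s : K ≃ₐ[ℚ] K, (2 ^ r * 2 ^ r : ℝ) + 1 := by
          gcongr with s _
          rw [abs_mul]
          have h1 := hιs s i
          have h2 := hιs s j
          gcongr
      _ = (Fintype.card (K ≃ₐ[ℚ] K) : ℝ) * (2 ^ r * 2 ^ r) + 1 := by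
          rw [Finset.sum_const, Finset.card_univ, nsmul_eq_mul]
      _ ≤ 2 ^ (m * m) * (2 ^ r * 2 ^ r) + 2 ^ (m * m) * (2 ^ r * 2 ^ r) := by
          gcongr
          rw [← pow_add, ← pow_add]
          exact one_le_pow₀ (by norm_num)
      _ = 2 ^ (m * m + 2 * r + 1) := by
          rw [pow_succ, pow_add, two_mul r, pow_add]; ring
  -- the projection
  obtain ⟨h, hh0, hNH, hHbd⟩ := exists_proj N hNsymm (2 ^ (m * m + 2 * r + 1))
    (2 ^ (m + m * m + 2 * r + 1)) hNbd (one_le_pow₀ (by norm_num)) (by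
      rw [hcard]
      have h1 : (m : ℝ) ≤ 2 ^ m := by exact_mod_cast (Nat.lt_two_pow_self).le
      calc (m : ℝ) * 2 ^ (m * m + 2 * r + 1) ≤ 2 ^ m * 2 ^ (m * m + 2 * r + 1) := by gcongr
        _ = 2 ^ (m + m * m + 2 * r + 1) := by rw [← pow_add]; congr 1; ring)
  set H : Matrix (Fin m₀ ⊕ Fin m₁) (Fin m₀ ⊕ Fin m₁) ℤ := aeval N h with hH
  have hHsymm : H.IsSymm := isSymm_aeval N hNsymm h
  have hHbd' : ∀ i j, |(H i j : ℝ)| ≤ 2 ^ (2 * m + 2 * m * (m + m * m + 2 * r + 1)) := by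
    intro i j
    refine (hHbd i j).trans ?_
    rw [hcard]
    have h1 : (m : ℝ) + 1 ≤ 2 ^ m := by exact_mod_cast Nat.lt_two_pow_self
    calc ((m : ℝ) + 1) * 2 ^ m * (2 ^ (m + m * m + 2 * r + 1)) ^ (2 * m)
        ≤ 2 ^ m * 2 ^ m * (2 ^ (m + m * m + 2 * r + 1)) ^ (2 * m) := by gcongr
      _ = 2 ^ (2 * m + 2 * m * (m + m * m + 2 * r + 1)) := by
          rw [← pow_mul, ← pow_add, ← pow_add]; congr 1; ring
  have hHinv : ∀ s i j, H (π s i) (π s j) = H i j := by
    intro s i j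
    have h1 : Matrix.reindexAlgEquiv ℤ ℤ (π s).symm N = N := by
      ext i j
      exact hNinv s i j
    have h2 := Polynomial.aeval_algHom_apply (Matrix.reindexAlgEquiv ℤ ℤ (π s).symm).toAlgHom N h
    have h3 : (Matrix.reindexAlgEquiv ℤ ℤ (π s).symm).toAlgHom N = N := h1
    rw [h3] at h2
    have h4 := congrFun (congrFun h2 i) j
    exact h4.symm
  -- determinant and adjugate
  let V' : Matrix (Fin m₀ ⊕ Fin m₁) (Fin m₀ ⊕ Fin m₁) (integralClosure ℤ K) :=
    Matrix.of fun i j => ⟨V i j, hVint i j⟩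
  have hV' : (algebraMap (integralClosure ℤ K) K).mapMatrix V' = V := by
    ext i j; rfl
  have hadjint : ∀ a i, IsIntegral ℤ (V.adjugate a i) := by
    intro a i
    rw [← hV', ← RingHom.map_adjugate]
    exact (V'.adjugate a i).2
  have hdetint : IsIntegral ℤ V.det := by
    rw [← hV', ← RingHom.map_det]
    exact (V'.det).2
  have hsV : ∀ s : K ≃ₐ[ℚ] K, (s : K →+* K).mapMatrix V = V.submatrix (π s) id := by
    intro s
    ext i j
    exact hπV s i j
  have hsgn : ∀ s : K ≃ₐ[ℚ] K, ((Equiv.Perm.sign (π s) : ℤ) : K) * ((Equiv.Perm.sign (π s) : ℤ) : K)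
      = 1 := by
    intro s
    rcases Int.units_eq_one_or (Equiv.Perm.sign (π s)) with h | h <;> simp [h]
  have hsdet : ∀ s : K ≃ₐ[ℚ] K, s V.det = ((Equiv.Perm.sign (π s) : ℤ) : K) * V.det := by
    intro s
    have h1 : (s : K →+* K) V.det = ((s : K →+* K).mapMatrix V).det := RingHom.map_det _ _
    rw [hsV] at h1
    have h2 : (V.submatrix (π s) id).det = ((Equiv.Perm.sign (π s) : ℤ) : K) * V.det :=
      Matrix.det_permute _ _
    rw [h2] at h1
    exact h1
  have hsadj : ∀ (s : K ≃ₐ[ℚ] K) a i, s (V.adjugate a i) =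
      ((Equiv.Perm.sign (π s) : ℤ) : K) * V.adjugate a (π s i) := by
    intro s a i
    have h1 := RingHom.map_adjugate (s : K →+* K) V
    rw [hsV, adj_submatrix V hVdet] at h1
    exact congrFun (congrFun h1 a) i
  obtain ⟨d, hd⟩ : ∃ d : ℤ, (d : K) = V.det * V.det := by
    apply int_of_fixed _ (hdetint.mul hdetint)
    intro s
    rw [map_mul, hsdet]
    calc ((Equiv.Perm.sign (π s) : ℤ) : K) * V.det * (((Equiv.Perm.sign (π s) : ℤ) : K) * V.det)
        = (((Equiv.Perm.sign (π s) : ℤ) : K) * ((Equiv.Perm.sign (π s) : ℤ) : K)) *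
          (V.det * V.det) := by ring
      _ = _ := by rw [hsgn, one_mul]
  have hd0 : d ≠ 0 := by
    rintro rfl
    simp only [Int.cast_zero] at hd
    rcases mul_eq_zero.mp hd.symm with h | h <;> exact hVdet h
  have hCex : ∀ a b, ∃ z : ℤ, (z : K) = ∑ i, ∑ j, V.adjugate a i * (H i j : K) * V.adjugate b j := by
    intro a b
    apply int_of_fixed
    · apply IsIntegral.sum; intro i _
      apply IsIntegral.sum; intro j _
      exact ((hadjint a i).mul (isIntegral_algebraMap (R := ℤ) (A := K) (x := H i j))).mul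
        (hadjint b j)
    · intro s
      rw [map_sum]
      rw [← Equiv.sum_comp (π s)
        (fun i => ∑ j, V.adjugate a i * (H i j : K) * V.adjugate b j)]
      apply Finset.sum_congr rfl
      intro i _
      rw [map_sum]
      rw [← Equiv.sum_comp (π s)
        (fun j => V.adjugate a (π s i) * (H (π s i) j : K) * V.adjugate b j)]
      apply Finset.sum_congr rfl
      intro j _
      rw [map_mul, map_mul, hsadj, hsadj, hHinv, map_intCast]
      calc ((Equiv.Perm.sign (π s) : ℤ) : K) * V.adjugate a (π s i) * (H i j : K) *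
            (((Equiv.Perm.sign (π s) : ℤ) : K) * V.adjugate b (π s j))
          = (((Equiv.Perm.sign (π s) : ℤ) : K) * ((Equiv.Perm.sign (π s) : ℤ) : K)) *
            (V.adjugate a (π s i) * (H i j : K) * V.adjugate b (π s j)) := by ring
        _ = _ := by rw [hsgn, one_mul]
  choose C' hC' using hCex
  let C : Matrix (Fin m₀ ⊕ Fin m₁) (Fin m₀ ⊕ Fin m₁) ℤ := Matrix.of C'
  have hC : ∀ a b, ((C a b : ℤ) : K) = ∑ i, ∑ j, V.adjugate a i * (H i j : K) * V.adjugate b j := hC'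
  have hCK : C.map (Int.cast : ℤ → K) = V.adjugate * H.map (Int.cast : ℤ → K) * V.adjugateᵀ := by
    ext a b
    rw [Matrix.map_apply, hC, Matrix.mul_apply]
    simp_rw [Matrix.mul_apply, Matrix.transpose_apply, Matrix.map_apply, Finset.sum_mul]
    rw [Finset.sum_comm]
  -- real matrices
  have hVR : V.map ι = bvand (fun i => ι (t (Sum.inl i))) (fun i => ι (t (Sum.inr i))) := by
    ext i j
    rcases i with i | i <;> rcases j with j | j <;>
      simp [hV, bvand, Matrix.vandermonde_apply]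
  have hVbd : ∀ i j, |(V.map ι) i j| ≤ 2 ^ (r * Fintype.card (Fin m₀ ⊕ Fin m₁)) := by
    have key : ∀ (i : Fin m₀ ⊕ Fin m₁) (j : ℕ), j ≤ m → |ι (t i ^ j)| ≤ 2 ^ (r * m) := by
      intro i j hj
      rw [map_pow, abs_pow]
      calc |ι (t i)| ^ j ≤ (2 ^ r) ^ j := by gcongr; exact hr i
        _ = 2 ^ (r * j) := by rw [← pow_mul]
        _ ≤ 2 ^ (r * m) := by
          apply pow_le_pow_right₀ (by norm_num)
          exact Nat.mul_le_mul_left _ hj
    rw [hcard]
    have hpos : (0 : ℝ) ≤ 2 ^ (r * m) := by positivity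
    intro i j
    rcases i with i | i <;> rcases j with j | j
    · simpa [hV, Matrix.vandermonde_apply] using key (Sum.inl i) j (by omega)
    · simp [hV]
    · simp [hV]
    · simpa [hV, Matrix.vandermonde_apply] using key (Sum.inr i) j (by omega)
  have hdetR : ι V.det = (V.map ι).det := RingHom.map_det ι V
  have hadjR : ∀ a i, ι (V.adjugate a i) = (V.map ι).adjugate a i := by
    intro a i
    have := RingHom.map_adjugate ι V
    exact congrFun (congrFun this a) i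
  have hdbd : |(d : ℝ)| ≤ 2 ^ (m ^ 2 * (r + 1)) * 2 ^ (m ^ 2 * (r + 1)) := by
    have h1 : (d : ℝ) = (V.map ι).det * (V.map ι).det := by
      have := congrArg ι hd
      rw [map_intCast, map_mul, hdetR] at this
      exact this
    rw [h1, abs_mul]
    have h2 := det_bound (V.map ι) r hVbd
    rw [hcard] at h2
    gcongr
  have hadjbd : ∀ a i, |ι (V.adjugate a i)| ≤ 2 ^ (m ^ 2 * (r + 1)) := by
    intro a i
    rw [hadjR]
    have h2 := adj_bound (V.map ι) r hVbd a i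
    rwa [hcard] at h2
  have hmbd : (m : ℝ) ≤ 2 ^ m := by exact_mod_cast (Nat.lt_two_pow_self).le
  -- exponents
  have hexp : ∀ e : ℕ, e ≤ 10 * (m + 1) ^ 3 * (r + 1) → ∀ x : ℤ, |(x : ℝ)| ≤ 2 ^ e →
      |x| ≤ 2 ^ (10 * (m + 1) ^ 3 * (r + 1)) := by
    intro e he x hx
    have h1 : |(x : ℝ)| ≤ 2 ^ (10 * (m + 1) ^ 3 * (r + 1)) :=
      hx.trans (pow_le_pow_right₀ (by norm_num) he)
    exact_mod_cast h1
  -- kernel vectors of the Gram matrix
  have hker : ∀ c : Fin m₀ ⊕ Fin m₁ → ℤ, (∀ l, ∑ j, N l j * c j = 0) →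
      ∑ j, (c j : ℝ) * ι (t j) = 0 ∧ ∑ j, c j = 0 := by
    intro c hc
    have e : ∑ l, (c l : ℝ) * ∑ j, (N l j : ℝ) * (c j : ℝ) =
        ∑ s : K ≃ₐ[ℚ] K, (∑ j, (c j : ℝ) * ι (s (t j))) ^ 2 + (∑ j, (c j : ℝ)) ^ 2 := by
      have e1 : ∀ l j, (c l : ℝ) * ((N l j : ℝ) * (c j : ℝ)) =
          ∑ s : K ≃ₐ[ℚ] K, ((c l : ℝ) * ι (s (t l))) * ((c j : ℝ) * ι (s (t j))) +
            (c l : ℝ) * (c j : ℝ) := by
        intro l j
        rw [hNR, add_mul, mul_add, Finset.sum_mul, Finset.mul_sum, one_mul]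
        congr 1
        apply Finset.sum_congr rfl
        intro s _
        ring
      simp_rw [Finset.mul_sum, e1, Finset.sum_add_distrib, sq, Finset.sum_mul_sum]
      congr 1
      rw [Finset.sum_comm' (s := univ) (t := fun _ => univ) (t' := univ) (s' := fun _ => univ)
        (by simp)]
      rw [Finset.sum_congr rfl fun l _ => Finset.sum_comm]
      rw [Finset.sum_comm]
      apply Finset.sum_congr rfl
      intro s _
      rw [Finset.sum_comm]
    have e0 : ∑ l, (c l : ℝ) * ∑ j, (N l j : ℝ) * (c j : ℝ) = 0 := by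
      apply Finset.sum_eq_zero
      intro l _
      have : ∑ j, (N l j : ℝ) * (c j : ℝ) = 0 := by exact_mod_cast hc l
      rw [this, mul_zero]
    rw [e0] at e
    have h1 : (0 : ℝ) ≤ ∑ s : K ≃ₐ[ℚ] K, (∑ j, (c j : ℝ) * ι (s (t j))) ^ 2 :=
      Finset.sum_nonneg fun s _ => sq_nonneg _
    have h2 : (0 : ℝ) ≤ (∑ j, (c j : ℝ)) ^ 2 := sq_nonneg _
    have h3 : ∑ s : K ≃ₐ[ℚ] K, (∑ j, (c j : ℝ) * ι (s (t j))) ^ 2 = 0 := by linarith
    have h4 : (∑ j, (c j : ℝ)) ^ 2 = 0 := by linarith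
    have h5 := (Finset.sum_eq_zero_iff_of_nonneg (fun s _ => sq_nonneg _)).mp h3
      (AlgEquiv.refl) (Finset.mem_univ _)
    refine ⟨pow_eq_zero_iff (two_ne_zero) |>.mp h5, ?_⟩
    have h6 := pow_eq_zero_iff (two_ne_zero) |>.mp h4
    exact_mod_cast h6
  have hrow : ∀ i, ∑ j, (H i j : ℝ) * ι (t j) = 0 ∧ ∑ j, H i j = 0 := by
    intro i
    apply hker
    intro l
    have h1 := congrFun (congrFun hNH l) i
    rw [Matrix.mul_apply] at h1
    rw [Matrix.zero_apply] at h1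
    rw [← h1]
    apply Finset.sum_congr rfl
    intro j _
    rw [hHsymm.apply]
  refine ⟨d • H, C, N, ?_, ?_, ?_, ?_, ?_, ?_, ?_, ?_⟩
  · intro i j
    apply hexp (2 * (m ^ 2 * (r + 1)) + (2 * m + 2 * m * (m + m * m + 2 * r + 1)))
    · nlinarith [Nat.zero_le m, Nat.zero_le r, Nat.zero_le (m * r), Nat.zero_le (m ^ 2 * r),
        Nat.zero_le (m ^ 3 * r), Nat.zero_le (m ^ 2), Nat.zero_le (m ^ 3)]
    · rw [Matrix.smul_apply, smul_eq_mul]
      push_cast
      rw [abs_mul]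
      have h1 := hHbd' i j
      calc |(d : ℝ)| * |(H i j : ℝ)| ≤ (2 ^ (m ^ 2 * (r + 1)) * 2 ^ (m ^ 2 * (r + 1))) *
            2 ^ (2 * m + 2 * m * (m + m * m + 2 * r + 1)) := by gcongr
        _ = _ := by rw [← pow_add, ← pow_add]; congr 1; ring
  · intro a b
    apply hexp (2 * m + (2 * (m ^ 2 * (r + 1)) + (2 * m + 2 * m * (m + m * m + 2 * r + 1))))
    · nlinarith [Nat.zero_le m, Nat.zero_le r, Nat.zero_le (m * r), Nat.zero_le (m ^ 2 * r),
        Nat.zero_le (m ^ 3 * r), Nat.zero_le (m ^ 2), Nat.zero_le (m ^ 3)]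
    · have h1 : (C a b : ℝ) = ∑ i, ∑ j, ι (V.adjugate a i) * (H i j : ℝ) * ι (V.adjugate b j) := by
        have := congrArg ι (hC a b)
        simpa using this
      rw [h1]
      calc |∑ i, ∑ j, ι (V.adjugate a i) * (H i j : ℝ) * ι (V.adjugate b j)|
          ≤ ∑ i, |∑ j, ι (V.adjugate a i) * (H i j : ℝ) * ι (V.adjugate b j)| :=
            Finset.abs_sum_le_sum_abs _ _
        _ ≤ ∑ i, ∑ j, |ι (V.adjugate a i) * (H i j : ℝ) * ι (V.adjugate b j)| := by
            apply Finset.sum_le_sum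
            intro i _
            exact Finset.abs_sum_le_sum_abs _ _
        _ ≤ ∑ _i : Fin m₀ ⊕ Fin m₁, ∑ _j : Fin m₀ ⊕ Fin m₁, 2 ^ (m ^ 2 * (r + 1)) *
              2 ^ (2 * m + 2 * m * (m + m * m + 2 * r + 1)) * 2 ^ (m ^ 2 * (r + 1)) := by
            apply Finset.sum_le_sum; intro i _
            apply Finset.sum_le_sum; intro j _
            rw [abs_mul, abs_mul]
            have h2 := hadjbd a i
            have h3 := hadjbd b j
            have h4 := hHbd' i j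
            gcongr
        _ = (m : ℝ) * ((m : ℝ) * (2 ^ (m ^ 2 * (r + 1)) *
              2 ^ (2 * m + 2 * m * (m + m * m + 2 * r + 1)) * 2 ^ (m ^ 2 * (r + 1)))) := by
            rw [Finset.sum_const, Finset.sum_const, Finset.card_univ, hcard, nsmul_eq_mul,
              nsmul_eq_mul]
        _ ≤ 2 ^ m * (2 ^ m * (2 ^ (m ^ 2 * (r + 1)) *
              2 ^ (2 * m + 2 * m * (m + m * m + 2 * r + 1)) * 2 ^ (m ^ 2 * (r + 1)))) := by
            gcongr
        _ = _ := by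
            rw [← pow_add, ← pow_add, ← pow_add, ← pow_add]; congr 1; ring
  · intro i j
    apply hexp (m * m + 2 * r + 1)
    · nlinarith [Nat.zero_le m, Nat.zero_le r, Nat.zero_le (m * r), Nat.zero_le (m ^ 2 * r),
        Nat.zero_le (m ^ 3 * r), Nat.zero_le (m ^ 2), Nat.zero_le (m ^ 3)]
    · exact hNbd i j
  · -- M = V C V^T
    have h1 : V * C.map (Int.cast : ℤ → K) * Vᵀ = (d • H).map (Int.cast : ℤ → K) := by
      rw [hCK]
      have h2 : V * (V.adjugate * H.map (Int.cast : ℤ → K) * V.adjugateᵀ) * Vᵀ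
          = (V * V.adjugate) * H.map (Int.cast : ℤ → K) * (V * V.adjugate)ᵀ := by
        rw [Matrix.transpose_mul]
        simp only [Matrix.mul_assoc]
      rw [h2, Matrix.mul_adjugate]
      ext i j
      simp only [Matrix.transpose_smul, Matrix.transpose_one, Matrix.smul_mul, Matrix.one_mul,
        Matrix.mul_smul, Matrix.mul_one, Matrix.smul_apply, Matrix.map_apply, smul_eq_mul]
      push_cast
      rw [hd]
      ring
    have h3 := congrArg (fun A : Matrix (Fin m₀ ⊕ Fin m₁) (Fin m₀ ⊕ Fin m₁) K => A.map ι) h1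
    simp only [Matrix.map_mul] at h3
    rw [← hVR]
    have h4 : (C.map (Int.cast : ℤ → K)).map ι = C.map (Int.cast : ℤ → ℝ) := by
      ext i j; simp
    have h5 : ((d • H).map (Int.cast : ℤ → K)).map ι = (d • H).map (Int.cast : ℤ → ℝ) := by
      ext i j; simp
    rw [h4, h5] at h3
    rw [← h3, Matrix.transpose_map]
  · intro i
    have h1 := (hrow i).1
    have h2 : ∀ j, (((d • H) i j : ℤ) : ℝ) * ι (t j) = (d : ℝ) * ((H i j : ℝ) * ι (t j)) := by
      intro j
      rw [Matrix.smul_apply, smul_eq_mul]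
      push_cast
      ring
    simp_rw [h2]
    rw [← Finset.mul_sum, h1, mul_zero]
  · intro i
    have h1 := (hrow i).2
    simp_rw [Matrix.smul_apply, smul_eq_mul]
    rw [← Finset.mul_sum, h1, mul_zero]
  · intro w hw
    have h1 : H.mulVec w = 0 := by
      ext i
      have h2 := hw i
      simp_rw [Matrix.smul_apply, smul_eq_mul, mul_assoc] at h2
      rw [← Finset.mul_sum] at h2
      rcases mul_eq_zero.mp h2 with h3 | h3
      · exact absurd h3 hd0
      · exact h3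
    set G := aeval N (divX h) with hG
    have h2 : H = N * G + (h.coeff 0) • (1 : Matrix _ _ ℤ) := by
      have h3 := congrArg (aeval N) (divX_mul_X_add h)
      rw [map_add, map_mul, aeval_X, aeval_C] at h3
      rw [hH, ← h3]
      congr 1
      · have h4 : N * G = aeval N (X * divX h) := by rw [map_mul, aeval_X]
        have h5 : aeval N (divX h) * N = aeval N (divX h * X) := by rw [map_mul, aeval_X]
        rw [h4, h5, mul_comm]
      · rw [Algebra.algebraMap_eq_smul_one]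
    rw [h2, Matrix.add_mulVec, Matrix.smul_mulVec, Matrix.one_mulVec, ← Matrix.mulVec_mulVec] at h1
    refine ⟨fun j => -((G.mulVec w) j : ℝ) / (h.coeff 0 : ℝ), ?_⟩
    intro i
    have h3 := congrFun h1 i
    simp only [Pi.add_apply, Pi.smul_apply, smul_eq_mul, Pi.zero_apply] at h3
    have h4 : ((∑ j, N i j * (G.mulVec w) j : ℤ) : ℝ) + (h.coeff 0 : ℝ) * (w i : ℝ) = 0 := by
      exact_mod_cast h3
    have h5 : (h.coeff 0 : ℝ) ≠ 0 := by exact_mod_cast hh0
    have h6 : ∑ j, (N i j : ℝ) * (-((G.mulVec w) j : ℝ) / (h.coeff 0 : ℝ)) =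
        -((∑ j, N i j * (G.mulVec w) j : ℤ) : ℝ) / (h.coeff 0 : ℝ) := by
      push_cast
      rw [← Finset.sum_neg_distrib, Finset.sum_div]
      apply Finset.sum_congr rfl
      intro j _
      ring
    rw [h6]
    field_simp
    linarith
  · intro l hl hlθ j
    apply hcinj
    push_cast
    simp_rw [hN]
    have h1 : ∑ i, (l i : K) * t i = 0 := by
      apply ι.injective
      rw [map_sum, map_zero, ← hlθ]
      apply Finset.sum_congr rfl
      intro i _
      simp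
    have h2 : ∀ s : K ≃ₐ[ℚ] K, ∑ i, (l i : K) * s (t i) = 0 := by
      intro s
      have := congrArg s h1
      rw [map_sum, map_zero] at this
      rw [← this]
      apply Finset.sum_congr rfl
      intro i _
      rw [map_mul, map_intCast]
    have h3 : ∑ i, (l i : K) = 0 := by exact_mod_cast congrArg (Int.cast : ℤ → K) hl
    simp_rw [mul_add, mul_one, Finset.sum_add_distrib, h3, add_zero, Finset.mul_sum]
    rw [Finset.sum_comm]
    apply Finset.sum_eq_zero
    intro s _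
    have h4 : ∀ i, (l i : K) * (s (t i) * s (t j)) = ((l i : K) * s (t i)) * s (t j) := by
      intro i; ring
    simp_rw [h4]
    rw [← Finset.sum_mul, h2, zero_mul]

end Pool.Agent.H757R2.PgstG
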